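import Mathlib

set_option autoImplicit false

open Filter Topology Set MeasureTheory OnePoint

namespace Pool.Agent.W748.NM.Sph

/-- `f` is a rational map of degree `d` of the Riemann sphere `ℂ ∪ {∞}`. -/
def IsRationalMap (f : OnePoint ℂ → OnePoint ℂ) (d : ℕ) : Prop :=
  ∃ P Q : Polynomial ℂ, IsCoprime P Q ∧ max P.natDegree Q.natDegree = d ∧ Continuous f ∧
    (∀ z : ℂ, Q.eval z ≠ 0 → f (z : OnePoint ℂ) = ((P.eval z / Q.eval z : ℂ) : OnePoint ℂ)) ∧
    (∀ z : ℂ, Q.eval z = 0 → f (z : OnePoint ℂ) = ∞)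

/-- The chordal (spherical) distance on the Riemann sphere. -/
noncomputable def chordal : OnePoint ℂ → OnePoint ℂ → ℝ
  | ∞, ∞ => 0
  | ∞, OnePoint.some w => 2 / Real.sqrt (1 + ‖w‖ ^ 2)
  | OnePoint.some z, ∞ => 2 / Real.sqrt (1 + ‖z‖ ^ 2)
  | OnePoint.some z, OnePoint.some w =>
      2 * ‖z - w‖ / (Real.sqrt (1 + ‖z‖ ^ 2) * Real.sqrt (1 + ‖w‖ ^ 2))

/-- The norm of the derivative of `f` at `z` with respect to the spherical metric. -/
noncomputable def sphDeriv (f : OnePoint ℂ → OnePoint ℂ) (z : OnePoint ℂ) : ℝ :=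
  limUnder (𝓝[≠] z) fun w => chordal (f w) (f z) / chordal w z

/-- The Julia set: the complement of the set of points having a neighbourhood on which the
iterates of `f` are equicontinuous for the spherical metric (i.e. form a normal family). -/
def juliaSet (f : OnePoint ℂ → OnePoint ℂ) : Set (OnePoint ℂ) :=
  {z | ¬ ∃ V ∈ 𝓝 z, ∀ w ∈ V, ∀ ε : ℝ, 0 < ε → ∃ U ∈ 𝓝 w, ∀ n : ℕ, ∀ y ∈ U,
    chordal (f^[n] y) (f^[n] w) < ε}

/-- Neutral measures: `f`-invariant ergodic non-atomic Borel probability measures supported in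
the Julia set, of zero Lyapunov exponent. -/
structure IsNeutral [MeasurableSpace (OnePoint ℂ)] (f : OnePoint ℂ → OnePoint ℂ)
    (μ : Measure (OnePoint ℂ)) : Prop where
  prob : IsProbabilityMeasure μ
  ergodic : Ergodic f μ
  atomless : ∀ z, μ {z} = 0
  supp : μ.support ⊆ juliaSet f
  integrable : Integrable (fun z => Real.log (sphDeriv f z)) μ
  exponent : ∫ z, Real.log (sphDeriv f z) ∂μ = 0

/-- Topological entropy of `f` on `K` (Bowen–Dinaburg definition, `Dynamics.coverEntropy` of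
Mathlib for the unique uniform structure of the compact space `ℂ ∪ {∞}`). -/
noncomputable def topEntropy (f : OnePoint ℂ → OnePoint ℂ) (K : Set (OnePoint ℂ)) : EReal :=
  @Dynamics.coverEntropy (OnePoint ℂ) uniformSpaceOfCompactR1 f K

/-- `f` restricted to the invariant set `K` is minimal: every forward orbit is dense in `K`. -/
def IsMinimalOn (f : OnePoint ℂ → OnePoint ℂ) (K : Set (OnePoint ℂ)) : Prop :=
  ∀ x ∈ K, K ⊆ closure (range fun n : ℕ => f^[n] x)

end Pool.Agent.W748.NM.Sph
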