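import Mathlib

set_option autoImplicit false

open Filter Topology Set

namespace Pool.Agent.W748.NM

/-- the real quadratic family -/
def f (c x : ℝ) : ℝ := x ^ 2 + c

/-- iterates -/
def it (c : ℝ) (n : ℕ) (x : ℝ) : ℝ := (f c)^[n] x

/-- derivative of the `n`-th iterate -/
def dv (c : ℝ) (n : ℕ) (x : ℝ) : ℝ := ∏ i ∈ Finset.range n, (2 * it c i x)

/-- Birkhoff sums -/
def S (c : ℝ) (n : ℕ) (φ : ℝ → ℝ) (x : ℝ) : ℝ := ∑ i ∈ Finset.range n, φ (it c i x)

@[simp] theorem it_zero (c x : ℝ) : it c 0 x = x := rfl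

theorem it_succ (c : ℝ) (n : ℕ) (x : ℝ) : it c (n + 1) x = (it c n x) ^ 2 + c := by
  simp only [it, Function.iterate_succ_apply', f]

theorem it_succ' (c : ℝ) (n : ℕ) (x : ℝ) : it c (n + 1) x = it c n (x ^ 2 + c) := by
  simp only [it, Function.iterate_succ_apply, f]

theorem it_add (c : ℝ) (m n : ℕ) (x : ℝ) : it c (m + n) x = it c m (it c n x) := by
  simp only [it, Function.iterate_add_apply]

theorem it_one (c x : ℝ) : it c 1 x = x ^ 2 + c := by
  simp [it, f]

theorem it_two (c x : ℝ) : it c 2 x = (x ^ 2 + c) ^ 2 + c := by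
  simp [it, f]

theorem dv_zero (c x : ℝ) : dv c 0 x = 1 := by simp [dv]

theorem dv_succ (c : ℝ) (n : ℕ) (x : ℝ) : dv c (n + 1) x = dv c n x * (2 * it c n x) := by
  simp only [dv, Finset.prod_range_succ]

theorem dv_add (c : ℝ) (m n : ℕ) (x : ℝ) : dv c (m + n) x = dv c n x * dv c m (it c n x) := by
  rw [dv, add_comm m n, Finset.prod_range_add]
  congr 1
  refine Finset.prod_congr rfl fun i _ => ?_
  rw [add_comm n i, it_add]

theorem dv_succ' (c : ℝ) (n : ℕ) (x : ℝ) : dv c (n + 1) x = (2 * x) * dv c n (x ^ 2 + c) := by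
  rw [dv_add, it_one]
  simp [dv]

theorem S_add (c : ℝ) (m n : ℕ) (φ : ℝ → ℝ) (x : ℝ) :
    S c (m + n) φ x = S c n φ x + S c m φ (it c n x) := by
  rw [S, add_comm m n, Finset.sum_range_add]
  congr 1
  refine Finset.sum_congr rfl fun i _ => ?_
  rw [add_comm n i, it_add]

theorem it_hasDerivAt (c : ℝ) (n : ℕ) (x : ℝ) : HasDerivAt (it c n) (dv c n x) x := by
  induction n with
  | zero =>
    rw [dv_zero]
    exact hasDerivAt_id x
  | succ n ih =>
    have h1 : it c (n + 1) = fun x => (it c n x) ^ 2 + c := by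
      funext x; exact it_succ c n x
    rw [h1, dv_succ]
    have h2 := (ih.pow 2).add_const c
    convert! h2 using 1
    simp
    ring

theorem it_cont (n : ℕ) : Continuous fun q : ℝ × ℝ => it q.1 n q.2 := by
  induction n with
  | zero => simpa using continuous_snd
  | succ n ih =>
    simp only [it_succ]
    exact (ih.pow 2).add continuous_fst

theorem dv_cont (n : ℕ) : Continuous fun q : ℝ × ℝ => dv q.1 n q.2 := by
  induction n with
  | zero => simp only [dv_zero]; exact continuous_const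
  | succ n ih =>
    simp only [dv_succ]
    exact ih.mul (continuous_const.mul (it_cont n))

theorem it_cont_x (c : ℝ) (n : ℕ) : Continuous (it c n) := by
  have := (it_cont n).comp (Continuous.prodMk (continuous_const (y := c)) continuous_id)
  exact this

theorem dv_cont_x (c : ℝ) (n : ℕ) : Continuous (dv c n) := by
  have := (dv_cont n).comp (Continuous.prodMk (continuous_const (y := c)) continuous_id)
  exact this

theorem it_cont_c (x : ℝ) (n : ℕ) : Continuous fun c => it c n x := by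
  have := (it_cont n).comp (Continuous.prodMk continuous_id (continuous_const (y := x)))
  exact this

theorem S_cont {φ : ℝ → ℝ} (hφ : Continuous φ) (c : ℝ) (n : ℕ) : Continuous (S c n φ) := by
  unfold S
  exact continuous_finsetSum _ fun i _ => hφ.comp (it_cont_x c i)

/-- the core interval is invariant -/
theorem it_mem {c : ℝ} (hc : -2 ≤ c) (hc' : c ≤ -1) {x : ℝ} (hx : x ∈ Icc c (c ^ 2 + c)) (n : ℕ) :
    it c n x ∈ Icc c (c ^ 2 + c) := by
  induction n with
  | zero => simpa using hx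
  | succ n ih =>
    rw [it_succ]
    obtain ⟨h1, h2⟩ := ih
    refine ⟨by nlinarith [sq_nonneg (it c n x)], ?_⟩
    have h3 : c ^ 2 + c ≤ -c := by nlinarith
    nlinarith

theorem core_sub {c : ℝ} (hc : -2 ≤ c) (hc' : c ≤ -1) {x : ℝ} (hx : x ∈ Icc c (c ^ 2 + c)) :
    x ∈ Icc (-2 : ℝ) 2 := by
  obtain ⟨h1, h2⟩ := hx
  exact ⟨by linarith, by nlinarith⟩

theorem abs_dv_le {c : ℝ} (hc : -2 ≤ c) (hc' : c ≤ -1) {x : ℝ} (hx : x ∈ Icc c (c ^ 2 + c))
    (n : ℕ) : |dv c n x| ≤ 4 ^ n := by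
  rw [dv, Finset.abs_prod]
  calc ∏ i ∈ Finset.range n, |2 * it c i x| ≤ ∏ _i ∈ Finset.range n, (4 : ℝ) := by
        refine Finset.prod_le_prod (fun i _ => abs_nonneg _) fun i _ => ?_
        obtain ⟨h1, h2⟩ := core_sub hc hc' (it_mem hc hc' hx i)
        rw [abs_le]; constructor <;> linarith
    _ = 4 ^ n := by simp

/-- mean value theorem for iterates -/
theorem it_mvt (c : ℝ) (n : ℕ) {x y : ℝ} (hxy : x < y) :
    ∃ ξ ∈ Ioo x y, it c n y - it c n x = dv c n ξ * (y - x) := by
  obtain ⟨ξ, hξ, h⟩ := exists_hasDerivAt_eq_slope (it c n) (dv c n) hxy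
    (it_cont_x c n).continuousOn (fun z _ => it_hasDerivAt c n z)
  refine ⟨ξ, hξ, ?_⟩
  rw [h]
  field_simp [sub_ne_zero.2 hxy.ne']

end Pool.Agent.W748.NM
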