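import Mathlib
import Pool.Agent.W748.NM.Basic

set_option autoImplicit false

open Filter Topology Set

namespace Pool.Agent.W748.NM

/-- positive inverse branch of the second iterate -/
noncomputable def gp (c y : ℝ) : ℝ := Real.sqrt (-c - Real.sqrt (y - c))

/-- parameter range -/
def PR : Set ℝ := Icc (-2 : ℝ) (-19 / 10)

/-- the large interval on which branches are defined -/
def AB : Set ℝ := Icc (-(31 / 20) : ℝ) (31 / 20)

/-- the smaller interval -/
def AA : Set ℝ := Icc (-(3 / 2) : ℝ) (3 / 2)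

theorem AA_sub : AA ⊆ AB := by
  intro x hx
  obtain ⟨h1, h2⟩ := hx
  exact ⟨by linarith, by linarith⟩

theorem AB_core {c : ℝ} (hc : c ∈ PR) {x : ℝ} (hx : x ∈ AB) : x ∈ Icc c (c ^ 2 + c) := by
  obtain ⟨h1, h2⟩ := hx
  obtain ⟨h3, h4⟩ := hc
  exact ⟨by linarith, by nlinarith⟩

theorem gp_spec {c y : ℝ} (hc : c ∈ PR) (hy : y ∈ AB) :
    1 / 5 < gp c y ∧ gp c y < 6 / 5 ∧ (gp c y) ^ 2 + c = - Real.sqrt (y - c) ∧
      0 < Real.sqrt (y - c) := by
  obtain ⟨h1, h2⟩ := hy
  obtain ⟨h3, h4⟩ := hc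
  have h5 : 0 < y - c := by linarith
  have h6 : 0 < Real.sqrt (y - c) := Real.sqrt_pos.2 h5
  have h7 : Real.sqrt (y - c) ^ 2 = y - c := Real.sq_sqrt h5.le
  have h8 : Real.sqrt (y - c) < -c - 1 / 25 := by
    apply Real.sqrt_lt' (by linarith) |>.2
    nlinarith
  have h9 : -c - 36 / 25 < Real.sqrt (y - c) := by
    apply Real.lt_sqrt (by linarith) |>.2
    nlinarith
  have h10 : 0 ≤ -c - Real.sqrt (y - c) := by linarith
  have h11 : gp c y ^ 2 = -c - Real.sqrt (y - c) := Real.sq_sqrt h10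
  refine ⟨?_, ?_, by linarith, h6⟩
  · apply Real.lt_sqrt (by norm_num) |>.2
    linarith
  · apply Real.sqrt_lt' (by norm_num) |>.2
    linarith

theorem it_two_gp {c y : ℝ} (hc : c ∈ PR) (hy : y ∈ AB) : it c 2 (gp c y) = y := by
  obtain ⟨h1, h2, h3, h4⟩ := gp_spec hc hy
  rw [it_two, h3, neg_sq, Real.sq_sqrt]
  · ring
  · exact (Real.sqrt_pos.1 h4).le

theorem dv_two (c x : ℝ) : dv c 2 x = 4 * x * (x ^ 2 + c) := by
  rw [dv_succ, dv_succ, dv_zero, it_one, it_zero]; ring

theorem dv_two_gp {c y : ℝ} (hc : c ∈ PR) (hy : y ∈ AB) : dv c 2 (gp c y) < 0 := by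
  obtain ⟨h1, h2, h3, h4⟩ := gp_spec hc hy
  rw [dv_two, h3]
  nlinarith

/-- branch with sign -/
noncomputable def gb (c : ℝ) (s : Bool) (y : ℝ) : ℝ := if s then gp c y else -gp c y

/-- sign of a boolean -/
def sg (s : Bool) : ℝ := if s then 1 else -1

theorem sg_mul_gb (c : ℝ) (s : Bool) (y : ℝ) : sg s * gb c s y = gp c y := by
  cases s <;> simp [sg, gb]

theorem it_two_neg (c x : ℝ) : it c 2 (-x) = it c 2 x := by
  rw [it_two, it_two, neg_sq]

theorem it_two_gb {c y : ℝ} (s : Bool) (hc : c ∈ PR) (hy : y ∈ AB) : it c 2 (gb c s y) = y := by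
  cases s
  · simp only [gb, Bool.false_eq_true, if_false, it_two_neg]
    exact it_two_gp hc hy
  · simp only [gb, if_true]
    exact it_two_gp hc hy

theorem dv_two_gb {c y : ℝ} (s : Bool) (hc : c ∈ PR) (hy : y ∈ AB) : dv c 2 (gb c s y) ≠ 0 := by
  have h := dv_two_gp hc hy
  cases s
  · simp only [gb, Bool.false_eq_true, if_false]
    rw [dv_two] at h ⊢
    nlinarith
  · simp only [gb, if_true]
    exact h.ne

theorem gb_mem {c y : ℝ} (s : Bool) (hc : c ∈ PR) (hy : y ∈ AB) : gb c s y ∈ AA := by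
  obtain ⟨h1, h2, h3, h4⟩ := gp_spec hc hy
  cases s
  · simp only [gb, Bool.false_eq_true, if_false]
    exact ⟨by linarith, by linarith⟩
  · simp only [gb, if_true]
    exact ⟨by linarith, by linarith⟩

theorem gp_cont (c : ℝ) : Continuous (gp c) := by
  unfold gp
  fun_prop

theorem gb_cont (c : ℝ) (s : Bool) : Continuous (gb c s) := by
  cases s
  · have : gb c false = fun y => - gp c y := by funext y; simp [gb]
    rw [this]; exact (gp_cont c).neg
  · have : gb c true = fun y => gp c y := by funext y; simp [gb]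
    rw [this]; exact gp_cont c

/-- word inverse branch -/
noncomputable def gw (c : ℝ) : List Bool → ℝ → ℝ
  | [], y => y
  | s :: v, y => gb c s (gw c v y)

theorem gw_mem {c : ℝ} (hc : c ∈ PR) (v : List Bool) {y : ℝ} (hy : y ∈ AB) : gw c v y ∈ AB := by
  induction v with
  | nil => exact hy
  | cons s v ih => exact AA_sub (gb_mem s hc ih)

theorem gw_cont (c : ℝ) (v : List Bool) : Continuous (gw c v) := by
  induction v with
  | nil => exact continuous_id
  | cons s v ih => exact (gb_cont c s).comp ih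

theorem it_gw {c : ℝ} (hc : c ∈ PR) (v : List Bool) {y : ℝ} (hy : y ∈ AB) :
    it c (2 * v.length) (gw c v y) = y := by
  induction v with
  | nil => simp [gw]
  | cons s v ih =>
    have h1 : 2 * (s :: v).length = 2 * v.length + 2 := by simp; ring
    rw [h1, it_add, gw, it_two_gb s hc (gw_mem hc v hy), ih]

theorem dv_gw {c : ℝ} (hc : c ∈ PR) (v : List Bool) {y : ℝ} (hy : y ∈ AB) :
    dv c (2 * v.length) (gw c v y) ≠ 0 := by
  induction v with
  | nil => simp [dv_zero]
  | cons s v ih =>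
    have h1 : 2 * (s :: v).length = 2 * v.length + 2 := by simp; ring
    rw [h1, dv_add, gw, it_two_gb s hc (gw_mem hc v hy)]
    exact mul_ne_zero (dv_two_gb s hc (gw_mem hc v hy)) ih

/-- bump function of a cylinder -/
noncomputable def psi (c : ℝ) : List Bool → ℝ → ℝ
  | [], _ => 1
  | s :: v, w => max 0 (sg s * w - 1 / 5) * max 0 (6 / 5 - sg s * w) * psi c v (it c 2 w)

theorem psi_nonneg (c : ℝ) (v : List Bool) (w : ℝ) : 0 ≤ psi c v w := by
  induction v generalizing w with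
  | nil => simp [psi]
  | cons s v ih =>
    rw [psi]
    exact mul_nonneg (mul_nonneg (le_max_left _ _) (le_max_left _ _)) (ih _)

theorem psi_cons_pos {c : ℝ} {s : Bool} {v : List Bool} {w : ℝ} :
    0 < psi c (s :: v) w ↔ 1 / 5 < sg s * w ∧ sg s * w < 6 / 5 ∧ 0 < psi c v (it c 2 w) := by
  rw [psi]
  constructor
  · intro h
    have h1 := psi_nonneg c v (it c 2 w)
    have h2 : 0 ≤ max 0 (sg s * w - 1 / 5) := le_max_left _ _
    have h3 : 0 ≤ max 0 (6 / 5 - sg s * w) := le_max_left _ _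
    have h4 : 0 < max 0 (sg s * w - 1 / 5) := by
      refine lt_of_le_of_ne h2 fun h' => ?_
      rw [← h', zero_mul, zero_mul] at h
      exact lt_irrefl _ h
    have h5 : 0 < max 0 (6 / 5 - sg s * w) := by
      refine lt_of_le_of_ne h3 fun h' => ?_
      rw [← h', mul_zero, zero_mul] at h
      exact lt_irrefl _ h
    have h6 : 0 < psi c v (it c 2 w) := by
      refine lt_of_le_of_ne h1 fun h' => ?_
      rw [← h', mul_zero] at h
      exact lt_irrefl _ h
    refine ⟨?_, ?_, h6⟩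
    · rcases lt_max_iff.1 h4 with h | h
      · exact absurd h (lt_irrefl _)
      · linarith
    · rcases lt_max_iff.1 h5 with h | h
      · exact absurd h (lt_irrefl _)
      · linarith
  · rintro ⟨h1, h2, h3⟩
    have h4 : 0 < max 0 (sg s * w - 1 / 5) := lt_max_iff.2 (Or.inr (by linarith))
    have h5 : 0 < max 0 (6 / 5 - sg s * w) := lt_max_iff.2 (Or.inr (by linarith))
    positivity

theorem psi_cont (v : List Bool) : Continuous fun q : ℝ × ℝ => psi q.1 v q.2 := by
  induction v with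
  | nil => simp only [psi]; exact continuous_const
  | cons s v ih =>
    simp only [psi]
    refine Continuous.mul (by fun_prop) ?_
    exact ih.comp (continuous_fst.prodMk (it_cont 2))

theorem psi_gw {c : ℝ} (hc : c ∈ PR) (v : List Bool) {y : ℝ} (hy : y ∈ AB) :
    0 < psi c v (gw c v y) := by
  induction v with
  | nil => simp [psi]
  | cons s v ih =>
    rw [psi_cons_pos, gw, sg_mul_gb, it_two_gb s hc (gw_mem hc v hy)]
    obtain ⟨h1, h2, -, -⟩ := gp_spec hc (gw_mem hc v hy)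
    exact ⟨h1, h2, ih⟩

/-- expansion of the second iterate on `[1/5,6/5]` -/
theorem expand_V {c x y : ℝ} (hc : c ∈ PR) (hx : x ∈ Icc (1 / 5 : ℝ) (6 / 5))
    (hy : y ∈ Icc (1 / 5 : ℝ) (6 / 5)) (hxy : x ≤ y) :
    7 / 5 * (y - x) ≤ it c 2 x - it c 2 y := by
  obtain ⟨h1, h2⟩ := hx
  obtain ⟨h3, h4⟩ := hy
  obtain ⟨h5, h6⟩ := hc
  have key : 7 / 5 ≤ (x + y) * (-2 * c - x ^ 2 - y ^ 2) := by
    have e1 : (x + y) * (19 / 5 - x ^ 2 - y ^ 2) ≤ (x + y) * (-2 * c - x ^ 2 - y ^ 2) := by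
      apply mul_le_mul_of_nonneg_left <;> linarith
    have e2 : 7 / 5 ≤ (x + y) * (19 / 5 - x ^ 2 - y ^ 2) := by
      nlinarith [mul_nonneg (sub_nonneg.2 h1) (sub_nonneg.2 h2),
        mul_nonneg (sub_nonneg.2 h3) (sub_nonneg.2 h4),
        mul_nonneg (sub_nonneg.2 h1) (sub_nonneg.2 h3),
        mul_nonneg (sub_nonneg.2 h2) (sub_nonneg.2 h4),
        mul_nonneg (mul_nonneg (sub_nonneg.2 h1) (sub_nonneg.2 h2)) (sub_nonneg.2 h4),
        mul_nonneg (mul_nonneg (sub_nonneg.2 h1) (sub_nonneg.2 h2)) (sub_nonneg.2 h3),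
        mul_nonneg (mul_nonneg (sub_nonneg.2 h3) (sub_nonneg.2 h4)) (sub_nonneg.2 h1),
        mul_nonneg (mul_nonneg (sub_nonneg.2 h3) (sub_nonneg.2 h4)) (sub_nonneg.2 h2)]
    linarith
  rw [it_two, it_two]
  have e3 : (x ^ 2 + c) ^ 2 + c - ((y ^ 2 + c) ^ 2 + c) =
      ((x + y) * (-2 * c - x ^ 2 - y ^ 2)) * (y - x) := by ring
  rw [e3]
  exact mul_le_mul_of_nonneg_right key (by linarith)

end Pool.Agent.W748.NM
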