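import Mathlib
import Pool.Agent.W748.NM.Branch

set_option autoImplicit false

open Filter Topology Set

namespace Pool.Agent.W748.NM

/-- expanding full branch with fixed point `p` -/
structure Br (c : ℝ) (n : ℕ) (x1 x2 κ p : ℝ) : Prop where
  l1 : -(3 / 2) < x1
  l2 : x1 < p
  l3 : p < x2
  l4 : x2 < 3 / 2
  hκ : 1 < κ
  hd : ∀ x ∈ Icc x1 x2, κ ≤ dv c n x
  hl : it c n x1 < -(3 / 2)
  hr : 3 / 2 < it c n x2
  hp : it c n p = p

variable {c x1 x2 κ p : ℝ} {n : ℕ}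

theorem Br.memp (h : Br c n x1 x2 κ p) : p ∈ Icc x1 x2 := ⟨h.l2.le, h.l3.le⟩

theorem Br.pAA (h : Br c n x1 x2 κ p) : p ∈ AA :=
  ⟨(h.l1.trans h.l2).le, (h.l3.trans h.l4).le⟩

theorem Br.IccAA (h : Br c n x1 x2 κ p) {x : ℝ} (hx : x ∈ Icc x1 x2) : x ∈ AA :=
  ⟨h.l1.le.trans hx.1, hx.2.trans h.l4.le⟩

theorem Br.npos (h : Br c n x1 x2 κ p) : 0 < n := by
  rcases Nat.eq_zero_or_pos n with h0 | h0
  · subst h0
    have := h.hd p h.memp
    rw [dv_zero] at this
    linarith [h.hκ]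
  · exact h0

theorem expand_of {x y : ℝ} (hd : ∀ x ∈ Icc x1 x2, κ ≤ dv c n x) (hx : x ∈ Icc x1 x2)
    (hy : y ∈ Icc x1 x2) (hxy : x ≤ y) : κ * (y - x) ≤ it c n y - it c n x := by
  rcases hxy.eq_or_lt with h | h
  · subst h; simp
  · obtain ⟨ξ, hξ, e⟩ := it_mvt c n h
    rw [e]
    exact mul_le_mul_of_nonneg_right
      (hd ξ ⟨hx.1.trans hξ.1.le, hξ.2.le.trans hy.2⟩) (by linarith)

theorem Br.expand (h : Br c n x1 x2 κ p) {x y : ℝ} (hx : x ∈ Icc x1 x2)
    (hy : y ∈ Icc x1 x2) (hxy : x ≤ y) : κ * (y - x) ≤ it c n y - it c n x :=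
  expand_of h.hd hx hy hxy

theorem Br.expand_abs (h : Br c n x1 x2 κ p) {x y : ℝ} (hx : x ∈ Icc x1 x2)
    (hy : y ∈ Icc x1 x2) : κ * |y - x| ≤ |it c n y - it c n x| := by
  rcases le_total x y with hxy | hxy
  · rw [abs_of_nonneg (by linarith : 0 ≤ y - x)]
    exact (h.expand hx hy hxy).trans (le_abs_self _)
  · rw [abs_sub_comm y x, abs_sub_comm (it c n y), abs_of_nonneg (by linarith : 0 ≤ x - y)]
    exact (h.expand hy hx hxy).trans (le_abs_self _)

/-- the inverse branch -/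
theorem Br.exists_inv (h : Br c n x1 x2 κ p) : ∃ G : ℝ → ℝ, (∀ y ∈ AA, G y ∈ Icc x1 x2) ∧
    (∀ y ∈ AA, it c n (G y) = y) ∧ (∀ y ∈ AA, ∀ y' ∈ AA, y < y' → G y < G y') ∧
    (∀ y ∈ AA, |G y - p| ≤ κ⁻¹ * |y - p|) ∧ G p = p ∧ ContinuousOn G AA := by
  have hx12 : x1 ≤ x2 := h.l2.le.trans h.l3.le
  have hex : ∀ y ∈ AA, ∃ x ∈ Icc x1 x2, it c n x = y := by
    intro y hy
    have := intermediate_value_Icc hx12 (it_cont_x c n).continuousOn
    have hy' : y ∈ Icc (it c n x1) (it c n x2) :=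
      ⟨by linarith [h.hl, hy.1], by linarith [h.hr, hy.2]⟩
    obtain ⟨x, hx, e⟩ := this hy'
    exact ⟨x, hx, e⟩
  choose! G hG1 hG2 using hex
  have hκ0 : 0 < κ := by linarith [h.hκ]
  have hinj : ∀ x ∈ Icc x1 x2, ∀ y ∈ Icc x1 x2, it c n x = it c n y → x = y := by
    intro x hx y hy e
    have := h.expand_abs hx hy
    rw [e, sub_self, abs_zero] at this
    have h1 : |y - x| ≤ 0 := by
      by_contra h2
      push Not at h2
      nlinarith
    have h2 := abs_nonpos_iff.1 h1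
    linarith
  have hlip : ∀ y ∈ AA, ∀ y' ∈ AA, |G y - G y'| ≤ κ⁻¹ * |y - y'| := by
    intro y hy y' hy'
    have := h.expand_abs (hG1 y' hy') (hG1 y hy)
    rw [hG2 y hy, hG2 y' hy'] at this
    rw [inv_mul_eq_div, le_div_iff₀ hκ0]
    linarith
  have hGp : G p = p := hinj _ (hG1 p h.pAA) _ h.memp (by rw [hG2 p h.pAA, h.hp])
  refine ⟨G, hG1, hG2, ?_, ?_, hGp, ?_⟩
  · intro y hy y' hy' hlt
    by_contra hle
    push Not at hle
    have := h.expand (hG1 y' hy') (hG1 y hy) hle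
    rw [hG2 y hy, hG2 y' hy'] at this
    nlinarith
  · intro y hy
    have := hlip y hy p h.pAA
    rwa [hGp] at this
  · have : LipschitzOnWith (Real.toNNReal κ⁻¹) G AA := by
      refine LipschitzOnWith.of_dist_le_mul fun y hy y' hy' => ?_
      rw [Real.coe_toNNReal _ (by positivity), Real.dist_eq, Real.dist_eq]
      exact hlip y hy y' hy'
    exact this.continuousOn

/-- properties of an inverse branch, bundled -/
structure IG (c : ℝ) (n : ℕ) (x1 x2 κ p : ℝ) (G : ℝ → ℝ) : Prop extends Br c n x1 x2 κ p where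
  g1 : ∀ y ∈ AA, G y ∈ Icc x1 x2
  g2 : ∀ y ∈ AA, it c n (G y) = y
  g3 : ∀ y ∈ AA, ∀ y' ∈ AA, y < y' → G y < G y'
  g4 : ∀ y ∈ AA, |G y - p| ≤ κ⁻¹ * |y - p|
  g5 : G p = p
  g6 : ContinuousOn G AA

variable {G : ℝ → ℝ}

theorem IG.mapsAA (h : IG c n x1 x2 κ p G) : ∀ y ∈ AA, G y ∈ AA := fun y hy =>
  h.toBr.IccAA (h.g1 y hy)

theorem IG.iter_mem (h : IG c n x1 x2 κ p G) (N : ℕ) : ∀ y ∈ AA, G^[N] y ∈ AA := by
  induction N with
  | zero => intro y hy; simpa using hy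
  | succ N ih => intro y hy; rw [Function.iterate_succ_apply']; exact h.mapsAA _ (ih y hy)

theorem IG.iter_mem' (h : IG c n x1 x2 κ p G) (N : ℕ) {y : ℝ} (hy : y ∈ AA) :
    G^[N + 1] y ∈ Icc x1 x2 := by
  rw [Function.iterate_succ_apply']; exact h.g1 _ (h.iter_mem N y hy)

theorem IG.iter_it (h : IG c n x1 x2 κ p G) (N : ℕ) {y : ℝ} (hy : y ∈ AA) :
    it c (n * N) (G^[N] y) = y := by
  induction N with
  | zero => simp
  | succ N ih =>
    rw [Nat.mul_succ, it_add, Function.iterate_succ_apply', h.g2 _ (h.iter_mem N y hy), ih]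

theorem IG.iter_lt (h : IG c n x1 x2 κ p G) (N : ℕ) : ∀ y ∈ AA, ∀ y' ∈ AA, y < y' →
    G^[N] y < G^[N] y' := by
  induction N with
  | zero => intro y _ y' _ hlt; simpa using hlt
  | succ N ih =>
    intro y hy y' hy' hlt
    rw [Function.iterate_succ_apply', Function.iterate_succ_apply']
    exact h.g3 _ (h.iter_mem N y hy) _ (h.iter_mem N y' hy') (ih y hy y' hy' hlt)

theorem IG.iter_p (h : IG c n x1 x2 κ p G) (N : ℕ) : G^[N] p = p := by
  induction N with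
  | zero => simp
  | succ N ih => rw [Function.iterate_succ_apply', ih, h.g5]

theorem IG.iter_cont (h : IG c n x1 x2 κ p G) (N : ℕ) : ContinuousOn (G^[N]) AA := by
  induction N with
  | zero => simpa using continuousOn_id
  | succ N ih =>
    rw [Function.iterate_succ']
    exact h.g6.comp ih (fun y hy => h.iter_mem N y hy)

theorem IG.iter_close (h : IG c n x1 x2 κ p G) (N : ℕ) {y : ℝ} (hy : y ∈ AA) :
    |G^[N] y - p| ≤ κ⁻¹ ^ N * |y - p| := by
  have hκ0 : 0 < κ := by linarith [h.hκ]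
  induction N with
  | zero => simp
  | succ N ih =>
    rw [Function.iterate_succ_apply']
    calc |G (G^[N] y) - p| ≤ κ⁻¹ * |G^[N] y - p| := h.g4 _ (h.iter_mem N y hy)
      _ ≤ κ⁻¹ * (κ⁻¹ ^ N * |y - p|) := by
        apply mul_le_mul_of_nonneg_left ih (by positivity)
      _ = κ⁻¹ ^ (N + 1) * |y - p| := by ring

theorem IG.abs_sub_le (h : IG c n x1 x2 κ p G) {y : ℝ} (hy : y ∈ AA) : |y - p| ≤ 3 := by
  obtain ⟨h1, h2⟩ := hy
  obtain ⟨h3, h4⟩ := h.toBr.pAA
  rw [abs_le]; constructor <;> linarith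

theorem IG.iter_close3 (h : IG c n x1 x2 κ p G) (N : ℕ) {y : ℝ} (hy : y ∈ AA) :
    |G^[N] y - p| ≤ κ⁻¹ ^ N * 3 := by
  have hκ0 : 0 < κ := by linarith [h.hκ]
  exact (h.iter_close N hy).trans
    (mul_le_mul_of_nonneg_left (h.abs_sub_le hy) (by positivity))

theorem IG.inv_lt_one (h : IG c n x1 x2 κ p G) : κ⁻¹ < 1 := inv_lt_one_of_one_lt₀ h.hκ

theorem IG.inv_pos (h : IG c n x1 x2 κ p G) : 0 < κ⁻¹ := by
  have := h.hκ
  positivity

theorem IG.exists_small (h : IG c n x1 x2 κ p G) {δ : ℝ} (hδ : 0 < δ) :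
    ∃ N0 : ℕ, ∀ N, N0 ≤ N → κ⁻¹ ^ N * 3 < δ := by
  have h1 : Tendsto (fun N : ℕ => κ⁻¹ ^ N * 3) atTop (𝓝 (0 * 3)) :=
    (tendsto_pow_atTop_nhds_zero_of_lt_one h.inv_pos.le h.inv_lt_one).mul_const 3
  rw [zero_mul] at h1
  obtain ⟨N0, hN0⟩ := eventually_atTop.1 (h1.eventually (gt_mem_nhds hδ))
  exact ⟨N0, hN0⟩

/-- uniform Cesaro estimate along backward orbits -/
theorem IG.cesaro (h : IG c n x1 x2 κ p G) {F : ℝ → ℝ} (hF : ContinuousOn F (Icc x1 x2))
    {η : ℝ} (hη : 0 < η) : ∃ C : ℝ, 0 ≤ C ∧ ∀ (N : ℕ), ∀ z ∈ AA,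
      |∑ t ∈ Finset.range N, F (G^[t + 1] z) - N * F p| ≤ η * N + C := by
  obtain ⟨M, hM⟩ := (isCompact_Icc.image_of_continuousOn
    ((hF.sub continuousOn_const).abs : ContinuousOn (fun x => |F x - F p|) (Icc x1 x2))).bddAbove
  have hM' : ∀ x ∈ Icc x1 x2, |F x - F p| ≤ M := fun x hx => hM ⟨x, hx, rfl⟩
  have hM0 : 0 ≤ M := (abs_nonneg _).trans (hM' p h.toBr.memp)
  have h1 := Metric.continuousWithinAt_iff.1 (hF p h.toBr.memp) η hη
  obtain ⟨δ, hδ, h2⟩ := h1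
  obtain ⟨t0, ht0⟩ := h.exists_small hδ
  refine ⟨t0 * M, by positivity, fun N z hz => ?_⟩
  have h3 : ∑ t ∈ Finset.range N, F (G^[t + 1] z) - N * F p =
      ∑ t ∈ Finset.range N, (F (G^[t + 1] z) - F p) := by
    rw [Finset.sum_sub_distrib]; simp
  rw [h3]
  have h4 : ∀ t : ℕ, |F (G^[t + 1] z) - F p| ≤ η + (if t < t0 then M else 0) := by
    intro t
    split_ifs with ht
    · exact (hM' _ (h.iter_mem' t hz)).trans (by linarith)
    · rw [add_zero]
      have h5 : |G^[t + 1] z - p| < δ :=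
        (h.iter_close3 (t + 1) hz).trans_lt (ht0 (t + 1) (by omega))
      have h6 := h2 (h.iter_mem' t hz) (by rw [Real.dist_eq]; exact h5)
      rw [Real.dist_eq] at h6
      exact h6.le
  calc |∑ t ∈ Finset.range N, (F (G^[t + 1] z) - F p)|
      ≤ ∑ t ∈ Finset.range N, |F (G^[t + 1] z) - F p| := Finset.abs_sum_le_sum_abs _ _
    _ ≤ ∑ t ∈ Finset.range N, (η + (if t < t0 then M else 0)) :=
        Finset.sum_le_sum fun t _ => h4 t
    _ = η * N + ∑ t ∈ Finset.range N, (if t < t0 then M else 0) := by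
        rw [Finset.sum_add_distrib]; simp; ring
    _ ≤ η * N + t0 * M := by
        have : ∑ t ∈ Finset.range N, (if t < t0 then M else 0) ≤ t0 * M := by
          rw [← Finset.sum_filter]
          rw [Finset.sum_const, nsmul_eq_mul]
          apply mul_le_mul_of_nonneg_right _ hM0
          have : ((Finset.range N).filter fun t => t < t0) ⊆ Finset.range t0 := by
            intro t ht
            rw [Finset.mem_filter] at ht
            exact Finset.mem_range.2 ht.2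
          have := Finset.card_le_card this
          rw [Finset.card_range] at this
          exact_mod_cast this
        linarith

theorem IG.S_iter (h : IG c n x1 x2 κ p G) (φ : ℝ → ℝ) (N : ℕ) {z : ℝ} (hz : z ∈ AA) :
    S c (n * N) φ (G^[N] z) = ∑ t ∈ Finset.range N, S c n φ (G^[t + 1] z) := by
  induction N with
  | zero => simp [S]
  | succ N ih =>
    rw [Nat.mul_succ, S_add, Finset.sum_range_succ, ← ih, Function.iterate_succ_apply',
      h.g2 _ (h.iter_mem N z hz)]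
    ring

theorem IG.dv_pos (h : IG c n x1 x2 κ p G) (N : ℕ) {z : ℝ} (hz : z ∈ AA) :
    0 < dv c (n * N) (G^[N] z) := by
  induction N with
  | zero => simp [dv_zero]
  | succ N ih =>
    rw [Nat.mul_succ, dv_add, Function.iterate_succ_apply', h.g2 _ (h.iter_mem N z hz)]
    have := h.hd _ (h.g1 _ (h.iter_mem N z hz))
    have := h.hκ
    apply mul_pos _ ih
    linarith

theorem IG.logdv_iter (h : IG c n x1 x2 κ p G) (N : ℕ) {z : ℝ} (hz : z ∈ AA) :
    Real.log (dv c (n * N) (G^[N] z)) =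
      ∑ t ∈ Finset.range N, Real.log (dv c n (G^[t + 1] z)) := by
  induction N with
  | zero => simp [dv_zero]
  | succ N ih =>
    rw [Nat.mul_succ, dv_add, Finset.sum_range_succ, ← ih]
    have h2 : it c n (G^[N + 1] z) = G^[N] z := by
      rw [Function.iterate_succ_apply', h.g2 _ (h.iter_mem N z hz)]
    have h1 : 0 < dv c n (G^[N + 1] z) := by
      have := h.hd _ (h.iter_mem' N hz)
      linarith [h.hκ]
    rw [h2, Real.log_mul h1.ne' (h.dv_pos N hz).ne']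
    ring

theorem IG.logdv_est (h : IG c n x1 x2 κ p G) {η : ℝ} (hη : 0 < η) : ∃ C : ℝ, 0 ≤ C ∧
    ∀ (N : ℕ), ∀ z ∈ AA,
      |Real.log (dv c (n * N) (G^[N] z)) - N * Real.log (dv c n p)| ≤ η * N + C := by
  have hF : ContinuousOn (fun x => Real.log (dv c n x)) (Icc x1 x2) := by
    refine ContinuousOn.log (dv_cont_x c n).continuousOn fun x hx => ?_
    have := h.hd x hx
    linarith [h.hκ]
  obtain ⟨C, hC, h1⟩ := h.cesaro hF hη
  refine ⟨C, hC, fun N z hz => ?_⟩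
  rw [h.logdv_iter N hz]
  exact h1 N z hz

theorem IG.S_est (h : IG c n x1 x2 κ p G) {φ : ℝ → ℝ} (hφ : Continuous φ) {η : ℝ} (hη : 0 < η) :
    ∃ C : ℝ, 0 ≤ C ∧ ∀ (N : ℕ), ∀ z ∈ AA,
      |S c (n * N) φ (G^[N] z) - N * S c n φ p| ≤ η * N + C := by
  obtain ⟨C, hC, h1⟩ := h.cesaro (S_cont hφ c n).continuousOn hη
  refine ⟨C, hC, fun N z hz => ?_⟩
  rw [h.S_iter φ N hz]
  exact h1 N z hz

/-- the distance to the fixed point -/
theorem IG.dist_est (h : IG c n x1 x2 κ p G) {η d : ℝ} (hη : 0 < η) (hd : 0 < d) :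
    ∃ C : ℝ, 0 ≤ C ∧ ∀ (N : ℕ), ∀ z ∈ AA, d ≤ |z - p| →
      |Real.log (|G^[N] z - p|) + N * Real.log (dv c n p)| ≤ η * N + C := by
  obtain ⟨C, hC, h1⟩ := h.logdv_est hη
  refine ⟨C + (|Real.log d| + |Real.log 3|), by positivity, fun N z hz hdz => ?_⟩
  -- find the intermediate point
  have key : ∃ ζ ∈ AA, |z - p| = dv c (n * N) (G^[N] ζ) * |G^[N] z - p| := by
    have hne : z ≠ p := by
      rintro rfl
      rw [sub_self, abs_zero] at hdz
      linarith
    have hpA := h.toBr.pAA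
    have hiv : ∀ a b : ℝ, a ∈ AA → b ∈ AA → a ≤ b → ∀ ξ ∈ Icc (G^[N] a) (G^[N] b),
        ∃ ζ ∈ AA, G^[N] ζ = ξ := by
      intro a b ha hb hab ξ hξ
      have hsub : Icc a b ⊆ AA := fun x hx => ⟨ha.1.trans hx.1, hx.2.trans hb.2⟩
      have := intermediate_value_Icc hab ((h.iter_cont N).mono hsub)
      obtain ⟨ζ, hζ, e⟩ := this hξ
      exact ⟨ζ, hsub hζ, e⟩
    rcases lt_or_gt_of_ne hne with hlt | hlt
    · have h2 := h.iter_lt N z hz p hpA hlt
      obtain ⟨ξ, hξ, e⟩ := it_mvt c (n * N) h2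
      obtain ⟨ζ, hζ, e2⟩ := hiv z p hz hpA hlt.le ξ ⟨hξ.1.le, hξ.2.le⟩
      refine ⟨ζ, hζ, ?_⟩
      rw [h.iter_it N hz, h.iter_it N hpA] at e
      rw [e2]
      rw [h.iter_p] at e h2
      rw [abs_sub_comm z p, abs_sub_comm _ p, abs_of_pos (by linarith), abs_of_pos (by linarith)]
      exact e
    · have h2 := h.iter_lt N p hpA z hz hlt
      obtain ⟨ξ, hξ, e⟩ := it_mvt c (n * N) h2
      obtain ⟨ζ, hζ, e2⟩ := hiv p z hpA hz hlt.le ξ ⟨hξ.1.le, hξ.2.le⟩
      refine ⟨ζ, hζ, ?_⟩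
      rw [h.iter_it N hz, h.iter_it N hpA] at e
      rw [e2]
      rw [h.iter_p] at e h2
      rw [abs_of_pos (by linarith), abs_of_pos (by linarith)]
      exact e
  obtain ⟨ζ, hζ, e⟩ := key
  have hpos := h.dv_pos N hζ
  have hzp : 0 < |z - p| := hd.trans_le hdz
  have hup : 0 < |G^[N] z - p| := by
    by_contra hcon
    have : |G^[N] z - p| = 0 := le_antisymm (not_lt.1 hcon) (abs_nonneg _)
    rw [this, mul_zero] at e
    linarith
  have hlog : Real.log |z - p| = Real.log (dv c (n * N) (G^[N] ζ)) + Real.log |G^[N] z - p| := by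
    rw [e, Real.log_mul hpos.ne' hup.ne']
  have h3 := h1 N ζ hζ
  have h4 : |Real.log (|z - p|)| ≤ |Real.log d| + |Real.log 3| := by
    have h5 : Real.log d ≤ Real.log |z - p| := Real.log_le_log hd hdz
    have h6 : Real.log |z - p| ≤ Real.log 3 := Real.log_le_log hzp (h.abs_sub_le hz)
    rw [abs_le]
    constructor
    · have := neg_abs_le (Real.log d)
      have := abs_nonneg (Real.log 3)
      linarith
    · have := le_abs_self (Real.log 3)
      have := abs_nonneg (Real.log d)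
      linarith
  have h7 : Real.log |G^[N] z - p| + N * Real.log (dv c n p) =
      Real.log |z - p| - (Real.log (dv c (n * N) (G^[N] ζ)) - N * Real.log (dv c n p)) := by
    rw [hlog]; ring
  rw [h7]
  calc _ ≤ |Real.log (|z - p|)| + |Real.log (dv c (n * N) (G^[N] ζ)) - N * Real.log (dv c n p)| :=
        abs_sub _ _
    _ ≤ _ := by linarith

end Pool.Agent.W748.NM
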