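import Mathlib
import Pool.Agent.W748.NM.Inv

set_option autoImplicit false

open Filter Topology Set

namespace Pool.Agent.W748.NM

variable {c x1 x2 κ p : ℝ} {n k : ℕ}

/-- the critical value is not precritical -/
theorem Br.dvk_ne (h : Br c n x1 x2 κ p) (hk : it c k c = p) : dv c k c ≠ 0 := by
  intro h0
  rw [dv, Finset.prod_eq_zero_iff] at h0
  obtain ⟨i, hi, h1⟩ := h0
  have h2 : it c i c = 0 := by linarith
  have h3 : it c (i + 1) c = c := by rw [it_succ, h2]; ring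
  have hper : Function.IsPeriodicPt (f c) (i + 1) c := h3
  have h4 : it c ((i + 1) * k) c = c := hper.mul_const k
  have h5 : it c (i * k + i) p = 0 := by
    rw [← hk, ← it_add, show i * k + i + k = i + (i + 1) * k by ring, it_add, h4, h2]
  have hperp : Function.IsPeriodicPt (f c) n p := h.hp
  have h6 : it c ((i * k + i) % n) p = 0 := by
    rw [← h5]
    exact hperp.iterate_mod_apply _
  have h7 : dv c n p = 0 := by
    rw [dv, Finset.prod_eq_zero_iff]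
    exact ⟨(i * k + i) % n, Finset.mem_range.2 (Nat.mod_lt _ h.npos), by rw [h6]; ring⟩
  have h8 := h.hd p h.memp
  rw [h7] at h8
  linarith [h.hκ]

/-- local structure near the critical value -/
theorem exists_local (hne : dv c k c ≠ 0) : ∃ s r0 mk Mk : ℝ, (s = 1 ∨ s = -1) ∧ 0 < r0 ∧
    r0 < 1 / 5 ∧ 0 < mk ∧ ∀ t ∈ Icc c (c + r0 ^ 2), mk ≤ s * dv c k t ∧ s * dv c k t ≤ Mk := by
  have hs : ∃ s : ℝ, (s = 1 ∨ s = -1) ∧ 0 < s * dv c k c := by
    rcases lt_or_gt_of_ne hne with h | h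
    · exact ⟨-1, Or.inr rfl, by linarith⟩
    · exact ⟨1, Or.inl rfl, by linarith⟩
  obtain ⟨s, hs, hpos⟩ := hs
  have hcont : ContinuousAt (fun t => s * dv c k t) c :=
    (continuous_const.mul (dv_cont_x c k)).continuousAt
  have h1 := Metric.continuousAt_iff.1 hcont (s * dv c k c / 2) (by linarith)
  obtain ⟨δ, hδ, h2⟩ := h1
  refine ⟨s, min (1 / 10) (δ / 2), s * dv c k c / 2, 3 * (s * dv c k c) / 2, hs, ?_, ?_, by linarith,
    ?_⟩
  · exact lt_min (by norm_num) (by linarith)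
  · exact (min_le_left _ _).trans_lt (by norm_num)
  · intro t ht
    have h3 : 0 < min (1 / 10) (δ / 2) := lt_min (by norm_num) (by linarith)
    have h4 : min (1 / 10) (δ / 2) ≤ 1 / 10 := min_le_left _ _
    have h5 : min (1 / 10) (δ / 2) ≤ δ / 2 := min_le_right _ _
    have h6 : dist t c < δ := by
      rw [Real.dist_eq, abs_lt]
      obtain ⟨h7, h8⟩ := ht
      constructor
      · linarith
      · nlinarith
    have h7 := h2 h6
    rw [Real.dist_eq, abs_lt] at h7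
    constructor <;> linarith [h7.1, h7.2]

/-- the setup for one step of the construction -/
structure SU (c : ℝ) (n : ℕ) (x1 x2 κ p : ℝ) (G : ℝ → ℝ) (k : ℕ) (s r0 mk Mk : ℝ) (m : ℕ)
    (Φ : ℝ → ℝ) (v : List Bool) (i0 : ℕ) : Prop extends IG c n x1 x2 κ p G where
  hc : c ∈ PR
  hk : it c k c = p
  hs : s = 1 ∨ s = -1
  hr0 : 0 < r0
  hr1 : r0 < 1 / 5
  hm : 0 < mk
  hmM : ∀ t ∈ Icc c (c + r0 ^ 2), mk ≤ s * dv c k t ∧ s * dv c k t ≤ Mk
  Φ1 : ContinuousOn Φ AB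
  Φ2 : ∀ y ∈ AB, Φ y ∈ AA
  Φ3 : ∀ y ∈ AB, 0 < s * (Φ y - p)
  Φ4 : ∀ y ∈ AB, it c m (Φ y) = y
  Φ5 : ∀ y ∈ AB, dv c m (Φ y) ≠ 0
  Φ6 : ∀ y ∈ AB, 0 < psi c v (it c i0 (Φ y))

variable {G : ℝ → ℝ} {s r0 mk Mk : ℝ} {m : ℕ} {Φ : ℝ → ℝ} {v : List Bool} {i0 : ℕ}

/-- the set of starting points near the critical point -/
def Z (c : ℝ) (G : ℝ → ℝ) (k : ℕ) (r0 : ℝ) (Φ : ℝ → ℝ) (N : ℕ) : Set ℝ :=
  {x | 0 < x ∧ x ≤ r0 ∧ ∃ y ∈ AB, it c (k + 1) x = G^[N] (Φ y)}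

/-- the return time -/
def rt (n k m N : ℕ) : ℕ := m + (n * N + (k + 1))

theorem SU.s_sq (h : SU c n x1 x2 κ p G k s r0 mk Mk m Φ v i0) : s * s = 1 := by
  rcases h.hs with h | h <;> rw [h] <;> norm_num

theorem SU.abs_s (h : SU c n x1 x2 κ p G k s r0 mk Mk m Φ v i0) (x : ℝ) (hx : 0 < s * x) :
    |x| = s * x := by
  rcases h.hs with h | h
  · rw [h] at hx ⊢; rw [abs_of_pos (by linarith)]; ring
  · rw [h] at hx ⊢; rw [abs_of_neg (by linarith)]; ring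

theorem SU.abs_s' (h : SU c n x1 x2 κ p G k s r0 mk Mk m Φ v i0) (x : ℝ) :
    |x| = |s * x| := by
  rcases h.hs with h | h
  · rw [h]; ring_nf
  · rw [h]; rw [neg_one_mul, abs_neg]

/-- increments of `it c k` near the critical value -/
theorem SU.inc (h : SU c n x1 x2 κ p G k s r0 mk Mk m Φ v i0) {t t' : ℝ}
    (ht : t ∈ Icc c (c + r0 ^ 2)) (ht' : t' ∈ Icc c (c + r0 ^ 2)) (htt : t ≤ t') :
    mk * (t' - t) ≤ s * (it c k t' - it c k t) ∧ s * (it c k t' - it c k t) ≤ Mk * (t' - t) := by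
  rcases htt.eq_or_lt with e | hlt
  · subst e; simp
  · obtain ⟨ξ, hξ, e⟩ := it_mvt c k hlt
    have hξ' : ξ ∈ Icc c (c + r0 ^ 2) := ⟨ht.1.trans hξ.1.le, hξ.2.le.trans ht'.2⟩
    obtain ⟨h1, h2⟩ := h.hmM ξ hξ'
    rw [e]
    have h3 : s * (dv c k ξ * (t' - t)) = (s * dv c k ξ) * (t' - t) := by ring
    rw [h3]
    exact ⟨mul_le_mul_of_nonneg_right h1 (by linarith), mul_le_mul_of_nonneg_right h2 (by linarith)⟩

theorem sq_mem (hr0 : 0 ≤ r0) {x : ℝ} (hx : 0 ≤ x) (hx' : x ≤ r0) :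
    x ^ 2 + c ∈ Icc c (c + r0 ^ 2) := by
  constructor
  · nlinarith [sq_nonneg x]
  · nlinarith

theorem SU.X_est (h : SU c n x1 x2 κ p G k s r0 mk Mk m Φ v i0) {x : ℝ} (hx : 0 ≤ x)
    (hx' : x ≤ r0) : mk * x ^ 2 ≤ s * (it c (k + 1) x - p) ∧
      s * (it c (k + 1) x - p) ≤ Mk * x ^ 2 := by
  have h1 := h.inc (t := c) (t' := x ^ 2 + c) ⟨le_rfl, by nlinarith [sq_nonneg r0]⟩
    (sq_mem h.hr0.le hx hx') (by nlinarith [sq_nonneg x])
  rw [h.hk, ← it_succ'] at h1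
  have h2 : x ^ 2 + c - c = x ^ 2 := by ring
  rw [h2] at h1
  exact h1

theorem SU.X_mono (h : SU c n x1 x2 κ p G k s r0 mk Mk m Φ v i0) {x x' : ℝ} (hx : 0 ≤ x)
    (hxx : x ≤ x') (hx' : x' ≤ r0) : 0 ≤ s * (it c (k + 1) x' - it c (k + 1) x) := by
  have h1 := (h.inc (sq_mem h.hr0.le hx (hxx.trans hx')) (sq_mem h.hr0.le (hx.trans hxx) hx')
    (by nlinarith)).1
  rw [← it_succ', ← it_succ'] at h1
  refine le_trans ?_ h1
  have := h.hm
  apply mul_nonneg this.le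
  nlinarith

theorem SU.u_cont (h : SU c n x1 x2 κ p G k s r0 mk Mk m Φ v i0) (N : ℕ) :
    ContinuousOn (fun y => G^[N] (Φ y)) AB :=
  (h.toIG.iter_cont N).comp h.Φ1 h.Φ2

theorem SU.ordConnected (h : SU c n x1 x2 κ p G k s r0 mk Mk m Φ v i0) (N : ℕ) :
    (Z c G k r0 Φ N).OrdConnected := by
  constructor
  intro x hx x' hx' w hw
  obtain ⟨a1, a2, y, hy, a3⟩ := hx
  obtain ⟨b1, b2, y', hy', b3⟩ := hx'
  refine ⟨a1.trans_le hw.1, hw.2.trans b2, ?_⟩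
  have m1 := h.X_mono a1.le hw.1 (hw.2.trans b2)
  have m2 := h.X_mono (a1.trans_le hw.1).le hw.2 b2
  have hmem : it c (k + 1) w ∈ uIcc (it c (k + 1) x) (it c (k + 1) x') := by
    rw [mem_uIcc]
    rcases h.hs with hs | hs
    · rw [hs] at m1 m2
      left; constructor <;> linarith
    · rw [hs] at m1 m2
      right; constructor <;> linarith
  rw [a3, b3] at hmem
  have hsub : uIcc y y' ⊆ AB := by
    intro z hz
    rw [AB, mem_Icc] at *
    rw [mem_uIcc] at hz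
    rcases hz with hz | hz <;> constructor <;> linarith [hz.1, hz.2, hy.1, hy.2, hy'.1, hy'.2]
  have := intermediate_value_uIcc ((h.u_cont N).mono hsub)
  obtain ⟨z, hz, e⟩ := this hmem
  exact ⟨z, hsub hz, e.symm⟩

theorem SU.u_pos (h : SU c n x1 x2 κ p G k s r0 mk Mk m Φ v i0) (N : ℕ) {y : ℝ} (hy : y ∈ AB) :
    0 < s * (G^[N] (Φ y) - p) := by
  have h3 := h.Φ3 y hy
  rcases h.hs with hs | hs
  · rw [hs] at h3 ⊢
    have := h.toIG.iter_lt N p h.toBr.pAA (Φ y) (h.Φ2 y hy) (by linarith)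
    rw [h.toIG.iter_p] at this
    linarith
  · rw [hs] at h3 ⊢
    have := h.toIG.iter_lt N (Φ y) (h.Φ2 y hy) p h.toBr.pAA (by linarith)
    rw [h.toIG.iter_p] at this
    linarith

/-- existence of preimages -/
theorem SU.exists_pre (h : SU c n x1 x2 κ p G k s r0 mk Mk m Φ v i0) {N : ℕ}
    (hN : κ⁻¹ ^ N * 3 < mk * r0 ^ 2) {y : ℝ} (hy : y ∈ AB) :
    ∃ x ∈ Z c G k r0 Φ N, it c (k + 1) x = G^[N] (Φ y) := by
  have hX0 : it c (k + 1) 0 = p := by rw [it_succ']; simpa using h.hk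
  have h1 := (h.X_est h.hr0.le le_rfl).1
  have h2 : |G^[N] (Φ y) - p| < mk * r0 ^ 2 := (h.toIG.iter_close3 N (h.Φ2 y hy)).trans_lt hN
  have h3 := h.u_pos N hy
  rw [h.abs_s _ h3] at h2
  have hmem : G^[N] (Φ y) ∈ uIcc (it c (k + 1) 0) (it c (k + 1) r0) := by
    rw [hX0, mem_uIcc]
    rcases h.hs with hs | hs
    · rw [hs] at h1 h2 h3
      left; constructor <;> linarith
    · rw [hs] at h1 h2 h3
      right; constructor <;> linarith
  obtain ⟨x, hx, e⟩ := intermediate_value_uIcc (it_cont_x c (k + 1)).continuousOn hmem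
  rw [uIcc_of_le h.hr0.le] at hx
  have hx0 : 0 < x := by
    rcases hx.1.eq_or_lt with h0 | h0
    · rw [← h0, hX0] at e
      rw [← e, sub_self, mul_zero] at h3
      exact absurd h3 (lt_irrefl _)
    · exact h0
  exact ⟨x, ⟨hx0, hx.2, y, hy, e⟩, e⟩

theorem SU.it_Z (h : SU c n x1 x2 κ p G k s r0 mk Mk m Φ v i0) {N : ℕ} {x y : ℝ}
    (hy : y ∈ AB) (e : it c (k + 1) x = G^[N] (Φ y)) :
    it c (n * N + (k + 1)) x = Φ y ∧ it c (rt n k m N) x = y := by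
  have h1 : it c (n * N + (k + 1)) x = Φ y := by
    rw [it_add, e, h.toIG.iter_it N (h.Φ2 y hy)]
  refine ⟨h1, ?_⟩
  rw [rt, it_add, h1, h.Φ4 y hy]

theorem SU.dv_Z (h : SU c n x1 x2 κ p G k s r0 mk Mk m Φ v i0) {N : ℕ} {x y : ℝ}
    (hy : y ∈ AB) (e : it c (k + 1) x = G^[N] (Φ y)) :
    dv c (rt n k m N) x = 2 * x * dv c k (x ^ 2 + c) * dv c (n * N) (G^[N] (Φ y)) *
      dv c m (Φ y) := by
  rw [rt, dv_add, (h.it_Z hy e).1, dv_add, e, dv_succ']

theorem SU.mkMk (h : SU c n x1 x2 κ p G k s r0 mk Mk m Φ v i0) : mk ≤ Mk := by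
  have := h.hmM c ⟨le_rfl, by nlinarith [sq_nonneg r0]⟩
  linarith [this.1, this.2]

theorem abs_log_le_of {a b x : ℝ} (ha : 0 < a) (h1 : a ≤ x) (h2 : x ≤ b) :
    |Real.log x| ≤ |Real.log a| + |Real.log b| := by
  have h5 : Real.log a ≤ Real.log x := Real.log_le_log ha h1
  have h6 : Real.log x ≤ Real.log b := Real.log_le_log (ha.trans_le h1) h2
  rw [abs_le]
  constructor
  · have := neg_abs_le (Real.log a)
    have := abs_nonneg (Real.log b)
    linarith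
  · have := le_abs_self (Real.log b)
    have := abs_nonneg (Real.log a)
    linarith

theorem SU.logdv_Z (h : SU c n x1 x2 κ p G k s r0 mk Mk m Φ v i0) {η : ℝ} (hη : 0 < η) :
    ∃ C : ℝ, 0 ≤ C ∧ ∀ (N : ℕ), ∀ x ∈ Z c G k r0 Φ N,
      dv c (rt n k m N) x ≠ 0 ∧
      |Real.log |dv c (rt n k m N) x| - N * (Real.log (dv c n p) / 2)| ≤ η * N + C := by
  obtain ⟨C1, hC1, h1⟩ := h.toIG.logdv_est (half_pos hη)
  -- bound of log |dv c m (Φ y)|
  have hcp : IsCompact AB := isCompact_Icc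
  have hcont1 : ContinuousOn (fun y => |Real.log (|dv c m (Φ y)|)|) AB := by
    refine ContinuousOn.abs (ContinuousOn.log ?_ fun y hy => ?_)
    · exact ((dv_cont_x c m).comp_continuousOn h.Φ1).abs
    · exact abs_ne_zero.2 (h.Φ5 y hy)
  obtain ⟨C2, hC2⟩ := (hcp.image_of_continuousOn hcont1).bddAbove
  have hC2' : ∀ y ∈ AB, |Real.log (|dv c m (Φ y)|)| ≤ C2 := fun y hy => hC2 ⟨y, hy, rfl⟩
  have h0AB : (0 : ℝ) ∈ AB := ⟨by norm_num, by norm_num⟩
  have hC20 : 0 ≤ C2 := (abs_nonneg _).trans (hC2' 0 h0AB)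
  -- lower bound of |Φ y - p|
  have hcont2 : ContinuousOn (fun y => |Φ y - p|) AB := (h.Φ1.sub continuousOn_const).abs
  obtain ⟨y0, hy0, hmin⟩ := hcp.exists_isMinOn ⟨0, h0AB⟩ hcont2
  have hd : 0 < |Φ y0 - p| := by
    rw [h.abs_s _ (h.Φ3 y0 hy0)]; exact h.Φ3 y0 hy0
  obtain ⟨C3, hC3, h3⟩ := h.toIG.dist_est (half_pos hη) hd
  set A := |Real.log mk| + |Real.log Mk| with hA
  have hA0 : 0 ≤ A := by positivity
  refine ⟨C1 + C2 + C3 + 2 * A + |Real.log 2|, by positivity, fun N x hx => ?_⟩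
  obtain ⟨a1, a2, y, hy, e⟩ := hx
  have hdist : |Φ y0 - p| ≤ |Φ y - p| := hmin hy
  have e1 := h1 N (Φ y) (h.Φ2 y hy)
  have e2 := hC2' y hy
  have e3 := h3 N (Φ y) (h.Φ2 y hy) hdist
  have hmem := sq_mem (c := c) h.hr0.le a1.le a2
  obtain ⟨f1, f2⟩ := h.hmM _ hmem
  have hm := h.hm
  have hM : 0 < Mk := hm.trans_le h.mkMk
  have e4 : |Real.log (|dv c k (x ^ 2 + c)|)| ≤ A := by
    rw [h.abs_s _ (hm.trans_le f1)]
    exact abs_log_le_of hm f1 f2
  -- log x^2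
  have hX := h.X_est a1.le a2
  rw [e] at hX
  have hup := h.u_pos N hy
  have habs := h.abs_s _ hup
  rw [← habs] at hX hup
  have hx2 : 0 < x ^ 2 := by positivity
  have e5 : |Real.log (x ^ 2) - Real.log (|G^[N] (Φ y) - p|)| ≤ A := by
    have g1 : Real.log mk + Real.log (x ^ 2) ≤ Real.log (|G^[N] (Φ y) - p|) := by
      rw [← Real.log_mul hm.ne' hx2.ne']
      exact Real.log_le_log (by positivity) hX.1
    have g2 : Real.log (|G^[N] (Φ y) - p|) ≤ Real.log Mk + Real.log (x ^ 2) := by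
      rw [← Real.log_mul hM.ne' hx2.ne']
      exact Real.log_le_log hup hX.2
    have g3 := neg_abs_le (Real.log mk)
    have g4 := le_abs_self (Real.log Mk)
    have g5 := abs_nonneg (Real.log mk)
    have g6 := abs_nonneg (Real.log Mk)
    have g7 := le_abs_self (Real.log mk)
    have g8 := neg_abs_le (Real.log Mk)
    rw [abs_le]
    constructor <;> linarith
  have hdvN := h.toIG.dv_pos N (h.Φ2 y hy)
  have hne1 : dv c k (x ^ 2 + c) ≠ 0 := by
    intro h0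
    rw [h0, mul_zero] at f1
    linarith
  have hne2 := h.Φ5 y hy
  have hprod := h.dv_Z hy e
  refine ⟨by rw [hprod]; positivity, ?_⟩
  have hlog : Real.log |dv c (rt n k m N) x| = Real.log 2 + Real.log (x ^ 2) / 2 +
      Real.log (|dv c k (x ^ 2 + c)|) + Real.log (dv c (n * N) (G^[N] (Φ y))) +
      Real.log (|dv c m (Φ y)|) := by
    rw [hprod, abs_mul, abs_mul, abs_mul, abs_of_pos (by positivity : 0 < 2 * x),
      abs_of_pos hdvN, Real.log_mul (by positivity) (by positivity),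
      Real.log_mul (by positivity) (by positivity), Real.log_mul (by positivity) (by positivity),
      Real.log_mul (by positivity) (by positivity), Real.log_pow]
    push_cast
    ring
  rw [hlog]
  set L := Real.log (dv c n p)
  set a := Real.log (x ^ 2)
  set b := Real.log (|G^[N] (Φ y) - p|)
  set d := Real.log (|dv c k (x ^ 2 + c)|)
  set e' := Real.log (dv c (n * N) (G^[N] (Φ y)))
  set g := Real.log (|dv c m (Φ y)|)
  have i1 := abs_le.1 e1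
  have i2 := abs_le.1 e2
  have i3 := abs_le.1 e3
  have i4 := abs_le.1 e4
  have i5 := abs_le.1 e5
  have i6 := neg_abs_le (Real.log 2)
  have i7 := le_abs_self (Real.log 2)
  have i8 : (0 : ℝ) ≤ N := Nat.cast_nonneg N
  have i9 : 0 ≤ η * N := by positivity
  rw [abs_le]
  constructor
  · linarith [i1.1, i2.1, i3.1, i4.1, i5.1]
  · linarith [i1.2, i2.2, i3.2, i4.2, i5.2]

theorem SU.S_Z (h : SU c n x1 x2 κ p G k s r0 mk Mk m Φ v i0) {φ : ℝ → ℝ} (hφ : Continuous φ)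
    {η : ℝ} (hη : 0 < η) :
    ∃ C : ℝ, 0 ≤ C ∧ ∀ (N : ℕ), ∀ x ∈ Z c G k r0 Φ N,
      |S c (rt n k m N) φ x - N * S c n φ p| ≤ η * N + C := by
  obtain ⟨C1, hC1, h1⟩ := h.toIG.S_est hφ hη
  obtain ⟨C2, hC2⟩ := (isCompact_Icc.image_of_continuousOn
    (s := Icc 0 r0) (S_cont hφ c (k + 1)).abs.continuousOn).bddAbove
  obtain ⟨C3, hC3⟩ := (isCompact_Icc.image_of_continuousOn
    (s := Icc (-(3 / 2) : ℝ) (3 / 2)) (S_cont hφ c m).abs.continuousOn).bddAbove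
  have hC2' : ∀ x ∈ Icc 0 r0, |S c (k + 1) φ x| ≤ C2 := fun x hx => hC2 ⟨x, hx, rfl⟩
  have hC3' : ∀ x ∈ AA, |S c m φ x| ≤ C3 := fun x hx => hC3 ⟨x, hx, rfl⟩
  have h20 : 0 ≤ C2 := (abs_nonneg _).trans (hC2' 0 ⟨le_rfl, h.hr0.le⟩)
  have h30 : 0 ≤ C3 := (abs_nonneg _).trans (hC3' p h.toBr.pAA)
  refine ⟨C1 + C2 + C3, by positivity, fun N x hx => ?_⟩
  obtain ⟨a1, a2, y, hy, e⟩ := hx
  rw [rt, S_add, (h.it_Z hy e).1, S_add, e]
  have e1 := abs_le.1 (h1 N (Φ y) (h.Φ2 y hy))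
  have e2 := abs_le.1 (hC2' x ⟨a1.le, a2⟩)
  have e3 := abs_le.1 (hC3' _ (h.Φ2 y hy))
  rw [abs_le]
  constructor
  · linarith [e1.1, e2.1, e3.1]
  · linarith [e1.2, e2.2, e3.2]

end Pool.Agent.W748.NM
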