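import Mathlib
import Pool.Agent.W748.NM.Phase

set_option autoImplicit false

open Filter Topology Set

namespace Pool.Agent.W748.NM

variable {c x1 x2 κ p : ℝ} {n k : ℕ}
variable {G : ℝ → ℝ} {s r0 mk Mk : ℝ} {m : ℕ} {Φ : ℝ → ℝ} {v : List Bool} {i0 : ℕ}

theorem SU.Lpos (h : SU c n x1 x2 κ p G k s r0 mk Mk m Φ v i0) : 0 < Real.log (dv c n p) := by
  have := h.hd p h.toBr.memp
  exact Real.log_pos (h.hκ.trans_le this)

theorem SU.big (h : SU c n x1 x2 κ p G k s r0 mk Mk m Φ v i0) :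
    ∃ N0 : ℕ, ∀ N, N0 ≤ N → κ⁻¹ ^ N * 3 < mk * r0 ^ 2 ∧
      ∀ x ∈ Z c G k r0 Φ N, 2 ≤ |dv c (rt n k m N) x| := by
  have hL := h.Lpos
  set L := Real.log (dv c n p) with hLdef
  obtain ⟨C, hC, h1⟩ := h.logdv_Z (η := L / 4) (by linarith)
  obtain ⟨N1, hN1⟩ := h.toIG.exists_small (δ := mk * r0 ^ 2)
    (by have := h.hm; have := h.hr0; positivity)
  obtain ⟨N2, hN2⟩ := exists_nat_ge ((C + Real.log 2) / (L / 4))
  refine ⟨max N1 N2, fun N hN => ⟨hN1 N ((le_max_left _ _).trans hN), fun x hx => ?_⟩⟩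
  obtain ⟨hne, h2⟩ := h1 N x hx
  have h3 := (abs_le.1 h2).1
  have h4 : (C + Real.log 2) / (L / 4) ≤ N := hN2.trans (by exact_mod_cast (le_max_right _ _).trans hN)
  rw [div_le_iff₀ (by linarith)] at h4
  have h5 : Real.log 2 ≤ Real.log |dv c (rt n k m N) x| := by
    rw [← hLdef] at h3
    nlinarith
  exact (Real.log_le_log_iff (by norm_num) (abs_pos.2 hne)).1 h5

theorem same_sign {g : ℝ → ℝ} (hg : Continuous g) {T : Set ℝ} (hT : T.OrdConnected)
    (hne : ∀ x ∈ T, g x ≠ 0) {x y : ℝ} (hx : x ∈ T) (hy : y ∈ T) : 0 < g x * g y := by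
  by_contra hcon
  push Not at hcon
  have h1 : g x * g y < 0 := lt_of_le_of_ne hcon (mul_ne_zero (hne x hx) (hne y hy))
  have hmem : (0 : ℝ) ∈ uIcc (g x) (g y) := by
    rw [mem_uIcc]
    rcases mul_neg_iff.1 h1 with ⟨a, b⟩ | ⟨a, b⟩
    · right; exact ⟨b.le, a.le⟩
    · left; exact ⟨a.le, b.le⟩
  obtain ⟨w, hw, e⟩ := intermediate_value_uIcc hg.continuousOn hmem
  exact hne w (hT.uIcc_subset hx hy hw) e

/-- the new expanding branch -/
theorem SU.newBranch (h : SU c n x1 x2 κ p G k s r0 mk Mk m Φ v i0) :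
    ∃ N0 : ℕ, ∀ N, N0 ≤ N → ∃ w1 w2 p1 : ℝ,
      Br c (rt n k m N + rt n k m N) w1 w2 2 p1 ∧ 0 < w1 ∧ w2 ≤ r0 ∧
      it c (rt n k m N + rt n k m N) w1 ≤ -(31 / 20) ∧
      31 / 20 ≤ it c (rt n k m N + rt n k m N) w2 ∧
      p1 ∈ Z c G k r0 Φ N ∧ it c (rt n k m N) p1 ∈ Z c G k r0 Φ N ∧
      ∃ i, 0 < psi c v (it c i p1) := by
  obtain ⟨N0, hN0⟩ := h.big
  refine ⟨N0, fun N hN => ?_⟩
  obtain ⟨hsm, hbig⟩ := hN0 N hN
  set R := rt n k m N with hR
  set T := Z c G k r0 Φ N with hT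
  have hoc : T.OrdConnected := h.ordConnected N
  have hpre : ∀ y ∈ AB, ∃ x ∈ T, it c R x = y := by
    intro y hy
    obtain ⟨x, hx, e⟩ := h.exists_pre hsm hy
    exact ⟨x, hx, (h.it_Z hy e).2⟩
  have hTsub : ∀ x ∈ T, 0 < x ∧ x ≤ r0 := fun x hx => ⟨hx.1, hx.2.1⟩
  have hr1 := h.hr1
  have hTAB : ∀ x ∈ T, x ∈ AB := fun x hx =>
    ⟨by linarith [(hTsub x hx).1], by linarith [(hTsub x hx).2]⟩
  have hne : ∀ x ∈ T, dv c R x ≠ 0 := by
    intro x hx h0
    have := hbig x hx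
    rw [h0, abs_zero] at this
    linarith
  have hsign : ∀ x ∈ T, ∀ y ∈ T, 0 < dv c R x * dv c R y := fun x hx y hy =>
    same_sign (dv_cont_x c R) hoc hne hx hy
  obtain ⟨zm, hzm, ezm⟩ := hpre (-(31 / 20)) ⟨le_rfl, by norm_num⟩
  obtain ⟨zp, hzp, ezp⟩ := hpre (31 / 20) ⟨by norm_num, le_rfl⟩
  obtain ⟨wm, hwm, ewm⟩ := hpre zm (hTAB _ hzm)
  obtain ⟨wp, hwp, ewp⟩ := hpre zp (hTAB _ hzp)
  set d := dv c R zm with hd
  have hdne : d ≠ 0 := hne zm hzm
  have mono : ∀ x ∈ T, ∀ x' ∈ T, x < x' → 0 < d * (it c R x' - it c R x) := by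
    intro x hx x' hx' hlt
    obtain ⟨ξ, hξ, e⟩ := it_mvt c R hlt
    have hξT : ξ ∈ T := hoc.out hx hx' ⟨hξ.1.le, hξ.2.le⟩
    have := hsign zm hzm ξ hξT
    rw [e]
    have h3 : d * (dv c R ξ * (x' - x)) = (d * dv c R ξ) * (x' - x) := by ring
    rw [h3]
    exact mul_pos this (by linarith)
  have hz_ne : zm ≠ zp := by
    intro e; rw [e, ezp] at ezm; norm_num at ezm
  have hw_ne : wm ≠ wp := by
    intro e; rw [e, ewp] at ewm; exact hz_ne ewm.symm
  have hzlt : 0 < d * (zp - zm) := by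
    rcases lt_or_gt_of_ne hz_ne with hlt | hlt
    · have := mono zm hzm zp hzp hlt
      rw [ezm, ezp] at this
      have hd0 : 0 < d := by linarith
      exact mul_pos hd0 (by linarith)
    · have := mono zp hzp zm hzm hlt
      rw [ezm, ezp] at this
      have hd0 : d < 0 := by linarith
      exact mul_pos_of_neg_of_neg hd0 (by linarith)
  have hwlt : wm < wp := by
    rcases lt_or_gt_of_ne hw_ne with hlt | hlt
    · exact hlt
    · have := mono wp hwp wm hwm hlt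
      rw [ewm, ewp] at this
      have : d * (zm - zp) = -(d * (zp - zm)) := by ring
      linarith
  have hIccT : ∀ x ∈ Icc wm wp, x ∈ T := fun x hx => hoc.out hwm hwp hx
  have hIccT2 : ∀ x ∈ Icc wm wp, it c R x ∈ T := by
    intro x hx
    apply hoc.uIcc_subset hzm hzp
    rcases hx.1.eq_or_lt with e | h1
    · rw [← e, ewm]; exact left_mem_uIcc
    rcases hx.2.eq_or_lt with e | h2
    · rw [e, ewp]; exact right_mem_uIcc
    have m1 := mono wm hwm x (hIccT x hx) h1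
    have m2 := mono x (hIccT x hx) wp hwp h2
    rw [ewm] at m1
    rw [ewp] at m2
    rw [mem_uIcc]
    rcases lt_or_gt_of_ne hdne with hd0 | hd0
    · right
      constructor
      · by_contra hc; push Not at hc; nlinarith
      · by_contra hc; push Not at hc; nlinarith
    · left
      constructor
      · by_contra hc; push Not at hc; nlinarith
      · by_contra hc; push Not at hc; nlinarith
  have hdv : ∀ x ∈ Icc wm wp, 4 ≤ dv c (R + R) x := by
    intro x hx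
    rw [dv_add]
    have a1 := hbig x (hIccT x hx)
    have a2 := hbig _ (hIccT2 x hx)
    have a3 := hsign x (hIccT x hx) _ (hIccT2 x hx)
    rw [← abs_of_pos a3, abs_mul]
    nlinarith
  have e1 : it c (R + R) wm = -(31 / 20) := by rw [it_add, ewm, ezm]
  have e2 : it c (R + R) wp = 31 / 20 := by rw [it_add, ewp, ezp]
  have hwmpos := (hTsub wm hwm).1
  have hwple := (hTsub wp hwp).2
  -- fixed point
  have hcont : ContinuousOn (fun x => it c (R + R) x - x) (Icc wm wp) :=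
    ((it_cont_x c (R + R)).sub continuous_id).continuousOn
  obtain ⟨p1, hp1, e3⟩ := intermediate_value_Icc hwlt.le hcont
    (show (0 : ℝ) ∈ Icc (it c (R + R) wm - wm) (it c (R + R) wp - wp) by
      rw [e1, e2]; constructor <;> linarith)
  have e4 : it c (R + R) p1 = p1 := by
    have : it c (R + R) p1 - p1 = 0 := e3
    linarith
  have hlt1 : wm < p1 := by
    rcases hp1.1.eq_or_lt with e | h1
    · rw [← e, e1] at e4; linarith
    · exact h1
  have hlt2 : p1 < wp := by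
    rcases hp1.2.eq_or_lt with e | h1
    · rw [e, e2] at e4; linarith
    · exact h1
  refine ⟨wm, wp, p1, ⟨by linarith, hlt1, hlt2, by linarith, by norm_num,
    fun x hx => le_trans (by norm_num) (hdv x hx), by rw [e1]; norm_num, by rw [e2]; norm_num, e4⟩,
    hwmpos, hwple, e1.le, e2.ge, hIccT p1 hp1, hIccT2 p1 hp1, ?_⟩
  obtain ⟨a1, a2, y, hy, e⟩ := hIccT p1 hp1
  refine ⟨i0 + (n * N + (k + 1)), ?_⟩
  rw [it_add, (h.it_Z hy e).1]
  exact h.Φ6 y hy

/-- the limit of ratios -/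
theorem ratio_lim {a : ℕ → ℝ} {A : ℝ} {n q N0 : ℕ} (hn : 0 < n)
    (h : ∀ η : ℝ, 0 < η → ∃ C : ℝ, 0 ≤ C ∧ ∀ N : ℕ, N0 ≤ N → |a N - N * A| ≤ η * N + C) :
    ∀ ε : ℝ, 0 < ε → ∃ N1 : ℕ, ∀ N, N1 ≤ N → N0 ≤ N →
      |a N / ((n * N + q : ℕ) : ℝ) - A / n| ≤ ε := by
  intro ε hε
  have hn' : (0 : ℝ) < n := by exact_mod_cast hn
  obtain ⟨C, hC, h1⟩ := h (ε * n / 2) (by positivity)
  obtain ⟨N1, hN1⟩ := exists_nat_ge ((C + |A| * q / n) / (ε * n / 2))
  refine ⟨max N1 1, fun N hN hN' => ?_⟩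
  have hN2 : (1 : ℝ) ≤ N := by exact_mod_cast (le_max_right _ _).trans hN
  have hN3 : ((C + |A| * q / n) / (ε * n / 2)) ≤ N :=
    hN1.trans (by exact_mod_cast (le_max_left _ _).trans hN)
  rw [div_le_iff₀ (by positivity)] at hN3
  have h2 := h1 N hN'
  have hD : (0 : ℝ) < ((n * N + q : ℕ) : ℝ) := by
    push_cast
    positivity
  have e1 : a N / ((n * N + q : ℕ) : ℝ) - A / n =
      ((a N - N * A) - A * q / n) / ((n * N + q : ℕ) : ℝ) := by
    field_simp
    push_cast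
    ring
  rw [e1, abs_div, abs_of_pos hD, div_le_iff₀ hD]
  have h3 : |A * q / n| = |A| * q / n := by
    rw [abs_div, abs_mul, Nat.abs_cast, Nat.abs_cast]
  calc |(a N - N * A) - A * q / n| ≤ |a N - N * A| + |A * q / n| := abs_sub _ _
    _ ≤ (ε * n / 2 * N + C) + |A| * q / n := by rw [h3]; linarith
    _ ≤ ε * n / 2 * N + N * (ε * n / 2) := by linarith
    _ = ε * (n * N) := by ring
    _ ≤ ε * ((n * N + q : ℕ) : ℝ) := by
      apply mul_le_mul_of_nonneg_left _ hε.le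
      push_cast
      have : (0 : ℝ) ≤ q := Nat.cast_nonneg q
      linarith

/-- one step in phase space: for every large `N` a new orbit; exponents are nearly halved and the
orbit measures converge -/
theorem SU.phase (h : SU c n x1 x2 κ p G k s r0 mk Mk m Φ v i0) :
    ∃ (N0 : ℕ) (n' : ℕ → ℕ) (w1 w2 p1 : ℕ → ℝ), (∀ N, N0 ≤ N →
      Br c (n' N) (w1 N) (w2 N) 2 (p1 N) ∧ 0 < w1 N ∧ w2 N < 1 / 5 ∧
      it c (n' N) (w1 N) ≤ -(31 / 20) ∧ 31 / 20 ≤ it c (n' N) (w2 N) ∧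
      ∃ i, 0 < psi c v (it c i (p1 N))) ∧
      (∀ ε : ℝ, 0 < ε → ∃ N1 : ℕ, ∀ N, N1 ≤ N → N0 ≤ N →
        |Real.log (dv c (n' N) (p1 N)) / (n' N) - Real.log (dv c n p) / n / 2| ≤ ε) ∧
      (∀ φ : ℝ → ℝ, Continuous φ → ∀ ε : ℝ, 0 < ε → ∃ N1 : ℕ, ∀ N, N1 ≤ N → N0 ≤ N →
        |S c (n' N) φ (p1 N) / (n' N) - S c n φ p / n| ≤ ε) := by
  obtain ⟨N0, hN0⟩ := h.newBranch
  choose! w1 w2 p1 H using hN0
  have hnpos := h.toBr.npos
  have hrt : ∀ N, rt n k m N + rt n k m N = (2 * n) * N + 2 * (m + (k + 1)) := by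
    intro N; rw [rt]; ring
  refine ⟨N0, fun N => rt n k m N + rt n k m N, w1, w2, p1, fun N hN => ?_, ?_, ?_⟩
  · obtain ⟨a1, a2, a3, a4, a5, a6, a7, a8⟩ := H N hN
    exact ⟨a1, a2, a3.trans_lt h.hr1, a4, a5, a8⟩
  · intro ε hε
    obtain ⟨N1, hN1⟩ := ratio_lim (a := fun N => Real.log (dv c (rt n k m N + rt n k m N) (p1 N)))
      (A := Real.log (dv c n p)) (n := 2 * n) (q := 2 * (m + (k + 1))) (N0 := N0) (by omega) (by
        intro η hη
        obtain ⟨C, hC, h1⟩ := h.logdv_Z (half_pos hη)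
        refine ⟨2 * C, by positivity, fun N hN => ?_⟩
        obtain ⟨a1, a2, a3, a4, a5, a6, a7, a8⟩ := H N hN
        obtain ⟨b1, b2⟩ := h1 N _ a6
        obtain ⟨b3, b4⟩ := h1 N _ a7
        have e : Real.log (dv c (rt n k m N + rt n k m N) (p1 N)) =
            Real.log |dv c (rt n k m N) (p1 N)| +
            Real.log |dv c (rt n k m N) (it c (rt n k m N) (p1 N))| := by
          rw [dv_add, ← Real.log_abs, abs_mul,
            Real.log_mul (abs_ne_zero.2 b1) (abs_ne_zero.2 b3)]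
        rw [e]
        have c1 := abs_le.1 b2
        have c2 := abs_le.1 b4
        rw [abs_le]
        constructor
        · linarith [c1.1, c2.1]
        · linarith [c1.2, c2.2]) ε hε
    refine ⟨N1, fun N h1 h2 => ?_⟩
    have := hN1 N h1 h2
    rw [← hrt N] at this
    have e : Real.log (dv c n p) / n / 2 = Real.log (dv c n p) / ((2 * n : ℕ) : ℝ) := by
      push_cast
      rw [div_div, mul_comm]
    rw [e]
    exact this
  · intro φ hφ ε hε
    obtain ⟨N1, hN1⟩ := ratio_lim (a := fun N => S c (rt n k m N + rt n k m N) φ (p1 N))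
      (A := 2 * S c n φ p) (n := 2 * n) (q := 2 * (m + (k + 1))) (N0 := N0) (by omega) (by
        intro η hη
        obtain ⟨C, hC, h1⟩ := h.S_Z hφ (half_pos hη)
        refine ⟨2 * C, by positivity, fun N hN => ?_⟩
        obtain ⟨a1, a2, a3, a4, a5, a6, a7, a8⟩ := H N hN
        have b2 := h1 N _ a6
        have b4 := h1 N _ a7
        rw [S_add]
        have c1 := abs_le.1 b2
        have c2 := abs_le.1 b4
        rw [abs_le]
        constructor
        · linarith [c1.1, c2.1]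
        · linarith [c1.2, c2.2]) ε hε
    refine ⟨N1, fun N h1 h2 => ?_⟩
    have := hN1 N h1 h2
    rw [← hrt N] at this
    have e : S c n φ p / n = 2 * S c n φ p / ((2 * n : ℕ) : ℝ) := by
      have hn' : (n : ℝ) ≠ 0 := by exact_mod_cast hnpos.ne'
      push_cast
      field_simp
    rw [e]
    exact this

end Pool.Agent.W748.NM
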