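import Mathlib
import Pool.Agent.W748.NM.Phase2

set_option autoImplicit false

open Filter Topology Set

namespace Pool.Agent.W748.NM

/-- a parameter together with an expanding periodic orbit on which the critical value lands -/
structure Good (c p : ℝ) (n k : ℕ) (x1 x2 κ : ℝ) : Prop where
  hc : -2 < c ∧ c < -19 / 10
  br : Br c n x1 x2 κ p
  hk : it c k c = p
  side : ∀ s : ℝ, (s = 1 ∨ s = -1) → ∃ (m : ℕ) (h : ℝ → ℝ), ContinuousOn h AB ∧
    (∀ y ∈ AB, h y ∈ AA) ∧ (∀ y ∈ AB, 0 < s * (h y - p)) ∧ (∀ y ∈ AB, it c m (h y) = y) ∧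
    (∀ y ∈ AB, dv c m (h y) ≠ 0)

variable {c p x1 x2 κ : ℝ} {n k : ℕ}

theorem Good.cPR (h : Good c p n k x1 x2 κ) : c ∈ PR := ⟨h.hc.1.le, h.hc.2.le⟩

theorem Good.exists_SU (h : Good c p n k x1 x2 κ) (v : List Bool) :
    ∃ (G : ℝ → ℝ) (s r0 mk Mk : ℝ) (m : ℕ) (Φ : ℝ → ℝ) (i0 : ℕ),
      SU c n x1 x2 κ p G k s r0 mk Mk m Φ v i0 := by
  obtain ⟨G, g1, g2, g3, g4, g5, g6⟩ := h.br.exists_inv
  obtain ⟨s, r0, mk, Mk, hs, hr0, hr1, hm, hmM⟩ := exists_local (h.br.dvk_ne h.hk)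
  obtain ⟨m, H, H1, H2, H3, H4, H5⟩ := h.side s hs
  have hgw : ∀ y ∈ AB, gw c v y ∈ AB := fun y hy => gw_mem h.cPR v hy
  refine ⟨G, s, r0, mk, Mk, 2 * v.length + m, fun y => H (gw c v y), m,
    { toBr := h.br, g1 := g1, g2 := g2, g3 := g3, g4 := g4, g5 := g5, g6 := g6,
      hc := h.cPR, hk := h.hk, hs := hs, hr0 := hr0, hr1 := hr1, hm := hm, hmM := hmM,
      Φ1 := H1.comp (gw_cont c v).continuousOn hgw, Φ2 := fun y hy => H2 _ (hgw y hy),
      Φ3 := fun y hy => H3 _ (hgw y hy), Φ4 := ?_, Φ5 := ?_, Φ6 := ?_ }⟩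
  · intro y hy
    rw [it_add, H4 _ (hgw y hy), it_gw h.cPR v hy]
  · intro y hy
    rw [dv_add, H4 _ (hgw y hy)]
    exact mul_ne_zero (H5 _ (hgw y hy)) (dv_gw h.cPR v hy)
  · intro y hy
    rw [H4 _ (hgw y hy)]
    exact psi_gw h.cPR v hy

/-- persistence of branches -/
theorem Br.persist (h : Br c n x1 x2 κ p) {κ' : ℝ} (hκ' : κ' < κ) :
    ∀ᶠ c' in 𝓝 c, (∀ x ∈ Icc x1 x2, κ' ≤ dv c' n x) ∧ it c' n x1 < -(3 / 2) ∧
      3 / 2 < it c' n x2 := by
  have h1 : ∀ᶠ c' in 𝓝 c, ∀ x ∈ Icc x1 x2, κ' < dv c' n x := by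
    refine isCompact_Icc.eventually_forall_of_forall_eventually fun x hx => ?_
    have hc : ContinuousAt (fun q : ℝ × ℝ => dv q.1 n q.2) (c, x) := (dv_cont n).continuousAt
    exact hc.eventually (lt_mem_nhds (lt_of_lt_of_le hκ' (h.hd x hx)))
  have h2 : ∀ᶠ c' in 𝓝 c, it c' n x1 < -(3 / 2) :=
    (it_cont_c x1 n).continuousAt.eventually (gt_mem_nhds h.hl)
  have h3 : ∀ᶠ c' in 𝓝 c, 3 / 2 < it c' n x2 :=
    (it_cont_c x2 n).continuousAt.eventually (lt_mem_nhds h.hr)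
  filter_upwards [h1, h2, h3] with c' a1 a2 a3
  exact ⟨fun x hx => (a1 x hx).le, a2, a3⟩

theorem exists_fix {κ' : ℝ} (l1 : -(3 / 2) < x1) (l12 : x1 < x2) (l4 : x2 < 3 / 2) (hκ : 1 < κ')
    (h1 : ∀ x ∈ Icc x1 x2, κ' ≤ dv c n x) (h2 : it c n x1 < -(3 / 2)) (h3 : 3 / 2 < it c n x2) :
    ∃ p, Br c n x1 x2 κ' p := by
  have hcont : ContinuousOn (fun x => it c n x - x) (Icc x1 x2) :=
    ((it_cont_x c n).sub continuous_id).continuousOn
  obtain ⟨p1, hp1, e3⟩ := intermediate_value_Icc l12.le hcont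
    (show (0 : ℝ) ∈ Icc (it c n x1 - x1) (it c n x2 - x2) by constructor <;> linarith)
  have e4 : it c n p1 = p1 := by
    have : it c n p1 - p1 = 0 := e3
    linarith
  have hlt1 : x1 < p1 := by
    rcases hp1.1.eq_or_lt with e | h1
    · rw [← e] at e4; linarith
    · exact h1
  have hlt2 : p1 < x2 := by
    rcases hp1.2.eq_or_lt with e | h1
    · rw [e] at e4; linarith
    · exact h1
  exact ⟨p1, l1, hlt1, hlt2, l4, hκ, h1, h2, h3, e4⟩

theorem Br.near (h : Br c n x1 x2 κ p) {x : ℝ} (hx : x ∈ Icc x1 x2) :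
    (κ - 1) * |p - x| ≤ |it c n x - x| := by
  have h1 := h.expand_abs hx h.memp
  rw [h.hp] at h1
  have h2 : |p - it c n x| ≤ |p - x| + |it c n x - x| := by
    have : p - it c n x = (p - x) - (it c n x - x) := by ring
    rw [this]
    exact abs_sub _ _
  nlinarith

/-- the critical value polynomials -/
noncomputable def Q : ℕ → Polynomial ℝ
  | 0 => Polynomial.X
  | n + 1 => Q n ^ 2 + Polynomial.X

theorem Q_eval (n : ℕ) (c : ℝ) : (Q n).eval c = it c n c := by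
  induction n with
  | zero => simp [Q]
  | succ n ih => rw [Q, it_succ]; simp [ih]

theorem it_one_lt (n : ℕ) : it 1 n 1 < it 1 (n + 1) 1 := by
  rw [it_succ]
  nlinarith [sq_nonneg (it 1 n 1 - 1 / 2)]

theorem it_one_strictMono : StrictMono fun n => it 1 n 1 := strictMono_nat_of_lt_succ it_one_lt

theorem exists_ne {n k : ℕ} (hn : 0 < n) {U : Set ℝ} (hU : U.Infinite) :
    ∃ c ∈ U, it c (n + k) c ≠ it c k c := by
  have hne : Q (n + k) - Q k ≠ 0 := by
    intro h0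
    have h1 : (Q (n + k) - Q k).eval 1 = 0 := by rw [h0]; simp
    rw [Polynomial.eval_sub, Q_eval, Q_eval] at h1
    have := it_one_strictMono (show k < n + k by omega)
    simp only at this
    linarith
  by_contra hcon
  push Not at hcon
  apply hU
  refine (Finset.finite_toSet (Q (n + k) - Q k).roots.toFinset).subset fun c hc => ?_
  rw [Finset.mem_coe, Multiset.mem_toFinset, Polynomial.mem_roots hne, Polynomial.IsRoot.def,
    Polynomial.eval_sub, Q_eval, Q_eval, hcon c hc, sub_self]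

/-- the orbit leaves the domain of the branch -/
theorem Br.escape (h : Br c n x1 x2 κ p) {ξ : ℕ → ℝ} (hξ : ∀ j, ξ (j + 1) = it c n (ξ j))
    {s : ℝ} (hs : s = 1 ∨ s = -1) (hsp : 0 < s * (ξ 0 - p)) :
    ∃ N : ℕ, (s = 1 → x2 < ξ N) ∧ (s = -1 → ξ N < x1) := by
  have hκ := h.hκ
  have hex : ∃ j, ξ j ∉ Icc x1 x2 := by
    by_contra hcon
    push Not at hcon
    have h1 : ∀ j, κ ^ j * |ξ 0 - p| ≤ |ξ j - p| := by
      intro j
      induction j with
      | zero => simp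
      | succ j ih =>
        have := h.expand_abs h.memp (hcon j)
        rw [h.hp, ← hξ] at this
        calc κ ^ (j + 1) * |ξ 0 - p| = κ * (κ ^ j * |ξ 0 - p|) := by ring
          _ ≤ κ * |ξ j - p| := mul_le_mul_of_nonneg_left ih (by linarith)
          _ ≤ _ := this
    have hpos : 0 < |ξ 0 - p| := by
      rw [abs_pos]
      intro h2
      rw [h2, mul_zero] at hsp
      exact lt_irrefl _ hsp
    obtain ⟨j, hj⟩ := pow_unbounded_of_one_lt (3 / |ξ 0 - p|) hκ
    rw [div_lt_iff₀ hpos] at hj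
    have h2 := (h1 j)
    have h3 : |ξ j - p| ≤ 3 := by
      obtain ⟨a1, a2⟩ := hcon j
      have := h.l1; have := h.l2; have := h.l3; have := h.l4
      rw [abs_le]; constructor <;> linarith
    linarith
  classical
  set N := Nat.find hex with hN
  have hNout : ξ N ∉ Icc x1 x2 := Nat.find_spec hex
  have hNin : ∀ j < N, ξ j ∈ Icc x1 x2 := by
    intro j hj
    by_contra hcon
    exact Nat.find_min hex hj hcon
  have hsgn : ∀ j ≤ N, 0 < s * (ξ j - p) := by
    intro j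
    induction j with
    | zero => intro _; exact hsp
    | succ j ih =>
      intro hj
      have ih' := ih (by omega)
      have hin := hNin j (by omega)
      rw [hξ]
      rcases hs with hs | hs
      · rw [hs] at ih' ⊢
        have := h.expand h.memp hin (by linarith)
        rw [h.hp] at this
        have : 0 < κ * (ξ j - p) := mul_pos (by linarith) (by linarith)
        linarith
      · rw [hs] at ih' ⊢
        have := h.expand hin h.memp (by linarith)
        rw [h.hp] at this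
        have : 0 < κ * (p - ξ j) := mul_pos (by linarith) (by linarith)
        linarith
  have hlast := hsgn N le_rfl
  refine ⟨N, fun hs' => ?_, fun hs' => ?_⟩
  · rw [hs'] at hlast
    by_contra hcon
    push Not at hcon
    exact hNout ⟨by linarith [h.l2], hcon⟩
  · rw [hs'] at hlast
    by_contra hcon
    push Not at hcon
    exact hNout ⟨hcon, by linarith [h.l3]⟩

/-- the parameter step -/
theorem Good.param {c0 p0 : ℝ} (h : Good c0 p0 n k x1 x2 κ) {n' : ℕ} {w1 w2 κ' p' : ℝ}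
    (hB : Br c0 n' w1 w2 κ' p') (hw1 : 0 < w1) (hw2 : w2 < 1 / 5) {ε : ℝ} (hε : 0 < ε) :
    ∃ (c1 p1 : ℝ) (k1 : ℕ), |c1 - c0| < ε ∧ |p1 - p'| < ε ∧
      Good c1 p1 n' k1 w1 w2 ((1 + κ') / 2) := by
  have hκ := h.br.hκ
  have hκ' := hB.hκ
  obtain ⟨G, g1, g2, g3, g4, g5, g6⟩ := h.br.exists_inv
  -- the two points on each side
  have hside : ∀ s : ℝ, (s = 1 ∨ s = -1) → ∃ (M : ℕ) (zm zp : ℝ), (s = 1 → p0 < zm ∧ zm < x2 ∧
      p0 < zp ∧ zp < x2) ∧ (s = -1 → x1 < zm ∧ zm < p0 ∧ x1 < zp ∧ zp < p0) ∧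
      it c0 M zm < -(3 / 2) ∧ 3 / 2 < it c0 M zp := by
    intro s hs
    obtain ⟨m, H, H1, H2, H3, H4, H5⟩ := h.side s hs
    have hz : ∀ y ∈ AB, (s = 1 → p0 < G (H y) ∧ G (H y) < x2) ∧
        (s = -1 → x1 < G (H y) ∧ G (H y) < p0) ∧ it c0 (m + n) (G (H y)) = y := by
      intro y hy
      have hHy := H2 y hy
      refine ⟨fun e => ?_, fun e => ?_, ?_⟩
      · have := H3 y hy
        rw [e] at this
        have h1 := g3 p0 h.br.pAA (H y) hHy (by linarith)
        rw [g5] at h1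
        refine ⟨h1, ?_⟩
        rcases (g1 _ hHy).2.eq_or_lt with e2 | h2
        · have h3 := g2 _ hHy
          rw [e2] at h3
          have := h.br.hr
          have := hHy.2
          linarith
        · exact h2
      · have := H3 y hy
        rw [e] at this
        have h1 := g3 (H y) hHy p0 h.br.pAA (by linarith)
        rw [g5] at h1
        refine ⟨?_, h1⟩
        rcases (g1 _ hHy).1.eq_or_lt with e2 | h2
        · have h3 := g2 _ hHy
          rw [← e2] at h3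
          have := h.br.hl
          have := hHy.1
          linarith
        · exact h2
      · rw [it_add, g2 _ hHy, H4 y hy]
    obtain ⟨a1, a2, a3⟩ := hz (-(31 / 20)) ⟨le_rfl, by norm_num⟩
    obtain ⟨b1, b2, b3⟩ := hz (31 / 20) ⟨by norm_num, le_rfl⟩
    refine ⟨m + n, G (H (-(31 / 20))), G (H (31 / 20)), fun e => ⟨(a1 e).1, (a1 e).2, b1 e⟩,
      fun e => ⟨(a2 e).1, (a2 e).2, b2 e⟩, ?_, ?_⟩
    · rw [a3]; norm_num
    · rw [b3]; norm_num
  obtain ⟨MR, zRm, zRp, hR, -, hRm, hRp⟩ := hside 1 (Or.inl rfl)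
  obtain ⟨ML, zLm, zLp, -, hL, hLm, hLp⟩ := hside (-1) (Or.inr rfl)
  have hR := hR rfl
  have hL := hL rfl
  -- open conditions
  have ev1 := h.br.persist (κ' := (1 + κ) / 2) (by linarith)
  have ev2 := hB.persist (κ' := (1 + κ') / 2) (by linarith)
  have hcc : Continuous fun c : ℝ => it c k c :=
    (it_cont k).comp (continuous_id.prodMk continuous_id)
  have ev3 : ∀ᶠ c in 𝓝 c0, it c k c ∈ Ioo x1 x2 := by
    have h1 : Tendsto (fun c : ℝ => it c k c) (𝓝 c0) (𝓝 p0) := hcc.tendsto' _ _ h.hk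
    exact h1.eventually (Ioo_mem_nhds h.br.l2 h.br.l3)
  have ev4 : ∀ᶠ c in 𝓝 c0, it c MR zRm < -(3 / 2) :=
    (it_cont_c zRm MR).continuousAt.eventually (gt_mem_nhds hRm)
  have ev5 : ∀ᶠ c in 𝓝 c0, 3 / 2 < it c MR zRp :=
    (it_cont_c zRp MR).continuousAt.eventually (lt_mem_nhds hRp)
  have ev6 : ∀ᶠ c in 𝓝 c0, it c ML zLm < -(3 / 2) :=
    (it_cont_c zLm ML).continuousAt.eventually (gt_mem_nhds hLm)
  have ev7 : ∀ᶠ c in 𝓝 c0, 3 / 2 < it c ML zLp :=
    (it_cont_c zLp ML).continuousAt.eventually (lt_mem_nhds hLp)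
  have ev8 : ∀ᶠ c in 𝓝 c0, -2 < c ∧ c < -19 / 10 := Ioo_mem_nhds h.hc.1 h.hc.2
  have ev9 : ∀ᶠ c in 𝓝 c0, |it c n' p' - p'| < ε * ((1 + κ') / 2 - 1) := by
    have hc : Continuous fun c => |it c n' p' - p'| :=
      ((it_cont_c p' n').sub continuous_const).abs
    have h1 : Tendsto (fun c => |it c n' p' - p'|) (𝓝 c0) (𝓝 0) :=
      hc.tendsto' _ _ (by rw [hB.hp, sub_self, abs_zero])
    exact h1.eventually (gt_mem_nhds (mul_pos hε (by linarith)))
  have evall := ((ev1.and ev2).and (ev3.and ev4)).and ((ev5.and ev6).and ((ev7.and ev8).and ev9))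
  obtain ⟨δ0, hδ0, hball⟩ := Metric.eventually_nhds_iff.1 evall
  set δ := min δ0 ε with hδdef
  have hδ : 0 < δ := lt_min hδ0 hε
  have hB1 : ∀ c : ℝ, |c - c0| < δ → dist c c0 < δ0 := fun c hc => by
    rw [Real.dist_eq]; exact hc.trans_le (min_le_left _ _)
  -- the auxiliary parameter
  obtain ⟨cs, hcs, hcsne⟩ := exists_ne (n := n) (k := k) h.br.npos
    (U := Ioo (c0 - δ) (c0 + δ)) (Ioo_infinite (by linarith))
  have hcsb : |cs - c0| < δ := by rw [abs_lt]; constructor <;> linarith [hcs.1, hcs.2]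
  have hseg : ∀ c ∈ uIcc c0 cs, |c - c0| < δ := by
    intro c hc
    rw [mem_uIcc] at hc
    rw [abs_lt] at hcsb ⊢
    rcases hc with hc | hc <;> constructor <;> linarith [hc.1, hc.2, hcsb.1, hcsb.2]
  obtain ⟨⟨⟨A1, -⟩, A3, -⟩, -⟩ := hball (hB1 cs hcsb)
  obtain ⟨q, hq⟩ := exists_fix h.br.l1 (h.br.l2.trans h.br.l3) h.br.l4 (by linarith : 1 < (1 + κ) / 2)
    A1.1 A1.2.1 A1.2.2
  set ξ : ℕ → ℝ := fun j => it cs (n * j + k) cs with hξdef
  have hξs : ∀ j, ξ (j + 1) = it cs n (ξ j) := by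
    intro j
    simp only [hξdef]
    rw [← it_add]; congr 1; ring
  have hξ0 : ξ 0 = it cs k cs := by simp [hξdef]
  have hξ0m : ξ 0 ∈ Icc x1 x2 := by rw [hξ0]; exact ⟨A3.1.le, A3.2.le⟩
  have hξne : ξ 0 ≠ q := by
    intro e
    apply hcsne
    rw [it_add, ← hξ0, e, hq.hp]
  have hs : ∃ s : ℝ, (s = 1 ∨ s = -1) ∧ 0 < s * (ξ 0 - q) := by
    rcases lt_or_gt_of_ne hξne with h1 | h1
    · exact ⟨-1, Or.inr rfl, by linarith⟩
    · exact ⟨1, Or.inl rfl, by linarith⟩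
  obtain ⟨s, hs, hsp⟩ := hs
  obtain ⟨N, hN1, hN2⟩ := hq.escape hξs hs hsp
  -- common data for both signs
  have hcommon : ∃ (M : ℕ) (zm zp : ℝ), zm ∈ uIcc p0 (ξ N) ∧ zp ∈ uIcc p0 (ξ N) ∧
      (∀ c : ℝ, |c - c0| < δ → it c M zm < -(3 / 2) ∧ 3 / 2 < it c M zp) := by
    rcases hs with e | e
    · have h1 := hN1 e
      refine ⟨MR, zRm, zRp, ?_, ?_, fun c hc => ?_⟩
      · rw [mem_uIcc]; left; exact ⟨hR.1.le, by linarith [hR.2.1]⟩
      · rw [mem_uIcc]; left; exact ⟨hR.2.2.1.le, by linarith [hR.2.2.2]⟩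
      · obtain ⟨⟨-, -, B1⟩, ⟨B2, -⟩, -⟩ := hball (hB1 c hc)
        exact ⟨B1, B2⟩
    · have h1 := hN2 e
      refine ⟨ML, zLm, zLp, ?_, ?_, fun c hc => ?_⟩
      · rw [mem_uIcc]; right; exact ⟨by linarith [hL.1], hL.2.1.le⟩
      · rw [mem_uIcc]; right; exact ⟨by linarith [hL.2.2.1], hL.2.2.2.le⟩
      · obtain ⟨-, ⟨-, B1⟩, ⟨B2, -⟩, -⟩ := hball (hB1 c hc)
        exact ⟨B1, B2⟩
  obtain ⟨M, zm, zp, hzm, hzp, hM⟩ := hcommon
  set Ξ : ℝ → ℝ := fun c => it c (n * N + k) c with hΞdef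
  have hΞcont : Continuous Ξ := (it_cont (n * N + k)).comp (continuous_id.prodMk continuous_id)
  have hΞ0 : Ξ c0 = p0 := by
    simp only [hΞdef]
    rw [it_add, h.hk]
    have : Function.IsPeriodicPt (f c0) n p0 := h.br.hp
    exact this.mul_const N
  have hΞs : Ξ cs = ξ N := rfl
  rw [← hΞ0, ← hΞs] at hzm hzp
  obtain ⟨c', hc', ec'⟩ := intermediate_value_uIcc hΞcont.continuousOn hzm
  obtain ⟨c'', hc'', ec''⟩ := intermediate_value_uIcc hΞcont.continuousOn hzp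
  have hseg2 : ∀ c ∈ uIcc c' c'', |c - c0| < δ := fun c hc => hseg c (uIcc_subset_uIcc hc' hc'' hc)
  -- the fixed point function
  have hfix : ∀ c : ℝ, |c - c0| < δ → ∃ P, Br c n' w1 w2 ((1 + κ') / 2) P := by
    intro c hc
    obtain ⟨⟨⟨-, B1⟩, -⟩, -⟩ := hball (hB1 c hc)
    exact exists_fix hB.l1 (hB.l2.trans hB.l3) hB.l4 (by linarith) B1.1 B1.2.1 B1.2.2
  choose! P hP using hfix
  have hPcont : ContinuousOn P (uIcc c' c'') := by
    intro a ha
    have haB := hP a (hseg2 a ha)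
    rw [Metric.continuousWithinAt_iff]
    intro η hη
    have hc : Continuous fun c => |it c n' (P a) - P a| :=
      ((it_cont_c (P a) n').sub continuous_const).abs
    have hev : ∀ᶠ c in 𝓝 a, |it c n' (P a) - P a| < η * ((1 + κ') / 2 - 1) := by
      have h1 : Tendsto (fun c => |it c n' (P a) - P a|) (𝓝 a) (𝓝 0) :=
        hc.tendsto' _ _ (by rw [haB.hp, sub_self, abs_zero])
      exact h1.eventually (gt_mem_nhds (mul_pos hη (by linarith)))
    obtain ⟨δ1, hδ1, h1⟩ := Metric.eventually_nhds_iff.1 hev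
    refine ⟨δ1, hδ1, fun {x} hx hxd => ?_⟩
    have hxB := hP x (hseg2 x hx)
    have h2 := hxB.near haB.memp
    have h3 := h1 hxd
    rw [Real.dist_eq]
    have h4 : ((1 + κ') / 2 - 1) * |P x - P a| < ((1 + κ') / 2 - 1) * η := by linarith
    exact lt_of_mul_lt_mul_left h4 (by linarith)
  have hΘcont : ContinuousOn (fun c => it c M (Ξ c) - P c) (uIcc c' c'') :=
    (((it_cont M).comp (continuous_id.prodMk hΞcont)).continuousOn).sub hPcont
  have hPc' := hP c' (hseg2 c' left_mem_uIcc)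
  have hPc'' := hP c'' (hseg2 c'' right_mem_uIcc)
  have hmem0 : (0 : ℝ) ∈ uIcc (it c' M (Ξ c') - P c') (it c'' M (Ξ c'') - P c'') := by
    rw [mem_uIcc]; left
    rw [ec', ec'']
    have h1 := (hM c' (hseg2 c' left_mem_uIcc)).1
    have h2 := (hM c'' (hseg2 c'' right_mem_uIcc)).2
    constructor
    · linarith [hPc'.l1, hPc'.l2]
    · linarith [hPc''.l3, hPc''.l4]
  obtain ⟨c1, hc1, ec1⟩ := intermediate_value_uIcc hΘcont hmem0
  have hc1b := hseg2 c1 hc1
  have hc1P := hP c1 hc1b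
  obtain ⟨⟨-, -⟩, ⟨-, -⟩, ⟨-, B8⟩, B9⟩ := hball (hB1 c1 hc1b)
  have hPR : c1 ∈ PR := ⟨B8.1.le, B8.2.le⟩
  have hw12 := hB.l2.trans hB.l3
  refine ⟨c1, P c1, M + (n * N + k), hc1b.trans_le (min_le_right _ _), ?_, B8, hc1P, ?_, ?_⟩
  · have h2 := hc1P.near hB.memp
    have h4 : ((1 + κ') / 2 - 1) * |P c1 - p'| < ((1 + κ') / 2 - 1) * ε := by linarith
    exact lt_of_mul_lt_mul_left h4 (by linarith)
  · rw [it_add]
    have : it c1 M (Ξ c1) - P c1 = 0 := ec1
    simp only [hΞdef] at this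
    linarith
  · intro s hs
    have hpl := hc1P.l2
    have hpr := hc1P.l3
    rcases hs with e | e
    · refine ⟨2, gb c1 true, (gb_cont c1 true).continuousOn, fun y hy => gb_mem true hPR hy,
        fun y hy => ?_, fun y hy => it_two_gb true hPR hy, fun y hy => dv_two_gb true hPR hy⟩
      have := (gp_spec hPR hy).1
      rw [e]
      simp only [gb, if_true]
      linarith
    · refine ⟨2, gb c1 false, (gb_cont c1 false).continuousOn, fun y hy => gb_mem false hPR hy,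
        fun y hy => ?_, fun y hy => it_two_gb false hPR hy, fun y hy => dv_two_gb false hPR hy⟩
      have := (gp_spec hPR hy).1
      rw [e]
      simp only [gb, Bool.false_eq_true, if_false]
      linarith

end Pool.Agent.W748.NM
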