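import Mathlib
import Pool.Agent.W748.NM.Param

set_option autoImplicit false

open Filter Topology Set

namespace Pool.Agent.W748.NM

/-- the period-two point -/
noncomputable def qq (c : ℝ) : ℝ := (-1 + Real.sqrt (-3 - 4 * c)) / 2

theorem qq_spec {c : ℝ} (hc : c ∈ PR) : 1 / 2 < qq c ∧ qq c < 1 ∧ it c 2 (qq c) = qq c ∧
    (qq c) ^ 2 + c = -1 - qq c := by
  obtain ⟨h1, h2⟩ := hc
  have h3 : 0 ≤ -3 - 4 * c := by linarith
  have h4 := Real.sq_sqrt h3
  have h5 : 2 < Real.sqrt (-3 - 4 * c) := by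
    apply Real.lt_sqrt (by norm_num) |>.2
    linarith
  have h6 : Real.sqrt (-3 - 4 * c) < 3 := by
    apply Real.sqrt_lt' (by norm_num) |>.2
    linarith
  have h7 : (qq c) ^ 2 + c = -1 - qq c := by
    unfold qq
    nlinarith
  refine ⟨by unfold qq; linarith, by unfold qq; linarith, ?_, h7⟩
  rw [it_two, h7]
  nlinarith

theorem V_of {x : ℝ} (h1 : 1 / 5 < x) (h2 : x < 6 / 5) : x ∈ Icc (1 / 5 : ℝ) (6 / 5) :=
  ⟨h1.le, h2.le⟩

theorem V_lt {c x y : ℝ} (hc : c ∈ PR) (hx : x ∈ Icc (1 / 5 : ℝ) (6 / 5))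
    (hy : y ∈ Icc (1 / 5 : ℝ) (6 / 5)) (h : it c 2 y < it c 2 x) : x < y := by
  by_contra hcon
  push Not at hcon
  have := expand_V hc hy hx hcon
  nlinarith

theorem dv_V {c x : ℝ} (hc : c ∈ PR) (hx : x ∈ Icc (1 / 5 : ℝ) (6 / 5)) :
    dv c 2 x ≤ -(7 / 5) := by
  obtain ⟨h1, h2⟩ := hx
  obtain ⟨h3, h4⟩ := hc
  rw [dv_two]
  have e1 : 4 * x * (x ^ 2 + c) ≤ 4 * x * (x ^ 2 - 19 / 10) := by
    apply mul_le_mul_of_nonneg_left <;> linarith
  have e2 : 4 * x * (x ^ 2 - 19 / 10) ≤ -(7 / 5) := by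
    nlinarith [mul_nonneg (sub_nonneg.2 h1) (sub_nonneg.2 h2)]
  linarith

theorem exists_base_param : ∃ c : ℝ, -2 < c ∧ c < -19 / 10 ∧ it c 3 c = qq c := by
  have hcont : ContinuousOn (fun c : ℝ => it c 3 c - qq c) (Icc (-2) (-19 / 10)) := by
    apply Continuous.continuousOn
    apply Continuous.sub
    · exact (it_cont 3).comp (continuous_id.prodMk continuous_id)
    · unfold qq; fun_prop
  have h1 : 0 < it (-2) 3 (-2) - qq (-2) := by
    have := (qq_spec (c := -2) ⟨le_rfl, by norm_num⟩).2.1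
    have e : it (-2) 3 (-2) = 2 := by
      simp only [it_succ, it_zero]; norm_num
    rw [e]; linarith
  have h2 : it (-19 / 10) 3 (-19 / 10) - qq (-19 / 10) < 0 := by
    have := (qq_spec (c := -19 / 10) ⟨by norm_num, le_rfl⟩).1
    have e : it (-19 / 10) 3 (-19 / 10) < 0 := by
      simp only [it_succ, it_zero]; norm_num
    linarith
  obtain ⟨c, hc, e⟩ := intermediate_value_Icc' (by norm_num) hcont
    (show (0 : ℝ) ∈ Icc _ _ from ⟨h2.le, h1.le⟩)
  have e' : it c 3 c - qq c = 0 := e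
  refine ⟨c, ?_, ?_, by linarith⟩
  · rcases hc.1.eq_or_lt with h | h
    · rw [← h] at e'; linarith
    · exact h
  · rcases hc.2.eq_or_lt with h | h
    · rw [h] at e'; linarith
    · exact h

theorem exists_good : ∃ (c p : ℝ) (n k : ℕ) (x1 x2 κ : ℝ), Good c p n k x1 x2 κ := by
  obtain ⟨c, hc1, hc2, hc3⟩ := exists_base_param
  have hc : c ∈ PR := ⟨hc1.le, hc2.le⟩
  obtain ⟨q1, q2, q3, q4⟩ := qq_spec hc
  set q := qq c with hq
  have hqV : q ∈ Icc (1 / 5 : ℝ) (6 / 5) := ⟨by linarith, by linarith⟩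
  have hgV : ∀ y ∈ AB, gp c y ∈ Icc (1 / 5 : ℝ) (6 / 5) := fun y hy =>
    ⟨(gp_spec hc hy).1.le, (gp_spec hc hy).2.1.le⟩
  have hm : (-(31 / 20) : ℝ) ∈ AB := ⟨le_rfl, by norm_num⟩
  have hp : (31 / 20 : ℝ) ∈ AB := ⟨by norm_num, le_rfl⟩
  set am := gp c (-(31 / 20)) with ham
  set ap := gp c (31 / 20) with hap
  have em : it c 2 am = -(31 / 20) := it_two_gp hc hm
  have ep : it c 2 ap = 31 / 20 := it_two_gp hc hp
  have hamV := hgV _ hm
  have hapV := hgV _ hp
  rw [← ham] at hamV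
  rw [← hap] at hapV
  have hamAB : am ∈ AB := ⟨by linarith [hamV.1], by linarith [hamV.2]⟩
  have hapAB : ap ∈ AB := ⟨by linarith [hapV.1], by linarith [hapV.2]⟩
  have l1 : ap < q := V_lt hc hapV hqV (by rw [ep, q3]; linarith)
  have l2 : q < am := V_lt hc hqV hamV (by rw [em, q3]; linarith)
  set x1 := gp c am with hx1
  set x2 := gp c ap with hx2
  have e1 : it c 2 x1 = am := it_two_gp hc hamAB
  have e2 : it c 2 x2 = ap := it_two_gp hc hapAB
  have hx1V := hgV _ hamAB
  have hx2V := hgV _ hapAB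
  rw [← hx1] at hx1V
  rw [← hx2] at hx2V
  have l3 : x1 < q := V_lt hc hx1V hqV (by rw [e1, q3]; exact l2)
  have l4 : q < x2 := V_lt hc hqV hx2V (by rw [e2, q3]; exact l1)
  have e14 : it c 4 x1 = -(31 / 20) := by
    rw [show 4 = 2 + 2 from rfl, it_add, e1, em]
  have e24 : it c 4 x2 = 31 / 20 := by
    rw [show 4 = 2 + 2 from rfl, it_add, e2, ep]
  have hbr : Br c 4 x1 x2 (49 / 25) q := by
    refine ⟨by linarith [hx1V.1], l3, l4, by linarith [hx2V.2], by norm_num, fun x hx => ?_,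
      by rw [e14]; norm_num, by rw [e24]; norm_num, ?_⟩
    · have hxV : x ∈ Icc (1 / 5 : ℝ) (6 / 5) := ⟨hx1V.1.trans hx.1, hx.2.trans hx2V.2⟩
      have hxm : it c 2 x ≤ am := by
        have := expand_V hc hx1V hxV hx.1
        rw [e1] at this
        linarith [hx.1]
      have hxp : ap ≤ it c 2 x := by
        have := expand_V hc hxV hx2V hx.2
        rw [e2] at this
        linarith [hx.2]
      have hxV2 : it c 2 x ∈ Icc (1 / 5 : ℝ) (6 / 5) := ⟨hapV.1.trans hxp, hxm.trans hamV.2⟩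
      have d1 := dv_V hc hxV
      have d2 := dv_V hc hxV2
      rw [show 4 = 2 + 2 from rfl, dv_add]
      nlinarith
    · rw [show 4 = 2 + 2 from rfl, it_add, q3, q3]
  refine ⟨c, q, 4, 3, x1, x2, 49 / 25, ⟨hc1, hc2⟩, hbr, hc3, fun s hs => ?_⟩
  rcases hs with e | e
  · have hgb : ∀ y ∈ AB, gb c false y ∈ AB := fun y hy => AA_sub (gb_mem false hc hy)
    refine ⟨2 + 2, fun y => gb c true (gb c false y),
      ((gb_cont c true).comp (gb_cont c false)).continuousOn, fun y hy => gb_mem true hc (hgb y hy),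
      fun y hy => ?_, fun y hy => ?_, fun y hy => ?_⟩
    · rw [e, one_mul, sub_pos]
      apply V_lt hc hqV
      · have : gb c true (gb c false y) = gp c (gb c false y) := by simp [gb]
        change gb c true (gb c false y) ∈ _
        rw [this]
        exact hgV _ (hgb y hy)
      · rw [it_two_gb true hc (hgb y hy), q3]
        have := (gp_spec hc hy).1
        simp only [gb, Bool.false_eq_true, if_false]
        linarith
    · rw [it_add, it_two_gb true hc (hgb y hy), it_two_gb false hc hy]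
    · rw [dv_add, it_two_gb true hc (hgb y hy)]
      exact mul_ne_zero (dv_two_gb true hc (hgb y hy)) (dv_two_gb false hc hy)
  · refine ⟨2, gb c false, (gb_cont c false).continuousOn, fun y hy => gb_mem false hc hy,
      fun y hy => ?_, fun y hy => it_two_gb false hc hy, fun y hy => dv_two_gb false hc hy⟩
    have := (gp_spec hc hy).1
    rw [e]
    simp only [gb, Bool.false_eq_true, if_false]
    linarith

end Pool.Agent.W748.NM
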