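import Mathlib
import Pool.Agent.W748.NM.Base

set_option autoImplicit false

open Filter Topology Set MeasureTheory

namespace Pool.Agent.W748.NM

/-- the state space -/
abbrev II : Type := ↥(Icc (-2 : ℝ) 2)

theorem m22 : (-2 : ℝ) ≤ 2 := by norm_num

/-- projection to the state space -/
noncomputable def io (x : ℝ) : II := projIcc (-2 : ℝ) 2 m22 x

theorem io_cont : Continuous io := continuous_projIcc (h := m22)

theorem io_of_mem {x : ℝ} (h : x ∈ Icc (-2 : ℝ) 2) : io x = ⟨x, h⟩ := projIcc_of_mem m22 h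

theorem io_val {x : ℝ} (h : x ∈ Icc (-2 : ℝ) 2) : ((io x : II) : ℝ) = x := by
  rw [io_of_mem h]

/-- truncated dynamics on the state space -/
noncomputable def T (c : ℝ) (x : II) : II := io ((x : ℝ) ^ 2 + c)

theorem T_cont : Continuous fun q : ℝ × II => T q.1 q.2 := by
  unfold T
  exact io_cont.comp (by fun_prop)

/-- iterates of the truncated dynamics -/
noncomputable def Tn (c : ℝ) : ℕ → II → II
  | 0, x => x
  | n + 1, x => T c (Tn c n x)

theorem Tn_cont (n : ℕ) : Continuous fun q : ℝ × II => Tn q.1 n q.2 := by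
  induction n with
  | zero => exact continuous_snd
  | succ n ih =>
    simp only [Tn]
    exact T_cont.comp (continuous_fst.prodMk ih)

theorem Tn_io {c x : ℝ} (hc : c ∈ PR) (hx : x ∈ Icc c (c ^ 2 + c)) (n : ℕ) :
    Tn c n (io x) = io (it c n x) := by
  have h1 : -2 ≤ c := hc.1
  have h2 : c ≤ -1 := by linarith [hc.2]
  induction n with
  | zero => rfl
  | succ n ih =>
    have h3 := core_sub h1 h2 (it_mem h1 h2 hx n)
    rw [Tn, ih, T, io_val h3, it_succ]

/-- `μ` integrates continuous functions like the orbit measure of `p` -/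
def OM (c : ℝ) (n : ℕ) (p : ℝ) (μ : ProbabilityMeasure II) : Prop :=
  ∀ φ : C(II, ℝ), ∫ x, φ x ∂(μ : Measure II) = S c n (fun t => φ (io t)) p / n

theorem exists_OM (c : ℝ) {n : ℕ} (hn : 0 < n) (p : ℝ) : ∃ μ : ProbabilityMeasure II,
    OM c n p μ := by
  have hn' : (n : ENNReal) ≠ 0 := by exact_mod_cast hn.ne'
  have hn'' : (n : ENNReal) ≠ ⊤ := ENNReal.natCast_ne_top n
  let μ : Measure II := (n : ENNReal)⁻¹ • ∑ i ∈ Finset.range n, Measure.dirac (io (it c i p))
  have hμ : IsProbabilityMeasure μ := by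
    constructor
    simp only [μ, Measure.smul_apply, Measure.finsetSum_apply, measure_univ, Finset.sum_const,
      Finset.card_range, nsmul_eq_mul, mul_one, smul_eq_mul]
    exact ENNReal.inv_mul_cancel hn' hn''
  refine ⟨⟨μ, hμ⟩, fun φ => ?_⟩
  have hint : ∀ i ∈ Finset.range n, Integrable (fun x => φ x) (Measure.dirac (io (it c i p))) :=
    fun i _ => φ.continuous.integrable_of_hasCompactSupport (HasCompactSupport.of_compactSpace _)
  change ∫ x, φ x ∂μ = _
  simp only [μ]
  rw [integral_smul_measure, integral_finsetSum_measure hint]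
  simp only [integral_dirac, ENNReal.toReal_inv, ENNReal.toReal_natCast, smul_eq_mul, S]
  rw [div_eq_inv_mul]

/-- continuity of the pairing -/
theorem pair_cont : Continuous fun q : C(II, ℝ) × ProbabilityMeasure II =>
    ∫ x, q.1 x ∂(q.2 : Measure II) := by
  rw [continuous_iff_continuousAt]
  rintro ⟨φ0, μ0⟩
  have h1 : Tendsto (fun q : C(II, ℝ) × ProbabilityMeasure II => ∫ x, φ0 x ∂(q.2 : Measure II))
      (𝓝 (φ0, μ0)) (𝓝 (∫ x, φ0 x ∂(μ0 : Measure II))) := by
    have h2 := (ProbabilityMeasure.tendsto_iff_forall_integral_tendsto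
      (F := 𝓝 μ0) (μs := id) (μ := μ0)).1 tendsto_id
      (BoundedContinuousFunction.mkOfCompact φ0)
    exact h2.comp (continuous_snd.tendsto (φ0, μ0))
  have h3 : Tendsto (fun q : C(II, ℝ) × ProbabilityMeasure II =>
      ∫ x, (q.1 - φ0) x ∂(q.2 : Measure II)) (𝓝 (φ0, μ0)) (𝓝 0) := by
    have h4 : Tendsto (fun q : C(II, ℝ) × ProbabilityMeasure II => ‖q.1 - φ0‖)
        (𝓝 (φ0, μ0)) (𝓝 0) := by
      have : Continuous fun q : C(II, ℝ) × ProbabilityMeasure II => ‖q.1 - φ0‖ := by fun_prop
      exact this.tendsto' _ _ (by simp)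
    refine squeeze_zero_norm (fun q => ?_) h4
    have := norm_integral_le_of_norm_le_const (μ := (q.2 : Measure II)) (f := fun x => (q.1 - φ0) x)
      (C := ‖q.1 - φ0‖) (Eventually.of_forall fun x => (q.1 - φ0).norm_coe_le_norm x)
    simpa using this
  have h5 := h1.add h3
  rw [add_zero] at h5
  refine h5.congr fun q => ?_
  have i1 : Integrable (fun x => φ0 x) (q.2 : Measure II) :=
    φ0.continuous.integrable_of_hasCompactSupport (HasCompactSupport.of_compactSpace _)
  have i2 : Integrable (fun x => (q.1 - φ0) x) (q.2 : Measure II) :=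
    (q.1 - φ0).continuous.integrable_of_hasCompactSupport (HasCompactSupport.of_compactSpace _)
  rw [← integral_add i1 i2]
  congr 1
  funext x
  simp

theorem cont_int {P Y : Type*} [TopologicalSpace P] [TopologicalSpace Y] {F : P × II → ℝ}
    (hF : Continuous F) {g : Y → P} (hg : Continuous g) {μ : Y → ProbabilityMeasure II}
    (hμ : Continuous μ) : Continuous fun y => ∫ x, F (g y, x) ∂(μ y : Measure II) := by
  let Fc : C(P × II, ℝ) := ⟨F, hF⟩
  have h1 : Continuous fun y => (Fc.curry (g y), μ y) :=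
    (Fc.curry.continuous.comp hg).prodMk hμ
  exact pair_cont.comp h1

theorem integrable_cont {φ : II → ℝ} (hφ : Continuous φ) (μ : ProbabilityMeasure II) :
    Integrable φ (μ : Measure II) :=
  hφ.integrable_of_hasCompactSupport (HasCompactSupport.of_compactSpace _)

/-- integral of any continuous function for orbit measures -/
theorem OM.integral {c p : ℝ} {n : ℕ} {μ : ProbabilityMeasure II} (h : OM c n p μ)
    {φ : II → ℝ} (hφ : Continuous φ) :
    ∫ x, φ x ∂(μ : Measure II) = S c n (fun t => φ (io t)) p / n := h ⟨φ, hφ⟩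

/-- convergence of orbit measures -/
theorem OM.tendsto {ι : Type*} {F : Filter ι} {cs ps : ι → ℝ} {ns : ι → ℕ}
    {μs : ι → ProbabilityMeasure II} {c p : ℝ} {n : ℕ} {μ : ProbabilityMeasure II}
    (hs : ∀ᶠ i in F, OM (cs i) (ns i) (ps i) (μs i)) (h : OM c n p μ)
    (hlim : ∀ φ : ℝ → ℝ, Continuous φ →
      Tendsto (fun i => S (cs i) (ns i) φ (ps i) / (ns i)) F (𝓝 (S c n φ p / n))) :
    Tendsto μs F (𝓝 μ) := by
  rw [ProbabilityMeasure.tendsto_iff_forall_integral_tendsto]
  intro φ
  rw [h.integral φ.continuous]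
  refine (hlim (fun t => φ (io t)) (φ.continuous.comp io_cont)).congr' ?_
  filter_upwards [hs] with i hi
  rw [hi.integral φ.continuous]

end Pool.Agent.W748.NM
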