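import Mathlib
import Pool.Agent.W748.NM.Meas

set_option autoImplicit false

open Filter Topology Set MeasureTheory

namespace Pool.Agent.W748.NM

variable {c p x1 x2 κ : ℝ} {n k : ℕ} {μ : ProbabilityMeasure II}

theorem S_cont2 {φ : ℝ → ℝ} (hφ : Continuous φ) (n : ℕ) :
    Continuous fun q : ℝ × ℝ => S q.1 n φ q.2 := by
  unfold S
  exact continuous_finsetSum _ fun i _ => hφ.comp (it_cont i)

/-- truncated logarithm -/
noncomputable def ell (M : ℕ) (x : ℝ) : ℝ := Real.log (max |2 * x| (Real.exp (-M)))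

theorem ell_cont (M : ℕ) : Continuous (ell M) := by
  unfold ell
  refine Continuous.log (by fun_prop) fun x => ?_
  exact (lt_max_of_lt_right (Real.exp_pos _)).ne'

theorem le_ell (M : ℕ) {x : ℝ} (hx : x ≠ 0) : Real.log |2 * x| ≤ ell M x := by
  unfold ell
  apply Real.log_le_log
  · exact abs_pos.2 (by simpa using hx)
  · exact le_max_left _ _

theorem ell_eq {M : ℕ} {x : ℝ} (h : Real.exp (-M) ≤ |2 * x|) : ell M x = Real.log |2 * x| := by
  unfold ell
  rw [max_eq_left h]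

theorem Br.orbit_core (h : Br c n x1 x2 κ p) (hc : c ∈ PR) (i : ℕ) :
    it c i p ∈ Icc c (c ^ 2 + c) :=
  it_mem hc.1 (by linarith [hc.2]) (AB_core hc (AA_sub h.pAA)) i

theorem Br.orbit_mem (h : Br c n x1 x2 κ p) (hc : c ∈ PR) (i : ℕ) :
    it c i p ∈ Icc (-2 : ℝ) 2 :=
  core_sub hc.1 (by linarith [hc.2]) (h.orbit_core hc i)

theorem Br.io_orbit (h : Br c n x1 x2 κ p) (hc : c ∈ PR) (i : ℕ) :
    ((io (it c i p) : II) : ℝ) = it c i p := io_val (h.orbit_mem hc i)

theorem Br.it_ne (h : Br c n x1 x2 κ p) {i : ℕ} (hi : i < n) : it c i p ≠ 0 := by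
  intro h0
  have h1 : dv c n p = 0 := by
    rw [dv, Finset.prod_eq_zero_iff]
    exact ⟨i, Finset.mem_range.2 hi, by rw [h0]; ring⟩
  have h2 := h.hd p h.memp
  rw [h1] at h2
  linarith [h.hκ]

theorem Br.it_mod (h : Br c n x1 x2 κ p) (i : ℕ) : it c (i % n) p = it c i p := by
  have : Function.IsPeriodicPt (f c) n p := h.hp
  exact this.iterate_mod_apply i

theorem Br.dvpos (h : Br c n x1 x2 κ p) : 0 < dv c n p := by
  have := h.hd p h.memp
  linarith [h.hκ]

theorem Br.log_pos (h : Br c n x1 x2 κ p) : 0 < Real.log (dv c n p) :=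
  Real.log_pos (h.hκ.trans_le (h.hd p h.memp))

/-- Birkhoff sums are invariant along the orbit -/
theorem Br.S_shift (h : Br c n x1 x2 κ p) (φ : ℝ → ℝ) (i : ℕ) :
    S c n φ (it c i p) = S c n φ p := by
  have h1 := S_add c n i φ p
  have h2 := S_add c i n φ p
  rw [h.hp] at h2
  rw [add_comm i n] at h2
  linarith

theorem S_congr {φ ψ : ℝ → ℝ} {x : ℝ} (h : ∀ i < n, φ (it c i x) = ψ (it c i x)) :
    S c n φ x = S c n ψ x :=
  Finset.sum_congr rfl fun i hi => h i (Finset.mem_range.1 hi)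

theorem Br.log_eq (h : Br c n x1 x2 κ p) :
    S c n (fun x => Real.log |2 * x|) p = Real.log (dv c n p) := by
  unfold S dv
  rw [Real.log_prod]
  · refine Finset.sum_congr rfl fun i _ => ?_
    beta_reduce
    rw [Real.log_abs]
  · intro i hi
    have := h.it_ne (Finset.mem_range.1 hi)
    simpa using this

/-- orbit data set -/
def E : Set (ℝ × ProbabilityMeasure II) :=
  {x | ∃ (p : ℝ) (n k : ℕ) (x1 x2 κ : ℝ), Good x.1 p n k x1 x2 κ ∧ OM x.1 n p x.2}

/-- orbit data with small exponent -/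
def Et (τ : ℝ) : Set (ℝ × ProbabilityMeasure II) :=
  {x | ∃ (p : ℝ) (n k : ℕ) (x1 x2 κ : ℝ), Good x.1 p n k x1 x2 κ ∧ OM x.1 n p x.2 ∧
    Real.log (dv x.1 n p) / n < τ}

theorem Et_sub (τ : ℝ) : Et τ ⊆ E := fun _ ⟨p, n, k, x1, x2, κ, h1, h2, _⟩ =>
  ⟨p, n, k, x1, x2, κ, h1, h2⟩

/-- cylinder condition -/
def W3 (v : List Bool) : Set (ℝ × ProbabilityMeasure II) :=
  {x | 0 < ∫ t : II, psi x.1 v t ∂(x.2 : Measure II)}

theorem psi_cont' (v : List Bool) : Continuous fun q : ℝ × II => psi q.1 v q.2 :=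
  (psi_cont v).comp (continuous_fst.prodMk (continuous_subtype_val.comp continuous_snd))

theorem W3_open (v : List Bool) : IsOpen (W3 v) := by
  have h := cont_int (P := ℝ) (Y := ℝ × ProbabilityMeasure II) (psi_cont' v) continuous_fst
    continuous_snd
  exact isOpen_lt continuous_const h

theorem W3_of {v : List Bool} {i : ℕ} (h : Br c n x1 x2 κ p) (hc : c ∈ PR) (hμ : OM c n p μ)
    (hi : 0 < psi c v (it c i p)) : 0 < ∫ t : II, psi c v t ∂(μ : Measure II) := by
  have hcont : Continuous fun t : II => psi c v t :=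
    (psi_cont' v).comp (continuous_const.prodMk continuous_id)
  rw [hμ.integral hcont]
  have hn : (0 : ℝ) < n := by exact_mod_cast h.npos
  refine div_pos ?_ hn
  unfold S
  refine Finset.sum_pos' (fun j _ => psi_nonneg _ _ _) ⟨i % n, Finset.mem_range.2
    (Nat.mod_lt _ h.npos), ?_⟩
  beta_reduce
  rw [h.io_orbit hc, h.it_mod]
  exact hi

theorem step {x : ℝ × ProbabilityMeasure II} {τ0 τ : ℝ} (hx : x ∈ Et τ0) (v : List Bool)
    (hτ : τ0 / 2 ≤ τ) : x ∈ closure (Et τ ∩ W3 v) := by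
  obtain ⟨p0, n, k, x1, x2, κ, hG, hOM, hχ⟩ := hx
  obtain ⟨c0, μ0⟩ := x
  simp only at hG hOM hχ
  obtain ⟨G, s, r0, mk, Mk, m, Φ, i0, hSU⟩ := hG.exists_SU v
  obtain ⟨N0, n', w1, w2, p1, H, Hχ, Hφ⟩ := hSU.phase
  set χ := Real.log (dv c0 n p0) / n with hχdef
  have hcPR := hG.cPR
  have hmeas : ∀ N, ∃ μ : ProbabilityMeasure II, N0 ≤ N → OM c0 (n' N) (p1 N) μ := by
    intro N
    by_cases hN : N0 ≤ N
    · obtain ⟨μ, hμ⟩ := exists_OM c0 (H N hN).1.npos (p1 N)
      exact ⟨μ, fun _ => hμ⟩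
    · exact ⟨μ0, fun h => absurd h hN⟩
  choose μN hμN using hmeas
  -- Claim B
  have claimB : Tendsto (fun N => ((c0, μN N) : ℝ × ProbabilityMeasure II)) atTop
      (𝓝 (c0, μ0)) := by
    refine Filter.Tendsto.prodMk_nhds tendsto_const_nhds ?_
    refine OM.tendsto (cs := fun _ => c0) (ps := p1) (ns := n') (c := c0) (p := p0) (n := n)
      ?_ hOM ?_
    · filter_upwards [eventually_ge_atTop N0] with N hN
      exact hμN N hN
    · intro φ hφ
      rw [Metric.tendsto_atTop]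
      intro ε hε
      obtain ⟨N1, hN1⟩ := Hφ φ hφ (ε / 2) (half_pos hε)
      refine ⟨max N0 N1, fun N hN => ?_⟩
      rw [Real.dist_eq]
      have := hN1 N ((le_max_right _ _).trans hN) ((le_max_left _ _).trans hN)
      linarith
  -- Claim A
  have claimA : ∀ᶠ N in atTop, ((c0, μN N) : ℝ × ProbabilityMeasure II) ∈
      closure (Et τ ∩ W3 v) := by
    have hε : 0 < (τ - χ / 2) / 2 := by linarith
    obtain ⟨N1, hN1⟩ := Hχ _ hε
    filter_upwards [eventually_ge_atTop N0, eventually_ge_atTop N1] with N hN hN'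
    obtain ⟨hB, hw1, hw2, -, -, i, hi⟩ := H N hN
    have hexp : Real.log (dv c0 (n' N) (p1 N)) / (n' N) < τ := by
      have := (abs_le.1 (hN1 N hN' hN)).2
      linarith
    have hpar : ∀ j : ℕ, ∃ (c1 q1 : ℝ) (k1 : ℕ), |c1 - c0| < 1 / ((j : ℝ) + 1) ∧
        |q1 - p1 N| < 1 / ((j : ℝ) + 1) ∧ Good c1 q1 (n' N) k1 (w1 N) (w2 N) ((1 + 2) / 2) :=
      fun j => hG.param hB hw1 hw2 (by positivity)
    choose cs qs ks h1 h2 h3 using hpar
    have hlimc : Tendsto cs atTop (𝓝 c0) := by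
      rw [tendsto_iff_dist_tendsto_zero]
      refine squeeze_zero (fun _ => dist_nonneg) (fun j => ?_) tendsto_one_div_add_atTop_nhds_zero_nat
      rw [Real.dist_eq]; exact (h1 j).le
    have hlimq : Tendsto qs atTop (𝓝 (p1 N)) := by
      rw [tendsto_iff_dist_tendsto_zero]
      refine squeeze_zero (fun _ => dist_nonneg) (fun j => ?_) tendsto_one_div_add_atTop_nhds_zero_nat
      rw [Real.dist_eq]; exact (h2 j).le
    have hlim2 : Tendsto (fun j => (cs j, qs j)) atTop (𝓝 (c0, p1 N)) :=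
      Filter.Tendsto.prodMk_nhds hlimc hlimq
    have hmeas2 : ∀ j, ∃ ν : ProbabilityMeasure II, OM (cs j) (n' N) (qs j) ν := fun j =>
      exists_OM _ hB.npos _
    choose ν hν using hmeas2
    have hνlim : Tendsto (fun j => ((cs j, ν j) : ℝ × ProbabilityMeasure II)) atTop
        (𝓝 (c0, μN N)) := by
      refine Filter.Tendsto.prodMk_nhds hlimc ?_
      refine OM.tendsto (cs := cs) (ps := qs) (ns := fun _ => n' N) (c := c0) (p := p1 N)
        (n := n' N) (Eventually.of_forall hν) (hμN N hN) ?_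
      intro φ hφ
      have hc : Continuous fun q : ℝ × ℝ => S q.1 (n' N) φ q.2 / (n' N) :=
        (S_cont2 hφ (n' N)).div_const _
      exact (hc.tendsto (c0, p1 N)).comp hlim2
    refine mem_closure_of_tendsto hνlim ?_
    have hev1 : ∀ᶠ j in atTop, Real.log (dv (cs j) (n' N) (qs j)) / (n' N) < τ := by
      have hc : ContinuousAt (fun q : ℝ × ℝ => Real.log (dv q.1 (n' N) q.2) / (n' N))
          (c0, p1 N) := by
        refine ContinuousAt.div_const ?_ _
        exact ((dv_cont (n' N)).continuousAt).log hB.dvpos.ne'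
      exact (hc.tendsto.comp hlim2).eventually (gt_mem_nhds hexp)
    have hev2 : ∀ᶠ j in atTop, 0 < psi (cs j) v (it (cs j) i (qs j)) := by
      have hc : Continuous fun q : ℝ × ℝ => psi q.1 v (it q.1 i q.2) :=
        (psi_cont v).comp (continuous_fst.prodMk (it_cont i))
      exact ((hc.tendsto (c0, p1 N)).comp hlim2).eventually (lt_mem_nhds hi)
    filter_upwards [hev1, hev2] with j a1 a2
    exact ⟨⟨qs j, n' N, ks j, w1 N, w2 N, (1 + 2) / 2, h3 j, hν j, a1⟩,
      W3_of (h3 j).br (h3 j).cPR (hν j) a2⟩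
  have := mem_closure_of_tendsto claimB claimA
  rwa [closure_closure] at this

theorem E_sub_Et {ε : ℝ} (hε : 0 < ε) : E ⊆ closure (Et ε) := by
  have key : ∀ m : ℕ, Et ((3 / 2) ^ m * ε) ⊆ closure (Et ε) := by
    intro m
    induction m with
    | zero => simpa using subset_closure
    | succ m ih =>
      intro x hx
      have h1 : x ∈ closure (Et ((3 / 2) ^ m * ε) ∩ W3 []) := by
        refine step hx [] ?_
        have : 0 < (3 / 2 : ℝ) ^ m * ε := by positivity
        rw [pow_succ]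
        linarith
      have h2 : closure (Et ((3 / 2) ^ m * ε) ∩ W3 []) ⊆ closure (Et ε) := by
        refine closure_minimal (fun y hy => ih hy.1) isClosed_closure
      exact h2 h1
  rintro x ⟨p, n, k, x1, x2, κ, h1, h2⟩
  obtain ⟨m, hm⟩ := pow_unbounded_of_one_lt (Real.log (dv x.1 n p) / n / ε)
    (by norm_num : (1 : ℝ) < 3 / 2)
  rw [div_lt_iff₀ hε] at hm
  exact key m ⟨p, n, k, x1, x2, κ, h1, h2, hm⟩

theorem E_sub_EtW {ε : ℝ} (hε : 0 < ε) (v : List Bool) : E ⊆ closure (Et ε ∩ W3 v) := by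
  refine (E_sub_Et hε).trans (closure_minimal (fun x hx => ?_) isClosed_closure)
  exact step hx v (by linarith)

/-- ergodicity condition -/
def W1 (φ : C(II, ℝ)) (ε : ℝ) : Set (ℝ × ProbabilityMeasure II) :=
  {x | ∃ m : ℕ, 0 < m ∧ ∫ t : II, |(∑ i ∈ Finset.range m, φ (Tn x.1 i t)) / m -
    ∫ y, φ y ∂(x.2 : Measure II)| ∂(x.2 : Measure II) < ε}

theorem W1_open (φ : C(II, ℝ)) (ε : ℝ) : IsOpen (W1 φ ε) := by
  have : W1 φ ε = ⋃ m ∈ {m : ℕ | 0 < m}, {x : ℝ × ProbabilityMeasure II |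
      ∫ t : II, |(∑ i ∈ Finset.range m, φ (Tn x.1 i t)) / m -
      ∫ y, φ y ∂(x.2 : Measure II)| ∂(x.2 : Measure II) < ε} := by
    ext x; simp [W1]
  rw [this]
  refine isOpen_biUnion fun m _ => ?_
  have hint : Continuous fun x : ℝ × ProbabilityMeasure II => ∫ y, φ y ∂(x.2 : Measure II) :=
    pair_cont.comp (continuous_const.prodMk continuous_snd)
  have hF : Continuous fun q : (ℝ × ℝ) × II =>
      |(∑ i ∈ Finset.range m, φ (Tn q.1.1 i q.2)) / m - q.1.2| := by
    refine Continuous.abs (Continuous.sub (Continuous.div_const ?_ _) (by fun_prop))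
    refine continuous_finsetSum _ fun i _ => φ.continuous.comp ?_
    exact (Tn_cont i).comp ((continuous_fst.comp continuous_fst).prodMk continuous_snd)
  have h := cont_int (P := ℝ × ℝ) (Y := ℝ × ProbabilityMeasure II) hF
    (g := fun x => (x.1, ∫ y, φ y ∂(x.2 : Measure II))) (continuous_fst.prodMk hint) continuous_snd
  exact isOpen_lt h continuous_const

theorem E_sub_W1 (φ : C(II, ℝ)) {ε : ℝ} (hε : 0 < ε) : E ⊆ W1 φ ε := by
  rintro ⟨c, μ⟩ ⟨p, n, k, x1, x2, κ, hG, hOM⟩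
  simp only at hG hOM
  have hc := hG.cPR
  have hn : (0 : ℝ) < n := by exact_mod_cast hG.br.npos
  refine ⟨n, hG.br.npos, ?_⟩
  simp only
  have hcont : Continuous fun t : II => |(∑ i ∈ Finset.range n, φ (Tn c i t)) / n -
      ∫ y, φ y ∂(μ : Measure II)| := by
    refine Continuous.abs (Continuous.sub (Continuous.div_const ?_ _) continuous_const)
    refine continuous_finsetSum _ fun i _ => φ.continuous.comp ?_
    exact (Tn_cont i).comp (continuous_const.prodMk continuous_id)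
  rw [hOM.integral hcont]
  have hz : S c n (fun t => |(∑ i ∈ Finset.range n, φ (Tn c i (io t))) / n -
      ∫ y, φ y ∂(μ : Measure II)|) p = 0 := by
    unfold S
    refine Finset.sum_eq_zero fun j _ => ?_
    have h1 : ∀ i ∈ Finset.range n, φ (Tn c i (io (it c j p))) = φ (io (it c i (it c j p))) := by
      intro i _
      rw [Tn_io hc (hG.br.orbit_core hc j)]
    beta_reduce
    rw [Finset.sum_congr rfl h1, hOM.integral φ.continuous]
    have h2 := hG.br.S_shift (fun t => φ (io t)) j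
    unfold S at h2
    rw [h2]
    unfold S
    simp
  rw [hz, zero_div]
  exact hε

/-- small exponent condition -/
def W2 (ε : ℝ) : Set (ℝ × ProbabilityMeasure II) :=
  {x | ∃ M : ℕ, ∫ t : II, ell M t ∂(x.2 : Measure II) < ε}

theorem W2_open (ε : ℝ) : IsOpen (W2 ε) := by
  have : W2 ε = ⋃ M : ℕ, {x : ℝ × ProbabilityMeasure II |
      ∫ t : II, ell M t ∂(x.2 : Measure II) < ε} := by
    ext x; simp [W2]
  rw [this]
  refine isOpen_iUnion fun M => ?_
  have hF : Continuous fun q : Unit × II => ell M q.2 := by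
    exact (ell_cont M).comp (continuous_subtype_val.comp continuous_snd)
  have h := cont_int (P := Unit) (Y := ℝ × ProbabilityMeasure II) hF
    (g := fun _ => ()) continuous_const continuous_snd
  exact isOpen_lt h continuous_const

theorem OM.ell_integral {M : ℕ} (h : Br c n x1 x2 κ p) (hc : c ∈ PR) (hμ : OM c n p μ) :
    ∫ t : II, ell M t ∂(μ : Measure II) = S c n (ell M) p / n := by
  have hcont : Continuous fun t : II => ell M t := (ell_cont M).comp continuous_subtype_val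
  rw [hμ.integral hcont]
  congr 1
  refine S_congr fun i _ => ?_
  rw [h.io_orbit hc]

theorem Et_sub_W2 (ε : ℝ) : Et ε ⊆ W2 ε := by
  rintro ⟨c, μ⟩ ⟨p, n, k, x1, x2, κ, hG, hOM, hχ⟩
  simp only at hG hOM hχ
  have hc := hG.cPR
  -- choose M
  have hM : ∃ M : ℕ, ∀ i < n, Real.exp (-M) ≤ |2 * it c i p| := by
    have h1 : ∀ i < n, ∃ M : ℕ, Real.exp (-M) ≤ |2 * it c i p| := by
      intro i hi
      have h2 : 0 < |2 * it c i p| := abs_pos.2 (by simpa using hG.br.it_ne hi)
      obtain ⟨M, hM⟩ := exists_nat_ge (-Real.log |2 * it c i p|)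
      refine ⟨M, ?_⟩
      rw [← Real.exp_log h2]
      apply Real.exp_le_exp.2
      linarith
    choose! M hM using h1
    refine ⟨(Finset.range n).sup M, fun i hi => (Real.exp_le_exp.2 ?_).trans (hM i hi)⟩
    have : M i ≤ (Finset.range n).sup M := Finset.le_sup (Finset.mem_range.2 hi)
    have : (M i : ℝ) ≤ ((Finset.range n).sup M : ℕ) := by exact_mod_cast this
    linarith
  obtain ⟨M, hM⟩ := hM
  refine ⟨M, ?_⟩
  simp only
  rw [hOM.ell_integral hG.br hc, S_congr (ψ := fun x => Real.log |2 * x|) fun i hi =>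
    ell_eq (hM i hi), hG.br.log_eq]
  exact hχ

/-- closeness to an expanding periodic orbit -/
def W4 (φ : C(II, ℝ)) (ε : ℝ) : Set (ℝ × ProbabilityMeasure II) :=
  {x | ∃ (n : ℕ) (x1 x2 κ p : ℝ), Br x.1 n x1 x2 κ p ∧
    |S x.1 n (fun t => φ (io t)) p / n - ∫ t, φ t ∂(x.2 : Measure II)| < ε}

theorem W4_open (φ : C(II, ℝ)) (ε : ℝ) : IsOpen (W4 φ ε) := by
  rw [isOpen_iff_mem_nhds]
  rintro ⟨c0, μ0⟩ ⟨n, x1, x2, κ, p0, hB, hlt⟩
  simp only at hB hlt
  have hκ := hB.hκ
  set φ' : ℝ → ℝ := fun t => φ (io t) with hφ'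
  have hφc : Continuous φ' := φ.continuous.comp io_cont
  have hHc : Continuous fun q : ℝ × ℝ => S q.1 n φ' q.2 / n := (S_cont2 hφc n).div_const _
  set ε' := ε - |S c0 n φ' p0 / n - ∫ t, φ t ∂(μ0 : Measure II)| with hε'
  have hε'0 : 0 < ε' := by rw [hε']; linarith
  obtain ⟨δ, hδ, h1⟩ := Metric.continuousAt_iff.1 (hHc.continuousAt (x := (c0, p0))) (ε' / 2)
    (by linarith)
  have hint : Continuous fun x : ℝ × ProbabilityMeasure II => ∫ y, φ y ∂(x.2 : Measure II) :=
    pair_cont.comp (continuous_const.prodMk continuous_snd)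
  have ev1 : ∀ᶠ x in 𝓝 (c0, μ0), |∫ t, φ t ∂((x : ℝ × ProbabilityMeasure II).2 : Measure II) -
      ∫ t, φ t ∂(μ0 : Measure II)| < ε' / 2 := by
    have := Metric.tendsto_nhds.1 (hint.tendsto (c0, μ0)) (ε' / 2) (by linarith)
    filter_upwards [this] with x hx
    rwa [Real.dist_eq] at hx
  have ev2' := hB.persist (κ' := (1 + κ) / 2) (by linarith)
  have ev3' : ∀ᶠ c in 𝓝 c0, |it c n p0 - p0| < δ * ((1 + κ) / 2 - 1) := by
    have hc : Continuous fun c => |it c n p0 - p0| :=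
      ((it_cont_c p0 n).sub continuous_const).abs
    have h1 : Tendsto (fun c => |it c n p0 - p0|) (𝓝 c0) (𝓝 0) :=
      hc.tendsto' _ _ (by rw [hB.hp, sub_self, abs_zero])
    exact h1.eventually (gt_mem_nhds (mul_pos hδ (by linarith)))
  have ev4' : ∀ᶠ c in 𝓝 c0, dist c c0 < δ := Metric.ball_mem_nhds c0 hδ
  have hfst : Tendsto (Prod.fst : ℝ × ProbabilityMeasure II → ℝ) (𝓝 (c0, μ0)) (𝓝 c0) :=
    continuous_fst.tendsto _
  filter_upwards [ev1, hfst.eventually ev2', hfst.eventually ev3', hfst.eventually ev4'] with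
    x a1 a2 a3 a4
  obtain ⟨p, hp⟩ := exists_fix hB.l1 (hB.l2.trans hB.l3) hB.l4 (by linarith : 1 < (1 + κ) / 2)
    a2.1 a2.2.1 a2.2.2
  refine ⟨n, x1, x2, (1 + κ) / 2, p, hp, ?_⟩
  have h2 := hp.near hB.memp
  have h4 : |p - p0| < δ := by
    have h4 : ((1 + κ) / 2 - 1) * |p - p0| < ((1 + κ) / 2 - 1) * δ := by linarith
    exact lt_of_mul_lt_mul_left h4 (by linarith)
  have h5 : dist (x.1, p) (c0, p0) < δ := by
    rw [Prod.dist_eq]
    exact max_lt a4 (by rw [Real.dist_eq]; exact h4)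
  have h6 := h1 h5
  rw [Real.dist_eq] at h6
  simp only at h6
  have h7 : |S x.1 n φ' p / n - ∫ t, φ t ∂(x.2 : Measure II)| ≤
      |S x.1 n φ' p / n - S c0 n φ' p0 / n| +
      |S c0 n φ' p0 / n - ∫ t, φ t ∂(μ0 : Measure II)| +
      |∫ t, φ t ∂(x.2 : Measure II) - ∫ t, φ t ∂(μ0 : Measure II)| := by
    have e : S x.1 n φ' p / n - ∫ t, φ t ∂(x.2 : Measure II) =
        (S x.1 n φ' p / n - S c0 n φ' p0 / n) +
        (S c0 n φ' p0 / n - ∫ t, φ t ∂(μ0 : Measure II)) -
        (∫ t, φ t ∂(x.2 : Measure II) - ∫ t, φ t ∂(μ0 : Measure II)) := by ring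
    rw [e]
    refine (abs_sub _ _).trans ?_
    have := abs_add_le (S x.1 n φ' p / n - S c0 n φ' p0 / n)
      (S c0 n φ' p0 / n - ∫ t, φ t ∂(μ0 : Measure II))
    linarith
  linarith

theorem E_sub_W4 (φ : C(II, ℝ)) {ε : ℝ} (hε : 0 < ε) : E ⊆ W4 φ ε := by
  rintro ⟨c, μ⟩ ⟨p, n, k, x1, x2, κ, hG, hOM⟩
  simp only at hG hOM
  refine ⟨n, x1, x2, κ, p, hG.br, ?_⟩
  simp only
  rw [hOM.integral φ.continuous, sub_self, abs_zero]
  exact hε

/-- closed conditions -/
def CC : Set (ℝ × ProbabilityMeasure II) :=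
  {x | x.1 ∈ PR ∧ (∀ φ : C(II, ℝ), ∫ t, φ (T x.1 t) ∂(x.2 : Measure II) =
      ∫ t, φ t ∂(x.2 : Measure II)) ∧
    (∫ t : II, max 0 ((t : ℝ) ^ 2 + x.1 - 2) ∂(x.2 : Measure II) = 0) ∧
    ∀ M : ℕ, 0 ≤ ∫ t : II, ell M t ∂(x.2 : Measure II)}

theorem CC_closed : IsClosed CC := by
  have h1 : IsClosed {x : ℝ × ProbabilityMeasure II | x.1 ∈ PR} :=
    isClosed_Icc.preimage continuous_fst
  have h2 : IsClosed {x : ℝ × ProbabilityMeasure II | ∀ φ : C(II, ℝ),
      ∫ t, φ (T x.1 t) ∂(x.2 : Measure II) = ∫ t, φ t ∂(x.2 : Measure II)} := by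
    rw [ofPred_forall]
    refine isClosed_iInter fun φ => ?_
    have a1 := cont_int (P := ℝ) (Y := ℝ × ProbabilityMeasure II)
      (F := fun q => φ (T q.1 q.2)) (φ.continuous.comp T_cont) continuous_fst continuous_snd
    have a2 : Continuous fun x : ℝ × ProbabilityMeasure II => ∫ y, φ y ∂(x.2 : Measure II) :=
      pair_cont.comp (continuous_const.prodMk continuous_snd)
    exact isClosed_eq a1 a2
  have h3 : IsClosed {x : ℝ × ProbabilityMeasure II |
      ∫ t : II, max 0 ((t : ℝ) ^ 2 + x.1 - 2) ∂(x.2 : Measure II) = 0} := by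
    have a1 := cont_int (P := ℝ) (Y := ℝ × ProbabilityMeasure II)
      (F := fun q => max 0 ((q.2 : ℝ) ^ 2 + q.1 - 2)) (by fun_prop) continuous_fst continuous_snd
    exact isClosed_eq a1 continuous_const
  have h4 : IsClosed {x : ℝ × ProbabilityMeasure II |
      ∀ M : ℕ, 0 ≤ ∫ t : II, ell M t ∂(x.2 : Measure II)} := by
    rw [ofPred_forall]
    refine isClosed_iInter fun M => ?_
    have hF : Continuous fun q : Unit × II => ell M q.2 := by
      exact (ell_cont M).comp (continuous_subtype_val.comp continuous_snd)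
    have h := cont_int (P := Unit) (Y := ℝ × ProbabilityMeasure II) hF
      (g := fun _ => ()) continuous_const continuous_snd
    exact isClosed_le continuous_const h
  exact h1.inter (h2.inter (h3.inter h4))

theorem E_sub_CC : E ⊆ CC := by
  rintro ⟨c, μ⟩ ⟨p, n, k, x1, x2, κ, hG, hOM⟩
  simp only at hG hOM
  have hc := hG.cPR
  have hn : (0 : ℝ) < n := by exact_mod_cast hG.br.npos
  refine ⟨hc, fun φ => ?_, ?_, fun M => ?_⟩
  · simp only
    have hcont : Continuous fun t => φ (T c t) :=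
      φ.continuous.comp (T_cont.comp (continuous_const.prodMk continuous_id))
    rw [hOM.integral hcont, hOM.integral φ.continuous]
    congr 1
    have h1 : S c n (fun t => φ (T c (io t))) p = S c n (fun t => φ (io t)) (it c 1 p) := by
      unfold S
      refine Finset.sum_congr rfl fun i _ => ?_
      have e1 : T c (io (it c i p)) = io (it c 1 (it c i p)) := by
        have := Tn_io hc (hG.br.orbit_core hc i) 1
        exact this
      simp only
      rw [e1, ← it_add, ← it_add, add_comm]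
    rw [h1, hG.br.S_shift]
  · simp only
    rw [hOM.integral (by fun_prop)]
    have : S c n (fun t => max 0 (((io t : II) : ℝ) ^ 2 + c - 2)) p = 0 := by
      unfold S
      refine Finset.sum_eq_zero fun i _ => ?_
      have h1 := hG.br.orbit_mem hc (i + 1)
      rw [it_succ] at h1
      beta_reduce
      rw [hG.br.io_orbit hc]
      exact max_eq_left (by linarith [h1.2])
    rw [this, zero_div]
  · simp only
    rw [hOM.ell_integral hG.br hc]
    refine div_nonneg ?_ hn.le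
    have h1 : S c n (fun x => Real.log |2 * x|) p ≤ S c n (ell M) p :=
      Finset.sum_le_sum fun i hi => le_ell M (hG.br.it_ne (Finset.mem_range.1 hi))
    rw [hG.br.log_eq] at h1
    linarith [hG.br.log_pos]

/-- the generic point -/
theorem exists_generic : ∃ x : ℝ × ProbabilityMeasure II, x ∈ CC ∧
    (∀ i j : ℕ, x ∈ W1 (TopologicalSpace.denseSeq C(II, ℝ) i) (1 / ((j : ℝ) + 1))) ∧
    (∀ j : ℕ, x ∈ W2 (1 / ((j : ℝ) + 1))) ∧ (∀ v, x ∈ W3 v) ∧
    (∀ i j : ℕ, x ∈ W4 (TopologicalSpace.denseSeq C(II, ℝ) i) (1 / ((j : ℝ) + 1))) := by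
  set X : Set (ℝ × ProbabilityMeasure II) := closure E with hX
  have hXCC : X ⊆ CC := closure_minimal E_sub_CC CC_closed
  have hXcomp : IsCompact X := by
    refine IsCompact.of_isClosed_subset (s := PR ×ˢ univ) (isCompact_Icc.prod isCompact_univ)
      isClosed_closure fun x hx => ⟨(hXCC hx).1, mem_univ _⟩
  have : CompactSpace ↥X := isCompact_iff_compactSpace.1 hXcomp
  let φs := TopologicalSpace.denseSeq C(II, ℝ)
  let W : (ℕ × ℕ) × List Bool → Set (ℝ × ProbabilityMeasure II) := fun q =>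
    W1 (φs q.1.1) (1 / ((q.1.2 : ℝ) + 1)) ∩ W2 (1 / ((q.1.2 : ℝ) + 1)) ∩ W3 q.2 ∩
      W4 (φs q.1.1) (1 / ((q.1.2 : ℝ) + 1))
  have hWo : ∀ q, IsOpen (W q) := fun q =>
    (((W1_open _ _).inter (W2_open _)).inter (W3_open _)).inter (W4_open _ _)
  have hWd : ∀ q, X ⊆ closure (X ∩ W q) := by
    intro q
    have hε : (0 : ℝ) < 1 / ((q.1.2 : ℝ) + 1) := by positivity
    refine closure_minimal ((E_sub_EtW hε q.2).trans (closure_mono fun x hx => ?_)) isClosed_closure
    have hxE : x ∈ E := Et_sub _ hx.1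
    exact ⟨subset_closure hxE, ⟨⟨⟨E_sub_W1 _ hε hxE, Et_sub_W2 _ hx.1⟩, hx.2⟩,
      E_sub_W4 _ hε hxE⟩⟩
  let W' : (ℕ × ℕ) × List Bool → Set ↥X := fun q => Subtype.val ⁻¹' (W q)
  have hW'o : ∀ q, IsOpen (W' q) := fun q => (hWo q).preimage continuous_subtype_val
  have hW'd : ∀ q, Dense (W' q) := by
    intro q
    rw [Subtype.dense_iff]
    intro x hx
    have : Subtype.val '' (W' q) = X ∩ W q := by
      rw [Subtype.image_preimage_coe]
    rw [this]
    exact hWd q hx
  have hdense := dense_iInter_of_isOpen hW'o hW'd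
  obtain ⟨c, p, n, k, x1, x2, κ, hG⟩ := exists_good
  obtain ⟨μ, hμ⟩ := exists_OM c hG.br.npos p
  have hne : Nonempty ↥X := ⟨⟨(c, μ), subset_closure ⟨p, n, k, x1, x2, κ, hG, hμ⟩⟩⟩
  obtain ⟨x, hx⟩ := hdense.nonempty
  rw [mem_iInter] at hx
  refine ⟨x.1, hXCC x.2, fun i j => (hx ((i, j), [])).1.1.1, fun j => (hx ((0, j), [])).1.1.2,
    fun v => (hx ((0, 0), v)).1.2, fun i j => (hx ((i, j), [])).2⟩

end Pool.Agent.W748.NM
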