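import Mathlib
import Pool.Agent.W748.NM.Generic

set_option autoImplicit false

open Filter Topology Set MeasureTheory

namespace Pool.Agent.W748.NM

/-- the generic properties -/
structure Gen (c : ℝ) (μ : ProbabilityMeasure II) : Prop where
  cc : ((c, μ) : ℝ × ProbabilityMeasure II) ∈ CC
  w1 : ∀ i j : ℕ, ((c, μ) : ℝ × ProbabilityMeasure II) ∈
    W1 (TopologicalSpace.denseSeq C(II, ℝ) i) (1 / ((j : ℝ) + 1))
  w2 : ∀ j : ℕ, ((c, μ) : ℝ × ProbabilityMeasure II) ∈ W2 (1 / ((j : ℝ) + 1))
  w3 : ∀ v, ((c, μ) : ℝ × ProbabilityMeasure II) ∈ W3 v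
  w4 : ∀ i j : ℕ, ((c, μ) : ℝ × ProbabilityMeasure II) ∈
    W4 (TopologicalSpace.denseSeq C(II, ℝ) i) (1 / ((j : ℝ) + 1))

theorem exists_gen : ∃ (c : ℝ) (μ : ProbabilityMeasure II), Gen c μ := by
  obtain ⟨x, h1, h2, h3, h4, h5⟩ := exists_generic
  exact ⟨x.1, x.2, h1, h2, h3, h4, h5⟩

variable {c : ℝ} {μ : ProbabilityMeasure II}

theorem Gen.cPR (h : Gen c μ) : c ∈ PR := h.cc.1

theorem T_contx (c : ℝ) : Continuous (T c) :=
  T_cont.comp (continuous_const.prodMk continuous_id)

theorem Tn_eq (c : ℝ) (n : ℕ) (x : II) : Tn c n x = (T c)^[n] x := by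
  induction n with
  | zero => rfl
  | succ n ih => rw [Tn, ih, Function.iterate_succ_apply']

theorem Gen.map_eq (h : Gen c μ) : (μ : Measure II).map (T c) = μ := by
  have hm : Measurable (T c) := (T_contx c).measurable
  have : IsFiniteMeasure ((μ : Measure II).map (T c)) := by
    constructor
    rw [Measure.map_apply hm MeasurableSet.univ]
    exact measure_lt_top _ _
  apply ext_of_forall_integral_eq_of_IsFiniteMeasure
  intro φ
  rw [integral_map hm.aemeasurable φ.continuous.aestronglyMeasurable]
  exact h.cc.2.1 ⟨φ, φ.continuous⟩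

theorem Gen.mp (h : Gen c μ) : MeasurePreserving (T c) (μ : Measure II) (μ : Measure II) :=
  ⟨(T_contx c).measurable, h.map_eq⟩

theorem Gen.dev (h : Gen c μ) {φ : C(II, ℝ)} {B : Set II} (hB : MeasurableSet B)
    (hinv : T c ⁻¹' B = B) :
    ∫ x in B, φ x ∂(μ : Measure II) = (μ : Measure II).real B * ∫ x, φ x ∂(μ : Measure II) := by
  set ν : Measure II := (μ : Measure II) with hν
  have hint : ∀ ψ : C(II, ℝ), Integrable (fun x => ψ x) ν := fun ψ => integrable_cont ψ.continuous μ
  -- first for the dense sequence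
  have key : ∀ i : ℕ, ∫ x in B, (TopologicalSpace.denseSeq C(II, ℝ) i) x ∂ν =
      ν.real B * ∫ x, (TopologicalSpace.denseSeq C(II, ℝ) i) x ∂ν := by
    intro i
    set φ := TopologicalSpace.denseSeq C(II, ℝ) i with hφ
    have hle : ∀ j : ℕ, |∫ x in B, φ x ∂ν - ν.real B * ∫ x, φ x ∂ν| ≤ 1 / ((j : ℝ) + 1) := by
      intro j
      obtain ⟨m, hm, hlt⟩ := h.w1 i j
      simp only at hlt
      set a := ∫ x, φ x ∂ν with ha
      have hmr : (0 : ℝ) < m := by exact_mod_cast hm
      have hTi : ∀ k : ℕ, Continuous (Tn c k) := fun k =>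
        (Tn_cont k).comp (continuous_const.prodMk continuous_id)
      -- invariance of the restricted integral
      have hres : (ν.restrict B).map (T c) = ν.restrict B := by
        ext s hs
        have hms : MeasurableSet (T c ⁻¹' s) := (T_contx c).measurable hs
        rw [Measure.map_apply (T_contx c).measurable hs, Measure.restrict_apply hms,
          Measure.restrict_apply hs]
        have h1 : T c ⁻¹' s ∩ B = T c ⁻¹' (s ∩ B) := by
          rw [preimage_inter, hinv]
        rw [h1]
        exact h.mp.measure_preimage (hs.inter hB).nullMeasurableSet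
      have h1 : ∀ k : ℕ, ∫ x in B, φ (Tn c k x) ∂ν = ∫ x in B, φ x ∂ν := by
        intro k
        induction k with
        | zero => rfl
        | succ k ih =>
          rw [← ih]
          have e : ∀ x, Tn c (k + 1) x = Tn c k (T c x) := by
            intro x
            rw [Tn_eq, Tn_eq, Function.iterate_succ_apply]
          simp only [e]
          have hg : Continuous fun x => φ (Tn c k x) := φ.continuous.comp (hTi k)
          calc ∫ x in B, φ (Tn c k (T c x)) ∂ν
              = ∫ y, φ (Tn c k y) ∂((ν.restrict B).map (T c)) := by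
                rw [integral_map (T_contx c).measurable.aemeasurable hg.aestronglyMeasurable]
            _ = _ := by rw [hres]
      have hcontA : Continuous fun x => (∑ k ∈ Finset.range m, φ (Tn c k x)) / m := by
        refine Continuous.div_const ?_ _
        exact continuous_finsetSum _ fun k _ => φ.continuous.comp (hTi k)
      have h2 : ∫ x in B, (∑ k ∈ Finset.range m, φ (Tn c k x)) / m ∂ν = ∫ x in B, φ x ∂ν := by
        rw [integral_div, integral_finsetSum]
        · simp only [h1]
          simp
          field_simp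
        · intro k _
          exact (integrable_cont (φ.continuous.comp (hTi k)) μ).integrableOn
      have h3 : ∫ x in B, ((∑ k ∈ Finset.range m, φ (Tn c k x)) / m - a) ∂ν =
          ∫ x in B, φ x ∂ν - ν.real B * a := by
        rw [integral_sub (integrable_cont hcontA μ).integrableOn (integrable_const _), h2,
          integral_const, measureReal_restrict_apply_univ, smul_eq_mul]
      rw [← h3]
      calc |∫ x in B, ((∑ k ∈ Finset.range m, φ (Tn c k x)) / m - a) ∂ν|
          ≤ ∫ x in B, |(∑ k ∈ Finset.range m, φ (Tn c k x)) / m - a| ∂ν :=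
            abs_integral_le_integral_abs
        _ ≤ ∫ x, |(∑ k ∈ Finset.range m, φ (Tn c k x)) / m - a| ∂ν := by
            refine setIntegral_le_integral ?_ (Eventually.of_forall fun x => abs_nonneg _)
            exact integrable_cont (hcontA.sub continuous_const).abs μ
        _ ≤ _ := hlt.le
    have h0 : |∫ x in B, φ x ∂ν - ν.real B * ∫ x, φ x ∂ν| ≤ 0 :=
      ge_of_tendsto' (tendsto_one_div_add_atTop_nhds_zero_nat (𝕜 := ℝ)) hle
    have := abs_nonpos_iff.1 h0
    linarith
  -- density
  have hcl : IsClosed {ψ : C(II, ℝ) | ∫ x in B, ψ x ∂ν = ν.real B * ∫ x, ψ x ∂ν} := by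
    have c1 : Continuous fun ψ : C(II, ℝ) => ∫ x, ψ x ∂ν :=
      pair_cont.comp (continuous_id.prodMk continuous_const)
    have c2 : Continuous fun ψ : C(II, ℝ) => ∫ x in B, ψ x ∂ν := by
      rw [continuous_iff_continuousAt]
      intro ψ0
      rw [ContinuousAt, tendsto_iff_norm_sub_tendsto_zero]
      have h4 : Tendsto (fun ψ : C(II, ℝ) => ‖ψ - ψ0‖) (𝓝 ψ0) (𝓝 0) := by
        have : Continuous fun ψ : C(II, ℝ) => ‖ψ - ψ0‖ := by fun_prop
        exact this.tendsto' _ _ (by simp)
      refine squeeze_zero (fun _ => norm_nonneg _) (fun ψ => ?_) h4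
      rw [← integral_sub (hint ψ).integrableOn (hint ψ0).integrableOn]
      have := norm_integral_le_of_norm_le_const (μ := ν.restrict B)
        (f := fun x => ψ x - ψ0 x) (C := ‖ψ - ψ0‖)
        (Eventually.of_forall fun x => (ψ - ψ0).norm_coe_le_norm x)
      refine this.trans ?_
      have h5 : (ν.restrict B).real univ ≤ 1 := by
        rw [measureReal_restrict_apply_univ]
        exact measureReal_le_one
      nlinarith [norm_nonneg (ψ - ψ0)]
    exact isClosed_eq c2 (continuous_const.mul c1)
  have hd := TopologicalSpace.denseRange_denseSeq C(II, ℝ)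
  have := hd.closure_eq ▸ mem_univ φ
  exact closure_minimal (by rintro _ ⟨i, rfl⟩; exact key i) hcl this

end Pool.Agent.W748.NM
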