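import Mathlib
import Pool.Agent.W748.NM.Ergo

set_option autoImplicit false

open Filter Topology Set MeasureTheory

namespace Pool.Agent.W748.NM

variable {c : ℝ} {μ : ProbabilityMeasure II}

theorem Gen.zero_one (h : Gen c μ) {B : Set II} (hB : MeasurableSet B)
    (hinv : T c ⁻¹' B = B) : (μ : Measure II) B = 0 ∨ (μ : Measure II) B = 1 := by
  set ν : Measure II := (μ : Measure II) with hν
  have h1 : ν.restrict B = ν B • ν := by
    have : IsFiniteMeasure (ν B • ν) := by
      constructor
      rw [Measure.smul_apply, smul_eq_mul]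
      exact ENNReal.mul_lt_top (measure_lt_top _ _) (measure_lt_top _ _)
    apply ext_of_forall_integral_eq_of_IsFiniteMeasure
    intro φ
    have h2 := h.dev (φ := ⟨φ, φ.continuous⟩) hB hinv
    rw [integral_smul_measure]
    exact h2
  have h2 : ν B = ν B * ν B := by
    have := congrArg (fun m : Measure II => m B) h1
    simpa [Measure.restrict_apply hB] using this
  rcases eq_or_ne (ν B) 0 with h0 | h0
  · exact Or.inl h0
  · right
    have h3 : ν B ≠ ⊤ := measure_ne_top _ _
    have h4 : ν B * 1 = ν B * ν B := by rw [mul_one]; exact h2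
    exact ((ENNReal.mul_right_inj h0 h3).1 h4).symm

theorem Gen.ergodic (h : Gen c μ) : Ergodic (T c) (μ : Measure II) := by
  refine ⟨h.mp, ⟨fun B hB hinv => ?_⟩⟩
  rw [eventuallyConst_set']
  rcases h.zero_one hB hinv with h0 | h1
  · left
    rwa [ae_eq_empty]
  · right
    rw [ae_eq_univ]
    exact (prob_compl_eq_zero_iff hB).2 h1

/-- the support -/
noncomputable def K0 (μ : ProbabilityMeasure II) : Set II := (μ : Measure II).support

theorem K0_closed (μ : ProbabilityMeasure II) : IsClosed (K0 μ) := Measure.isClosed_support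

theorem mem_K0 {x : II} : x ∈ K0 μ ↔ ∀ U ∈ 𝓝 x, 0 < (μ : Measure II) U :=
  Measure.mem_support_iff_forall x

theorem K0_ae (μ : ProbabilityMeasure II) : (μ : Measure II) (K0 μ)ᶜ = 0 :=
  Measure.measure_compl_support

theorem Gen.T_K0 (h : Gen c μ) {x : II} (hx : x ∈ K0 μ) : T c x ∈ K0 μ := by
  rw [mem_K0] at hx ⊢
  intro U hU
  obtain ⟨V, hVU, hVo, hV⟩ := mem_nhds_iff.1 hU
  have h1 : T c ⁻¹' V ∈ 𝓝 x := (hVo.preimage (T_contx c)).mem_nhds hV
  have h2 := hx _ h1
  rw [h.mp.measure_preimage hVo.measurableSet.nullMeasurableSet] at h2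
  exact h2.trans_le (measure_mono hVU)

theorem Gen.K0_le (h : Gen c μ) {x : II} (hx : x ∈ K0 μ) : (x : ℝ) ^ 2 + c ≤ 2 := by
  by_contra hcon
  push Not at hcon
  have h1 := h.cc.2.2.1
  simp only at h1
  have hc : Continuous fun t : II => max 0 ((t : ℝ) ^ 2 + c - 2) := by fun_prop
  have h2 : 0 < ∫ t : II, max 0 ((t : ℝ) ^ 2 + c - 2) ∂(μ : Measure II) := by
    rw [integral_pos_iff_support_of_nonneg (f := fun t : II => max 0 ((t : ℝ) ^ 2 + c - 2))
      (fun t => le_max_left _ _) (integrable_cont hc μ)]
    have hU : {t : II | 2 < (t : ℝ) ^ 2 + c} ∈ 𝓝 x := by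
      refine IsOpen.mem_nhds (isOpen_lt continuous_const (by fun_prop)) hcon
    refine (mem_K0.1 hx _ hU).trans_le (measure_mono fun t ht => ?_)
    have ht' : 2 < (t : ℝ) ^ 2 + c := ht
    rw [Function.mem_support]
    exact (lt_max_of_lt_right (by linarith)).ne'
  linarith

theorem Gen.T_val (h : Gen c μ) {x : II} (hx : x ∈ K0 μ) : ((T c x : II) : ℝ) = (x : ℝ) ^ 2 + c := by
  unfold T
  apply io_val
  refine ⟨?_, h.K0_le hx⟩
  have := h.cPR.1
  nlinarith [sq_nonneg (x : ℝ)]

theorem Gen.Tn_K0 (h : Gen c μ) {x : II} (hx : x ∈ K0 μ) (n : ℕ) :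
    (T c)^[n] x ∈ K0 μ ∧ (((T c)^[n] x : II) : ℝ) = it c n x := by
  induction n with
  | zero => exact ⟨hx, rfl⟩
  | succ n ih =>
    rw [Function.iterate_succ_apply']
    exact ⟨h.T_K0 ih.1, by rw [h.T_val ih.1, ih.2, it_succ]⟩

/-- every cylinder meets the support -/
theorem Gen.exists_cyl (h : Gen c μ) (v : List Bool) : ∃ x ∈ K0 μ, 0 < psi c v x := by
  have h1 := h.w3 v
  unfold W3 at h1
  have h1 : 0 < ∫ t : II, psi c v t ∂(μ : Measure II) := h1
  have hc : Continuous fun t : II => psi c v t :=
    (psi_cont' v).comp (continuous_const.prodMk continuous_id)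
  rw [integral_pos_iff_support_of_nonneg (fun t => psi_nonneg _ _ _) (integrable_cont hc μ)] at h1
  by_contra hcon
  push Not at hcon
  have h2 : (Function.support fun t : II => psi c v t) ⊆ (K0 μ)ᶜ := by
    intro t ht hK
    have h3 := hcon t hK
    have h4 := psi_nonneg c v t
    exact ht (le_antisymm h3 h4)
  have h5 := measure_mono_null h2 (K0_ae μ)
  rw [h5] at h1
  exact lt_irrefl _ h1

/-- itineraries from `psi` -/
theorem psi_itin {v : List Bool} {w : ℝ} (h : 0 < psi c v w) :
    ∀ (t : ℕ) (ht : t < v.length), 1 / 5 < sg v[t] * it c (2 * t) w ∧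
      sg v[t] * it c (2 * t) w < 6 / 5 := by
  induction v generalizing w with
  | nil => intro t ht; simp at ht
  | cons s v ih =>
    rw [psi_cons_pos] at h
    obtain ⟨h1, h2, h3⟩ := h
    intro t ht
    cases t with
    | zero =>
      simp only [List.getElem_cons_zero, mul_zero, it_zero]
      exact ⟨h1, h2⟩
    | succ t =>
      have ht' : t < v.length := by simpa using ht
      have := ih h3 t ht'
      rw [← it_add] at this
      simpa [mul_add] using this

/-- the period two point lies in the support -/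
theorem Gen.exists_periodic (h : Gen c μ) : ∃ x ∈ K0 μ, (x : ℝ) = qq c := by
  have hc := h.cPR
  obtain ⟨q1, q2, q3, q4⟩ := qq_spec hc
  have hqV : qq c ∈ Icc (1 / 5 : ℝ) (6 / 5) := ⟨by linarith, by linarith⟩
  have hqI : qq c ∈ Icc (-2 : ℝ) 2 := ⟨by linarith, by linarith⟩
  refine ⟨⟨qq c, hqI⟩, ?_, rfl⟩
  have hx : ∀ m : ℕ, ∃ x ∈ K0 μ, |(x : ℝ) - qq c| ≤ (5 / 7) ^ m := by
    intro m
    obtain ⟨x, hx, hpsi⟩ := h.exists_cyl (List.replicate (m + 1) true)
    refine ⟨x, hx, ?_⟩
    have hit := psi_itin hpsi
    have hV : ∀ t ≤ m, it c (2 * t) x ∈ Icc (1 / 5 : ℝ) (6 / 5) := by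
      intro t ht
      have h1 := hit t (by simp; omega)
      simp only [List.getElem_replicate, sg, if_true, one_mul] at h1
      exact ⟨h1.1.le, h1.2.le⟩
    have hstep : ∀ t ≤ m, |(x : ℝ) - qq c| ≤ (5 / 7) ^ t * |it c (2 * t) x - qq c| := by
      intro t
      induction t with
      | zero => intro _; simp
      | succ t ih =>
        intro ht
        have ih' := ih (by omega)
        have hVt := hV t (by omega)
        have h2 : 7 / 5 * |it c (2 * t) x - qq c| ≤ |it c (2 * (t + 1)) x - qq c| := by
          have e : it c (2 * (t + 1)) x = it c 2 (it c (2 * t) x) := by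
            rw [← it_add]; congr 1; ring
          rw [e]
          rcases le_total (it c (2 * t) x) (qq c) with hle | hle
          · have h3 := expand_V hc hVt hqV hle
            rw [q3] at h3
            rw [abs_of_nonpos (by linarith), abs_of_nonneg (by nlinarith)]
            linarith
          · have h3 := expand_V hc hqV hVt hle
            rw [q3] at h3
            rw [abs_of_nonneg (by linarith), abs_of_nonpos (by nlinarith)]
            linarith
        calc |(x : ℝ) - qq c| ≤ (5 / 7) ^ t * |it c (2 * t) x - qq c| := ih'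
          _ ≤ (5 / 7) ^ t * (5 / 7 * |it c (2 * (t + 1)) x - qq c|) := by
            apply mul_le_mul_of_nonneg_left _ (by positivity)
            linarith
          _ = _ := by ring
    have h4 := hstep m le_rfl
    have h5 : |it c (2 * m) x - qq c| ≤ 1 := by
      obtain ⟨a1, a2⟩ := hV m le_rfl
      rw [abs_le]; constructor <;> linarith
    calc _ ≤ _ := h4
      _ ≤ (5 / 7) ^ m * 1 := mul_le_mul_of_nonneg_left h5 (by positivity)
      _ = _ := mul_one _
  choose x hxK hxd using hx
  have hlim : Tendsto x atTop (𝓝 ⟨qq c, hqI⟩) := by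
    rw [tendsto_subtype_rng]
    rw [tendsto_iff_norm_sub_tendsto_zero]
    refine squeeze_zero (fun _ => norm_nonneg _) (fun m => hxd m) ?_
    exact tendsto_pow_atTop_nhds_zero_of_lt_one (by norm_num) (by norm_num)
  exact (K0_closed μ).mem_of_tendsto hlim (Eventually.of_forall hxK)

/-- the words of length `m` -/
def word (m : ℕ) (w : Fin m → Bool) : List Bool := List.ofFn w

/-- separated points -/
theorem Gen.exists_sep (h : Gen c μ) (m : ℕ) : ∃ x : (Fin m → Bool) → II,
    (∀ w, x w ∈ K0 μ) ∧ ∀ w (t : Fin m), 1 / 5 < sg (w t) * it c (2 * t) (x w) := by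
  choose x hx hpsi using fun w : Fin m → Bool => h.exists_cyl (word m w)
  refine ⟨x, hx, fun w t => ?_⟩
  have := (psi_itin (hpsi w) t (by simp [word])).1
  simpa [word] using this

theorem Gen.K0_infinite (h : Gen c μ) : (K0 μ).Infinite := by
  intro hfin
  obtain ⟨x, hx, hsep⟩ := h.exists_sep (hfin.toFinset.card + 1)
  have hinj : Function.Injective x := by
    intro w w' e
    funext t
    have h1 := hsep w t
    have h2 := hsep w' t
    rw [← e] at h2
    by_contra hne
    have : sg (w t) = - sg (w' t) := by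
      revert hne
      cases w t <;> cases w' t <;> simp [sg]
    rw [this] at h1
    linarith
  have h1 : Fintype.card (Fin (hfin.toFinset.card + 1) → Bool) ≤ hfin.toFinset.card := by
    rw [← Finset.card_univ, ← Finset.card_image_of_injective _ hinj]
    apply Finset.card_le_card
    intro y hy
    obtain ⟨w, -, rfl⟩ := Finset.mem_image.1 hy
    exact hfin.mem_toFinset.2 (hx w)
  simp only [Fintype.card_fun, Fintype.card_bool, Fintype.card_fin] at h1
  have := Nat.lt_two_pow_self (n := hfin.toFinset.card + 1)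
  omega

/-- no atoms -/
theorem Gen.noatom (h : Gen c μ) (x : II) : (μ : Measure II) {x} = 0 := by
  set ν : Measure II := (μ : Measure II) with hν
  by_contra hne
  have hpos : 0 < ν {x} := pos_iff_ne_zero.2 hne
  set O : Set II := range fun n : ℕ => (T c)^[n] x with hO
  have hmass : ∀ n, ν {x} ≤ ν {(T c)^[n] x} := by
    intro n
    induction n with
    | zero => simp
    | succ n ih =>
      refine ih.trans ?_
      have e : ν {(T c)^[n + 1] x} = ν (T c ⁻¹' {(T c)^[n + 1] x}) :=
        (h.mp.measure_preimage (MeasurableSet.singleton _).nullMeasurableSet).symm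
      rw [e]
      apply measure_mono
      intro y hy
      rw [mem_singleton_iff] at hy
      rw [mem_preimage, mem_singleton_iff, hy, Function.iterate_succ_apply']
  have hOfin : O.Finite := by
    by_contra hinf
    have hinf' : O.Infinite := hinf
    have h1 : ν O = ⊤ ∨ ν O ≤ 1 := Or.inr prob_le_one
    -- infinitely many points of mass at least ν {x}
    have h2 := Measure.finite_const_le_meas_of_disjoint_iUnion (μ := ν) (ι := ↥O)
      (ε := ν {x}) hpos (As := fun y => {(y : II)}) (fun _ => MeasurableSet.singleton _)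
      (by
        intro a b hab
        rw [Function.onFun, disjoint_singleton]
        exact fun e => hab (Subtype.ext e)) (measure_ne_top _ _)
    have h3 : {i : ↥O | ν {x} ≤ ν {(i : II)}} = univ := by
      ext ⟨y, n, rfl⟩
      simpa using hmass n
    rw [h3] at h2
    have := hinf'.to_subtype
    exact infinite_univ h2
  have hOm : MeasurableSet O := hOfin.measurableSet
  have hsub : O ⊆ T c ⁻¹' O := by
    rintro y ⟨n, rfl⟩
    exact ⟨n + 1, Function.iterate_succ_apply' _ _ _⟩
  have hae : T c ⁻¹' O =ᵐ[ν] O := by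
    refine (ae_eq_of_subset_of_measure_ge hsub ?_ hOm.nullMeasurableSet (measure_ne_top _ _)).symm
    rw [h.mp.measure_preimage hOm.nullMeasurableSet]
  have hxO : x ∈ O := ⟨0, rfl⟩
  have hOpos : 0 < ν O := hpos.trans_le (measure_mono (singleton_subset_iff.2 hxO))
  rcases h.ergodic.quasiErgodic.ae_empty_or_univ₀ hOm.nullMeasurableSet hae with h0 | h1
  · rw [ae_eq_empty] at h0
    rw [h0] at hOpos
    exact lt_irrefl _ hOpos
  · rw [ae_eq_univ] at h1
    have hK : K0 μ ⊆ O := Measure.support_subset_of_isClosed hOfin.isClosed h1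
    exact h.K0_infinite (hOfin.subset hK)

end Pool.Agent.W748.NM
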