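import Mathlib
import Pool.Agent.W748.NM.Ergo2

set_option autoImplicit false

open Filter Topology Set MeasureTheory

namespace Pool.Agent.W748.NM

variable {c : ℝ} {μ : ProbabilityMeasure II}

theorem ell_antitone (x : ℝ) : Antitone fun M : ℕ => ell M x := by
  intro M M' h
  unfold ell
  apply Real.log_le_log (lt_max_of_lt_right (Real.exp_pos _))
  apply max_le_max le_rfl
  apply Real.exp_le_exp.2
  have : (M : ℝ) ≤ M' := by exact_mod_cast h
  linarith

theorem ell_tendsto {x : ℝ} (hx : x ≠ 0) :
    Tendsto (fun M : ℕ => ell M x) atTop (𝓝 (Real.log |2 * x|)) := by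
  have h2 : 0 < |2 * x| := abs_pos.2 (by simpa using hx)
  obtain ⟨M0, hM0⟩ := exists_nat_ge (-Real.log |2 * x|)
  refine tendsto_const_nhds.congr' ?_
  filter_upwards [eventually_ge_atTop M0] with M hM
  refine (ell_eq ?_).symm
  rw [← Real.exp_log h2]
  apply Real.exp_le_exp.2
  have : (M0 : ℝ) ≤ M := by exact_mod_cast hM
  linarith

theorem Gen.ae_ne (h : Gen c μ) : ∀ᵐ x : II ∂(μ : Measure II), (x : ℝ) ≠ 0 := by
  have h0 : (0 : ℝ) ∈ Icc (-2 : ℝ) 2 := ⟨by norm_num, by norm_num⟩
  have h1 := h.noatom ⟨0, h0⟩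
  rw [ae_iff]
  have h2 : {x : II | ¬ (x : ℝ) ≠ 0} = {⟨0, h0⟩} := by
    ext x
    simp only [ne_eq, not_not, mem_singleton_iff]
    constructor
    · intro e; exact Subtype.ext e
    · intro e; subst e; rfl
  rw [h2, h1]

theorem ell_le_two (M : ℕ) (x : II) : ell M x ≤ Real.log 4 := by
  unfold ell
  apply Real.log_le_log (lt_max_of_lt_right (Real.exp_pos _))
  apply max_le
  · obtain ⟨h1, h2⟩ := x.2
    rw [abs_le]; constructor <;> linarith
  · have : Real.exp (-(M : ℝ)) ≤ 1 := Real.exp_le_one_iff.2 (by simp)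
    linarith

theorem log_le_four {x : II} (hx : (x : ℝ) ≠ 0) : Real.log |2 * (x : ℝ)| ≤ Real.log 4 :=
  (le_ell 0 hx).trans (ell_le_two 0 x)

theorem Gen.log_integrable (h : Gen c μ) :
    Integrable (fun x : II => Real.log |2 * (x : ℝ)|) (μ : Measure II) := by
  set ν : Measure II := (μ : Measure II) with hν
  have hmeas : Measurable fun x : II => Real.log |2 * (x : ℝ)| := by fun_prop
  have hellint : ∀ M, Integrable (fun x : II => ell M x) ν := fun M =>
    integrable_cont ((ell_cont M).comp continuous_subtype_val) μ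
  -- nonnegative version
  have hkey : Integrable (fun x : II => Real.log 4 - Real.log |2 * (x : ℝ)|) ν := by
    refine ⟨(measurable_const.sub hmeas).aestronglyMeasurable, ?_⟩
    rw [hasFiniteIntegral_iff_ofReal]
    · have hlim : Tendsto (fun M : ℕ => ∫⁻ x : II, ENNReal.ofReal (Real.log 4 - ell M x) ∂ν) atTop
          (𝓝 (∫⁻ x : II, ENNReal.ofReal (Real.log 4 - Real.log |2 * (x : ℝ)|) ∂ν)) := by
        apply lintegral_tendsto_of_tendsto_of_monotone
        · intro M
          exact ((measurable_const.sub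
            ((ell_cont M).comp continuous_subtype_val).measurable).ennreal_ofReal).aemeasurable
        · refine Eventually.of_forall fun x M M' hM => ENNReal.ofReal_le_ofReal ?_
          have := ell_antitone (x : ℝ) hM
          simp only at this
          linarith
        · filter_upwards [h.ae_ne] with x hx
          exact (ENNReal.continuous_ofReal.tendsto _).comp (tendsto_const_nhds.sub (ell_tendsto hx))
      have hle : ∀ M : ℕ, ∫⁻ x : II, ENNReal.ofReal (Real.log 4 - ell M x) ∂ν ≤
          ENNReal.ofReal (Real.log 4) := by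
        intro M
        rw [← ofReal_integral_eq_lintegral_ofReal (f := fun x : II => Real.log 4 - ell M x)
          ((integrable_const _).sub (hellint M))
          (Eventually.of_forall fun x => by
            have := ell_le_two M x
            simp only [Pi.zero_apply]
            linarith)]
        apply ENNReal.ofReal_le_ofReal
        rw [integral_sub (integrable_const _) (hellint M)]
        have := h.cc.2.2.2 M
        simp only at this
        simp only [integral_const, smul_eq_mul]
        have h1 : ν.real univ = 1 := by simp [measureReal_def]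
        rw [h1]
        linarith
      exact (le_of_tendsto' hlim hle).trans_lt ENNReal.ofReal_lt_top
    · filter_upwards [h.ae_ne] with x hx
      have := log_le_four hx
      simp only [Pi.zero_apply]
      linarith
  have h2 := (integrable_const (Real.log 4) (μ := ν)).sub hkey
  refine h2.congr (Eventually.of_forall fun x => ?_)
  simp

theorem Gen.log_integral (h : Gen c μ) :
    ∫ x : II, Real.log |2 * (x : ℝ)| ∂(μ : Measure II) = 0 := by
  set ν : Measure II := (μ : Measure II) with hν
  have hellint : ∀ M, Integrable (fun x : II => ell M x) ν := fun M =>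
    integrable_cont ((ell_cont M).comp continuous_subtype_val) μ
  have hlim : Tendsto (fun M : ℕ => ∫ x : II, ell M x ∂ν) atTop
      (𝓝 (∫ x : II, Real.log |2 * (x : ℝ)| ∂ν)) := by
    apply integral_tendsto_of_tendsto_of_antitone hellint h.log_integrable
    · exact Eventually.of_forall fun x => ell_antitone _
    · filter_upwards [h.ae_ne] with x hx
      exact ell_tendsto hx
  apply le_antisymm
  · have hle : ∀ j : ℕ, ∫ x : II, Real.log |2 * (x : ℝ)| ∂ν ≤ 1 / ((j : ℝ) + 1) := by
      intro j
      obtain ⟨M, hM⟩ := h.w2 j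
      simp only at hM
      refine le_trans ?_ hM.le
      apply integral_mono_ae h.log_integrable (hellint M)
      filter_upwards [h.ae_ne] with x hx
      exact le_ell M hx
    exact ge_of_tendsto' (tendsto_one_div_add_atTop_nhds_zero_nat (𝕜 := ℝ)) hle
  · exact ge_of_tendsto' hlim fun M => h.cc.2.2.2 M

/-- expanding periodic orbits near every point of the support -/
theorem Gen.near_periodic (h : Gen c μ) {x : II} (hx : x ∈ K0 μ) {V : Set II} (hV : IsOpen V)
    (hxV : x ∈ V) : ∃ (n : ℕ) (x1 x2 κ p : ℝ) (i : ℕ), Br c n x1 x2 κ p ∧ io (it c i p) ∈ V := by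
  -- bump function
  obtain ⟨φ, hφ0, hφ1, hφ2⟩ : ∃ φ : C(II, ℝ), (∀ y ∉ V, φ y = 0) ∧ φ x = 1 ∧
      ∀ y, φ y ∈ Icc (0 : ℝ) 1 := by
    obtain ⟨φ, h1, h2, h3⟩ := exists_continuous_zero_one_of_isClosed (X := II)
      (s := Vᶜ) (t := {x}) hV.isClosed_compl isClosed_singleton
      (by rw [disjoint_singleton_right]; exact fun hcon => hcon hxV)
    exact ⟨φ, fun y hy => h1 hy, h2 (mem_singleton x), h3⟩
  set a := ∫ t, φ t ∂(μ : Measure II) with ha
  have hapos : 0 < a := by
    rw [ha, integral_pos_iff_support_of_nonneg (fun t => (hφ2 t).1)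
      (integrable_cont φ.continuous μ)]
    have hU : Function.support φ ∈ 𝓝 x := by
      apply IsOpen.mem_nhds
      · exact isOpen_ne_fun φ.continuous continuous_const
      · rw [Function.mem_support, hφ1]; norm_num
    exact mem_K0.1 hx _ hU
  obtain ⟨i, hi⟩ : ∃ i, ‖TopologicalSpace.denseSeq C(II, ℝ) i - φ‖ < a / 4 := by
    have hd := TopologicalSpace.denseRange_denseSeq C(II, ℝ)
    obtain ⟨i, hy⟩ := hd.exists_mem_open Metric.isOpen_ball
      (⟨φ, Metric.mem_ball_self (by linarith : 0 < a / 4)⟩ : (Metric.ball φ (a / 4)).Nonempty)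
    refine ⟨i, ?_⟩
    rw [← dist_eq_norm]
    exact hy
  set φi := TopologicalSpace.denseSeq C(II, ℝ) i with hφi
  have hclose : ∀ y, |φi y - φ y| ≤ a / 4 := fun y =>
    ((φi - φ).norm_coe_le_norm y).trans hi.le
  obtain ⟨j, hj⟩ := exists_nat_one_div_lt (show 0 < a / 4 by linarith)
  obtain ⟨n, x1, x2, κ, p, hB, hlt⟩ := h.w4 i j
  simp only at hB hlt
  have h1 : |∫ t, φi t ∂(μ : Measure II) - a| ≤ a / 4 := by
    rw [ha, ← integral_sub (integrable_cont φi.continuous μ) (integrable_cont φ.continuous μ)]
    have := norm_integral_le_of_norm_le_const (μ := (μ : Measure II))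
      (f := fun x => φi x - φ x) (C := a / 4) (Eventually.of_forall fun x => hclose x)
    simpa using this
  have hn : (0 : ℝ) < n := by exact_mod_cast hB.npos
  have h2 : 0 < S c n (fun t => φi (io t)) p / n - a / 4 := by
    have e1 := (abs_lt.1 hlt).1
    have e2 := (abs_le.1 h1).1
    linarith
  -- if no orbit point lies in V, contradiction
  by_contra hcon
  push Not at hcon
  have h3 : S c n (fun t => φi (io t)) p ≤ n * (a / 4) := by
    unfold S
    calc ∑ i ∈ Finset.range n, φi (io (it c i p)) ≤ ∑ _i ∈ Finset.range n, a / 4 := by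
          refine Finset.sum_le_sum fun k _ => ?_
          have h4 := hcon n x1 x2 κ p k hB
          have h5 := hφ0 _ h4
          have h6 := (abs_le.1 (hclose (io (it c k p)))).2
          rw [h5] at h6
          linarith
      _ = n * (a / 4) := by simp
  have h4 : S c n (fun t => φi (io t)) p / n ≤ a / 4 := by
    rw [div_le_iff₀ hn]; linarith
  linarith

/-- cyclic invariance of the multiplier -/
theorem Br.dv_shift {x1 x2 κ p : ℝ} {n : ℕ} (h : Br c n x1 x2 κ p) (i : ℕ) :
    dv c n (it c i p) = dv c n p := by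
  have h1 := dv_add c n i p
  have h2 := dv_add c i n p
  rw [h.hp, add_comm i n, h1] at h2
  have h3 : dv c i p ≠ 0 := by
    rw [dv, Finset.prod_ne_zero_iff]
    intro j _ h0
    have h4 : it c j p = 0 := by linarith
    have h5 := h.it_ne (Nat.mod_lt j h.npos)
    rw [h.it_mod] at h5
    exact h5 h4
  rw [mul_comm (dv c n p)] at h2
  exact mul_left_cancel₀ h3 h2

/-- instability of expanding periodic points -/
theorem Br.unstable {x1 x2 κ p : ℝ} {n : ℕ} (h : Br c n x1 x2 κ p) (hc : c ∈ PR) (i : ℕ) :
    ∃ r : ℝ, 0 < r ∧ ∀ δ : ℝ, 0 < δ → ∃ (y : ℝ) (k : ℕ), |y - it c i p| < δ ∧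
      y ∈ Icc c (c ^ 2 + c) ∧ r ≤ |it c k y - it c k (it c i p)| := by
  set w := it c i p with hw
  have hcw : w ∈ Icc c (c ^ 2 + c) := h.orbit_core hc i
  have hper : it c n w = w := by
    rw [hw, ← it_add, add_comm, it_add, h.hp]
  have hdv : κ ≤ dv c n w := by rw [hw, h.dv_shift]; exact h.hd p h.memp
  have hκ := h.hκ
  obtain ⟨r, hr, hball⟩ := Metric.continuousAt_iff.1 ((dv_cont_x c n).continuousAt (x := w))
    ((κ - 1) / 2) (by linarith)
  have hexp : ∀ y, |y - w| < r → (1 + κ) / 2 * |y - w| ≤ |it c n y - w| := by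
    intro y hy
    have hd : ∀ ξ, |ξ - w| < r → (1 + κ) / 2 ≤ dv c n ξ := by
      intro ξ hξ
      have := hball (x := ξ) (by rw [Real.dist_eq]; exact hξ)
      rw [Real.dist_eq, abs_lt] at this
      linarith [this.1]
    rcases lt_trichotomy y w with hlt | heq | hgt
    · obtain ⟨ξ, hξ, e⟩ := it_mvt c n hlt
      rw [hper] at e
      have h1 : |ξ - w| < r := by
        rw [abs_lt] at hy ⊢
        constructor <;> linarith [hξ.1, hξ.2, hy.1]
      have h2 := hd ξ h1
      rw [abs_sub_comm y w, abs_sub_comm _ w, e, abs_mul,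
        abs_of_nonneg (by linarith : 0 ≤ dv c n ξ)]
      exact mul_le_mul_of_nonneg_right h2 (abs_nonneg _)
    · rw [heq]; simp
    · obtain ⟨ξ, hξ, e⟩ := it_mvt c n hgt
      rw [hper] at e
      have h1 : |ξ - w| < r := by
        rw [abs_lt] at hy ⊢
        constructor <;> linarith [hξ.1, hξ.2, hy.2]
      have h2 := hd ξ h1
      rw [e, abs_mul, abs_of_nonneg (by linarith : 0 ≤ dv c n ξ)]
      exact mul_le_mul_of_nonneg_right h2 (abs_nonneg _)
  refine ⟨r, hr, fun δ hδ => ?_⟩
  -- a nearby point of the core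
  have hc1 := hc.1
  have hc2 := hc.2
  obtain ⟨y, hyw, hyδ, hyc⟩ : ∃ y : ℝ, y ≠ w ∧ |y - w| < δ ∧ y ∈ Icc c (c ^ 2 + c) := by
    set d := min (δ / 2) 1 with hd
    have hdpos : 0 < d := lt_min (by linarith) one_pos
    have hd1 : d ≤ δ / 2 := min_le_left _ _
    have hd2 : d ≤ 1 := min_le_right _ _
    have hsq : 3 ≤ c ^ 2 := by nlinarith
    by_cases h0 : w ≤ 0
    · refine ⟨w + d, by linarith, ?_, by linarith [hcw.1], by linarith⟩
      rw [abs_lt]; constructor <;> linarith
    · push Not at h0
      refine ⟨w - d, by linarith, ?_, by linarith, by linarith [hcw.2]⟩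
      rw [abs_lt]; constructor <;> linarith
  have hperk : ∀ k, it c (n * k) w = w := by
    intro k
    have : Function.IsPeriodicPt (f c) n w := hper
    exact this.mul_const k
  by_contra hcon
  push Not at hcon
  have hlt : ∀ k, |it c (n * k) y - w| < r := by
    intro k
    have := hcon y (n * k) hyδ hyc
    rwa [hperk] at this
  have hgrow : ∀ k, ((1 + κ) / 2) ^ k * |y - w| ≤ |it c (n * k) y - w| := by
    intro k
    induction k with
    | zero => simp
    | succ k ih =>
      have e : it c (n * (k + 1)) y = it c n (it c (n * k) y) := by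
        rw [← it_add]; congr 1; ring
      rw [e]
      calc ((1 + κ) / 2) ^ (k + 1) * |y - w| = (1 + κ) / 2 * (((1 + κ) / 2) ^ k * |y - w|) := by
            ring
        _ ≤ (1 + κ) / 2 * |it c (n * k) y - w| := mul_le_mul_of_nonneg_left ih (by linarith)
        _ ≤ _ := hexp _ (hlt k)
  have hpos : 0 < |y - w| := abs_pos.2 (sub_ne_zero.2 hyw)
  obtain ⟨k, hk⟩ := pow_unbounded_of_one_lt (r / |y - w|) (by linarith : 1 < (1 + κ) / 2)
  rw [div_lt_iff₀ hpos] at hk
  have := hgrow k
  have := hlt k
  linarith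

end Pool.Agent.W748.NM
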