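import Mathlib
import Pool.Agent.W748.NM.Defs
import Pool.Agent.W748.NM.Ergo3

set_option autoImplicit false

open Filter Topology Set MeasureTheory OnePoint

namespace Pool.Agent.W748.NM.Sph

/-- the quadratic polynomial `z^2 + c` on the sphere -/
noncomputable def F (c : ℝ) : OnePoint ℂ → OnePoint ℂ := OnePoint.map fun z : ℂ => z ^ 2 + (c : ℂ)

theorem F_some (c : ℝ) (z : ℂ) : F c (z : OnePoint ℂ) = ((z ^ 2 + (c : ℂ) : ℂ) : OnePoint ℂ) := rfl

theorem tendsto_quad (c : ℝ) :
    Tendsto (fun z : ℂ => z ^ 2 + (c : ℂ)) (coclosedCompact ℂ) (coclosedCompact ℂ) := by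
  rw [coclosedCompact_eq_cocompact, ← Metric.cobounded_eq_cocompact,
    ← tendsto_norm_atTop_iff_cobounded]
  have h1 : Tendsto (fun z : ℂ => ‖z‖ ^ 2 - ‖(c : ℂ)‖) (Bornology.cobounded ℂ) atTop := by
    apply tendsto_atTop_add_const_right
    exact (tendsto_pow_atTop (by norm_num)).comp tendsto_norm_cobounded_atTop
  refine tendsto_atTop_mono (fun z => ?_) h1
  have := norm_sub_norm_le (z ^ 2) (-(c : ℂ))
  rw [norm_pow, norm_neg, sub_neg_eq_add] at this
  exact this

theorem F_cont (c : ℝ) : Continuous (F c) :=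
  OnePoint.continuous_map (by fun_prop) (tendsto_quad c)

theorem F_rational (c : ℝ) : IsRationalMap (F c) 2 := by
  refine ⟨Polynomial.X ^ 2 + Polynomial.C (c : ℂ), 1, isCoprime_one_right, ?_, F_cont c, ?_, ?_⟩
  · rw [Polynomial.natDegree_one, Polynomial.natDegree_X_pow_add_C]; rfl
  · intro z _
    simp [F_some]
  · intro z hz
    simp at hz

/-- real points on the sphere -/
noncomputable def R (x : ℝ) : OnePoint ℂ := ((x : ℂ) : OnePoint ℂ)

theorem R_cont : Continuous R := OnePoint.continuous_coe.comp Complex.continuous_ofReal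

theorem R_inj : Function.Injective R := fun x y h => by
  have := OnePoint.coe_injective h
  exact_mod_cast this

theorem F_R (c x : ℝ) : F c (R x) = R (x ^ 2 + c) := by
  unfold R
  rw [F_some]
  push_cast
  rfl

theorem F_iter_R (c : ℝ) (n : ℕ) (x : ℝ) : (F c)^[n] (R x) = R (it c n x) := by
  induction n with
  | zero => rfl
  | succ n ih => rw [Function.iterate_succ_apply', ih, F_R, it_succ]

theorem chordal_R (x y : ℝ) : chordal (R x) (R y) =
    2 * |x - y| / (Real.sqrt (1 + x ^ 2) * Real.sqrt (1 + y ^ 2)) := by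
  unfold R
  simp only [chordal]
  rw [← Complex.ofReal_sub, Complex.norm_real, Complex.norm_real, Complex.norm_real,
    Real.norm_eq_abs, Real.norm_eq_abs, Real.norm_eq_abs, sq_abs, sq_abs]

theorem chordal_lower {x y : ℝ} (hx : x ∈ Icc (-2 : ℝ) 2) (hy : y ∈ Icc (-2 : ℝ) 2) :
    2 * |x - y| / 5 ≤ chordal (R x) (R y) := by
  rw [chordal_R]
  have h1 : Real.sqrt (1 + x ^ 2) ≤ Real.sqrt 5 := by
    apply Real.sqrt_le_sqrt
    obtain ⟨h1, h2⟩ := hx
    nlinarith
  have h2 : Real.sqrt (1 + y ^ 2) ≤ Real.sqrt 5 := by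
    apply Real.sqrt_le_sqrt
    obtain ⟨h1, h2⟩ := hy
    nlinarith
  have h3 : Real.sqrt (1 + x ^ 2) * Real.sqrt (1 + y ^ 2) ≤ 5 := by
    calc _ ≤ Real.sqrt 5 * Real.sqrt 5 := mul_le_mul h1 h2 (Real.sqrt_nonneg _) (Real.sqrt_nonneg _)
      _ = 5 := Real.mul_self_sqrt (by norm_num)
  have h4 : 0 < Real.sqrt (1 + x ^ 2) * Real.sqrt (1 + y ^ 2) := by positivity
  exact div_le_div_of_nonneg_left (by positivity) h4 h3

/-- the derivative in the spherical metric -/
theorem sphDeriv_F (c : ℝ) (z : ℂ) : sphDeriv (F c) (z : OnePoint ℂ) =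
    ‖2 * z‖ * (1 + ‖z‖ ^ 2) / (1 + ‖z ^ 2 + (c : ℂ)‖ ^ 2) := by
  unfold sphDeriv
  apply Tendsto.limUnder_eq
  have hnhds : 𝓝[≠] (z : OnePoint ℂ) = map (fun w : ℂ => (w : OnePoint ℂ)) (𝓝[≠] z) := by
    have h := OnePoint.isOpenEmbedding_coe (X := ℂ)
    rw [nhdsWithin, nhdsWithin, ← h.map_nhds_eq]
    apply le_antisymm
    · intro s hs
      rw [mem_map, mem_inf_principal] at hs
      rw [mem_inf_principal, mem_map]
      filter_upwards [hs] with w hw
      intro hne
      exact hw (fun e => hne (by rw [mem_singleton_iff] at e ⊢; rw [e]))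
    · intro s hs
      rw [mem_inf_principal, mem_map] at hs
      rw [mem_map, mem_inf_principal]
      filter_upwards [hs] with w hw
      intro hne
      exact hw (fun e => hne (by
        rw [mem_singleton_iff] at e ⊢
        exact OnePoint.coe_injective e))
  rw [hnhds, tendsto_map'_iff]
  have hev : (fun w : ℂ => ‖w + z‖ * (Real.sqrt (1 + ‖w‖ ^ 2) * Real.sqrt (1 + ‖z‖ ^ 2)) /
      (Real.sqrt (1 + ‖w ^ 2 + (c : ℂ)‖ ^ 2) * Real.sqrt (1 + ‖z ^ 2 + (c : ℂ)‖ ^ 2))) =ᶠ[𝓝[≠] z]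
      ((fun w => chordal (F c w) (F c z) / chordal w z) ∘ fun w : ℂ => (w : OnePoint ℂ)) := by
    filter_upwards [self_mem_nhdsWithin] with w hw
    have hne : w - z ≠ 0 := sub_ne_zero.2 hw
    simp only [Function.comp_apply, F_some, chordal]
    have e : w ^ 2 + (c : ℂ) - (z ^ 2 + (c : ℂ)) = (w + z) * (w - z) := by ring
    rw [e, norm_mul]
    have h0 : ‖w - z‖ ≠ 0 := norm_ne_zero_iff.2 hne
    have h1 : Real.sqrt (1 + ‖w‖ ^ 2) ≠ 0 := (Real.sqrt_pos.2 (by positivity)).ne'
    have h2 : Real.sqrt (1 + ‖z‖ ^ 2) ≠ 0 := (Real.sqrt_pos.2 (by positivity)).ne'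
    have h3 : Real.sqrt (1 + ‖w ^ 2 + (c : ℂ)‖ ^ 2) ≠ 0 := (Real.sqrt_pos.2 (by positivity)).ne'
    have h4 : Real.sqrt (1 + ‖z ^ 2 + (c : ℂ)‖ ^ 2) ≠ 0 := (Real.sqrt_pos.2 (by positivity)).ne'
    field_simp
  refine Tendsto.congr' hev ?_
  have hcont : Continuous fun w : ℂ => ‖w + z‖ * (Real.sqrt (1 + ‖w‖ ^ 2) *
      Real.sqrt (1 + ‖z‖ ^ 2)) /
      (Real.sqrt (1 + ‖w ^ 2 + (c : ℂ)‖ ^ 2) * Real.sqrt (1 + ‖z ^ 2 + (c : ℂ)‖ ^ 2)) := by
    refine Continuous.div (by fun_prop) (by fun_prop) fun w => ?_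
    have h3 : 0 < Real.sqrt (1 + ‖w ^ 2 + (c : ℂ)‖ ^ 2) := Real.sqrt_pos.2 (by positivity)
    have h4 : 0 < Real.sqrt (1 + ‖z ^ 2 + (c : ℂ)‖ ^ 2) := Real.sqrt_pos.2 (by positivity)
    positivity
  refine tendsto_nhdsWithin_of_tendsto_nhds (hcont.tendsto' _ _ ?_)
  rw [Real.mul_self_sqrt (by positivity), Real.mul_self_sqrt (by positivity), ← two_mul]

theorem log_sphDeriv_R (c : ℝ) {x : ℝ} (hx : x ≠ 0) : Real.log (sphDeriv (F c) (R x)) =
    Real.log |2 * x| + Real.log (1 + x ^ 2) - Real.log (1 + (x ^ 2 + c) ^ 2) := by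
  unfold R
  rw [sphDeriv_F]
  have e1 : ‖(2 : ℂ) * (x : ℂ)‖ = |2 * x| := by
    rw [show (2 : ℂ) * (x : ℂ) = ((2 * x : ℝ) : ℂ) by push_cast; ring, Complex.norm_real,
      Real.norm_eq_abs]
  have e2 : ‖(x : ℂ)‖ ^ 2 = x ^ 2 := by rw [Complex.norm_real, Real.norm_eq_abs, sq_abs]
  have e3 : ‖(x : ℂ) ^ 2 + (c : ℂ)‖ ^ 2 = (x ^ 2 + c) ^ 2 := by
    rw [show (x : ℂ) ^ 2 + (c : ℂ) = ((x ^ 2 + c : ℝ) : ℂ) by push_cast; ring, Complex.norm_real,
      Real.norm_eq_abs, sq_abs]
  rw [e1, e2, e3]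
  have h1 : |2 * x| ≠ 0 := abs_ne_zero.2 (by simpa using hx)
  rw [Real.log_div (by positivity) (by positivity), Real.log_mul h1 (by positivity)]

/-- the inclusion of the state space -/
noncomputable def J (x : II) : OnePoint ℂ := R x

theorem J_cont : Continuous J := R_cont.comp continuous_subtype_val

theorem J_inj : Function.Injective J := fun _ _ h => Subtype.ext (R_inj h)

theorem J_closed : IsClosedEmbedding J := J_cont.isClosedEmbedding J_inj

variable {c : ℝ} {μ : ProbabilityMeasure II}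

theorem F_J (h : Gen c μ) {x : II} (hx : x ∈ K0 μ) : F c (J x) = J (T c x) := by
  unfold J
  rw [F_R, h.T_val hx]

theorem F_iter_J (h : Gen c μ) {x : II} (hx : x ∈ K0 μ) (n : ℕ) :
    (F c)^[n] (J x) = J ((T c)^[n] x) := by
  unfold J
  rw [F_iter_R, (h.Tn_K0 hx n).2]

theorem ae_K0 (μ : ProbabilityMeasure II) : ∀ᵐ x ∂(μ : Measure II), x ∈ K0 μ := K0_ae μ

section measure

variable [MeasurableSpace (OnePoint ℂ)] [BorelSpace (OnePoint ℂ)]

/-- the measure on the sphere -/
noncomputable def mm (μ : ProbabilityMeasure II) : Measure (OnePoint ℂ) :=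
  (μ : Measure II).map J

theorem J_emb : MeasurableEmbedding J := J_closed.measurableEmbedding

theorem mm_prob (μ : ProbabilityMeasure II) : IsProbabilityMeasure (mm μ) :=
  Measure.isProbabilityMeasure_map J_cont.measurable.aemeasurable

theorem mm_mp (h : Gen c μ) : MeasurePreserving (F c) (mm μ) (mm μ) := by
  refine ⟨(F_cont c).measurable, ?_⟩
  unfold mm
  rw [Measure.map_map (F_cont c).measurable J_cont.measurable]
  have h1 : (F c ∘ J) =ᵐ[(μ : Measure II)] (J ∘ T c) := by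
    filter_upwards [ae_K0 μ] with x hx
    exact F_J h hx
  rw [Measure.map_congr h1, ← Measure.map_map J_cont.measurable (T_contx c).measurable, h.map_eq]

theorem mm_ergodic (h : Gen c μ) : Ergodic (F c) (mm μ) := by
  refine ⟨mm_mp h, ⟨fun s hs hinv => ?_⟩⟩
  set B : Set II := J ⁻¹' s with hB
  have hBm : MeasurableSet B := J_cont.measurable hs
  have hae : T c ⁻¹' B =ᵐ[(μ : Measure II)] B := by
    rw [Filter.eventuallyEq_set]
    filter_upwards [ae_K0 μ] with x hx
    simp only [hB, mem_preimage]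
    rw [← F_J h hx]
    constructor
    · intro h1
      rw [← hinv]; exact h1
    · intro h1
      rw [← hinv] at h1; exact h1
  rw [eventuallyConst_set']
  rcases h.ergodic.quasiErgodic.ae_empty_or_univ₀ hBm.nullMeasurableSet hae with h0 | h1
  · left
    rw [ae_eq_empty] at h0 ⊢
    unfold mm
    rw [Measure.map_apply J_cont.measurable hs]
    exact h0
  · right
    rw [ae_eq_univ] at h1 ⊢
    unfold mm
    rw [Measure.map_apply J_cont.measurable hs.compl]
    exact h1

theorem mm_atomless (h : Gen c μ) (z : OnePoint ℂ) : mm μ {z} = 0 := by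
  unfold mm
  rw [Measure.map_apply J_cont.measurable (measurableSet_singleton z)]
  by_cases hz : ∃ x, J x = z
  · obtain ⟨x, rfl⟩ := hz
    have : J ⁻¹' {J x} = {x} := by
      ext y
      simp only [mem_preimage, mem_singleton_iff]
      exact J_inj.eq_iff
    rw [this]
    exact h.noatom x
  · have : J ⁻¹' {z} = ∅ := by
      ext y
      simp only [mem_preimage, mem_singleton_iff, mem_empty_iff_false, iff_false]
      exact fun e => hz ⟨y, e⟩
    rw [this, measure_empty]

theorem mm_support (μ : ProbabilityMeasure II) : (mm μ).support = J '' K0 μ := by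
  apply Subset.antisymm
  · apply Measure.support_subset_of_isClosed
    · exact J_closed.isClosedMap _ (K0_closed μ)
    · have hcl : IsClosed (J '' K0 μ) := J_closed.isClosedMap _ (K0_closed μ)
      change mm μ (J '' K0 μ)ᶜ = 0
      unfold mm
      rw [Measure.map_apply J_cont.measurable hcl.measurableSet.compl, preimage_compl,
        preimage_image_eq _ J_inj]
      exact K0_ae μ
  · rintro _ ⟨x, hx, rfl⟩
    rw [Measure.mem_support_iff_forall]
    intro U hU
    obtain ⟨V, hVU, hVo, hV⟩ := mem_nhds_iff.1 hU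
    refine lt_of_lt_of_le ?_ (measure_mono hVU)
    unfold mm
    rw [Measure.map_apply J_cont.measurable hVo.measurableSet]
    exact mem_K0.1 hx _ ((hVo.preimage J_cont).mem_nhds hV)

theorem mm_log (h : Gen c μ) : Integrable (fun z => Real.log (sphDeriv (F c) z)) (mm μ) ∧
    ∫ z, Real.log (sphDeriv (F c) z) ∂(mm μ) = 0 := by
  unfold mm
  rw [J_emb.integrable_map_iff, J_emb.integral_map]
  have hu : Continuous fun x : II => Real.log (1 + (x : ℝ) ^ 2) := by
    refine Continuous.log (by fun_prop) fun x => ?_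
    positivity
  have huT : Continuous fun x : II => Real.log (1 + ((T c x : II) : ℝ) ^ 2) :=
    hu.comp (T_contx c)
  have i1 := h.log_integrable
  have i2 := integrable_cont hu μ
  have i3 := integrable_cont huT μ
  have hae : (fun x : II => Real.log |2 * (x : ℝ)| + Real.log (1 + (x : ℝ) ^ 2) -
      Real.log (1 + ((T c x : II) : ℝ) ^ 2)) =ᵐ[(μ : Measure II)]
      (fun x => Real.log (sphDeriv (F c) (J x))) := by
    filter_upwards [ae_K0 μ, h.ae_ne] with x hx hx0
    unfold J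
    rw [log_sphDeriv_R c hx0, h.T_val hx]
  constructor
  · exact ((i1.add i2).sub i3).congr hae
  · have i12 : Integrable (fun x : II => Real.log |2 * (x : ℝ)| + Real.log (1 + (x : ℝ) ^ 2))
        (μ : Measure II) := i1.add i2
    rw [← integral_congr_ae hae, integral_sub i12 i3, integral_add i1 i2, h.log_integral]
    have h1 := h.cc.2.1 ⟨fun x : II => Real.log (1 + (x : ℝ) ^ 2), hu⟩
    simp only [ContinuousMap.coe_mk] at h1
    rw [h1]
    ring

theorem mm_julia (h : Gen c μ) : (mm μ).support ⊆ juliaSet (F c) := by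
  rw [mm_support]
  rintro _ ⟨x, hx, rfl⟩
  rintro ⟨V, hV, heq⟩
  obtain ⟨V', hVV, hVo, hxV⟩ := mem_nhds_iff.1 hV
  obtain ⟨n, x1, x2, κ, p, i, hB, hmem⟩ := h.near_periodic hx (hVo.preimage J_cont) hxV
  have hio := hB.io_orbit h.cPR i
  have hJ : J (io (it c i p)) = R (it c i p) := by unfold J; rw [hio]
  have hmem' : R (it c i p) ∈ V := by
    rw [← hJ]; exact hVV hmem
  obtain ⟨r, hr, hun⟩ := hB.unstable h.cPR i
  obtain ⟨U, hU, hlt⟩ := heq _ hmem' (2 * r / 5) (by positivity)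
  have hpre : R ⁻¹' U ∈ 𝓝 (it c i p) := R_cont.continuousAt.preimage_mem_nhds hU
  obtain ⟨δ, hδ, hball⟩ := Metric.mem_nhds_iff.1 hpre
  obtain ⟨y, k, hy1, hy2, hy3⟩ := hun δ hδ
  have hyU : R y ∈ U := hball (by rw [Metric.mem_ball, Real.dist_eq]; exact hy1)
  have h1 := hlt k _ hyU
  rw [F_iter_R, F_iter_R] at h1
  have hc1 := h.cPR.1
  have hc2 : c ≤ -1 := by linarith [h.cPR.2]
  have m1 := core_sub hc1 hc2 (it_mem hc1 hc2 hy2 k)
  have m2 : it c k (it c i p) ∈ Icc (-2 : ℝ) 2 := by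
    rw [← it_add]; exact hB.orbit_mem h.cPR _
  have h2 := chordal_lower m1 m2
  have h3 : 2 * r / 5 ≤ 2 * |it c k y - it c k (it c i p)| / 5 := by linarith
  linarith

theorem mm_neutral (h : Gen c μ) : IsNeutral (F c) (mm μ) :=
  ⟨mm_prob μ, mm_ergodic h, mm_atomless h, mm_julia h, (mm_log h).1, (mm_log h).2⟩

theorem mm_periodic (h : Gen c μ) : ∃ z ∈ (mm μ).support, ∃ n : ℕ, 0 < n ∧ (F c)^[n] z = z := by
  obtain ⟨x, hx, e⟩ := h.exists_periodic
  refine ⟨J x, by rw [mm_support]; exact ⟨x, hx, rfl⟩, 2, by norm_num, ?_⟩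
  unfold J
  rw [F_iter_R, e, (qq_spec h.cPR).2.2.1]

theorem mm_infinite (h : Gen c μ) : (mm μ).support.Infinite := by
  rw [mm_support]
  exact h.K0_infinite.image J_inj.injOn

theorem mm_not_minimal (h : Gen c μ) : ¬ IsMinimalOn (F c) (mm μ).support := by
  intro hmin
  obtain ⟨z, hz, n, hn, hper⟩ := mm_periodic h
  have h1 := hmin z hz
  have hfin : (range fun k : ℕ => (F c)^[k] z).Finite := by
    have hsub : (range fun k : ℕ => (F c)^[k] z) ⊆ (fun k : ℕ => (F c)^[k] z) '' (Iio n) := by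
      rintro _ ⟨k, rfl⟩
      refine ⟨k % n, Nat.mod_lt _ hn, ?_⟩
      have : Function.IsPeriodicPt (F c) n z := hper
      exact this.iterate_mod_apply k
    exact ((finite_Iio n).image _).subset hsub
  rw [hfin.isClosed.closure_eq] at h1
  exact mm_infinite h (hfin.subset h1)

end measure

end Pool.Agent.W748.NM.Sph
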