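import Mathlib
import Pool.Agent.W748.NM.Sphere

set_option autoImplicit false

open Filter Topology Set MeasureTheory OnePoint ExpGrowth

namespace Pool.Agent.W748.NM.Sph

/-- a separating function -/
noncomputable def sepf : OnePoint ℂ → ℝ
  | ∞ => 0
  | OnePoint.some z => z.re / (1 + ‖z‖ ^ 2)

theorem sepf_R (x : ℝ) : sepf (R x) = x / (1 + x ^ 2) := by
  unfold R
  simp only [sepf, Complex.ofReal_re]
  rw [Complex.norm_real, Real.norm_eq_abs, sq_abs]

theorem sepf_cont : Continuous sepf := by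
  rw [OnePoint.continuous_iff]
  constructor
  · have h1 : sepf ∞ = 0 := rfl
    rw [h1, coclosedCompact_eq_cocompact]
    have h2 : Tendsto (fun z : ℂ => ‖z‖⁻¹) (cocompact ℂ) (𝓝 0) :=
      tendsto_inv_atTop_zero.comp (tendsto_norm_cocompact_atTop (E := ℂ))
    refine squeeze_zero_norm' ?_ h2
    have h3 : ∀ᶠ z : ℂ in cocompact ℂ, 1 ≤ ‖z‖ :=
      (tendsto_norm_cocompact_atTop (E := ℂ)).eventually (eventually_ge_atTop 1)
    filter_upwards [h3] with z hz
    simp only [Function.comp_apply, sepf]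
    rw [norm_div, Real.norm_eq_abs, Real.norm_eq_abs, abs_of_pos (by positivity : 0 < 1 + ‖z‖ ^ 2),
      div_le_iff₀ (by positivity)]
    have h4 : |z.re| ≤ ‖z‖ := Complex.abs_re_le_norm z
    have h5 : 0 < ‖z‖ := by linarith
    have h6 : ‖z‖⁻¹ * (1 + ‖z‖ ^ 2) = ‖z‖⁻¹ + ‖z‖ := by field_simp
    rw [h6]
    have : 0 < ‖z‖⁻¹ := by positivity
    linarith
  · change Continuous fun z : ℂ => z.re / (1 + ‖z‖ ^ 2)
    refine Continuous.div Complex.continuous_re (by fun_prop) fun z => ?_
    positivity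

/-- the entourage -/
def UU : Set (OnePoint ℂ × OnePoint ℂ) := {q | |sepf q.1 - sepf q.2| < 1 / 50}

theorem UU_mem : UU ∈ @uniformity (OnePoint ℂ) uniformSpaceOfCompactR1 := by
  change UU ∈ 𝓝ˢ (diagonal (OnePoint ℂ))
  have ho : IsOpen UU := by
    apply isOpen_lt _ continuous_const
    exact ((sepf_cont.comp continuous_fst).sub (sepf_cont.comp continuous_snd)).abs
  apply ho.mem_nhdsSet.2
  intro q hq
  rw [mem_diagonal_iff] at hq
  simp [UU, hq]

variable {c : ℝ} {μ : ProbabilityMeasure II}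

theorem sep_bound {s : Bool} {x : ℝ} (hx : x ∈ Icc (-2 : ℝ) 2) (h : 1 / 5 < sg s * x) :
    1 / 25 < sg s * (x / (1 + x ^ 2)) := by
  obtain ⟨h1, h2⟩ := hx
  rw [← mul_div_assoc, lt_div_iff₀ (by positivity)]
  nlinarith

theorem netMax (h : Gen c μ) (m : ℕ) : ((2 ^ m : ℕ) : ℕ∞) ≤
    Dynamics.netMaxcard (F c) (J '' K0 μ) UU (2 * m) := by
  classical
  obtain ⟨x, hx, hsep⟩ := h.exists_sep m
  have hkey : ∀ w w' : Fin m → Bool, w ≠ w' → ∀ z : OnePoint ℂ,
      (J (x w), z) ∈ Dynamics.dynEntourage (F c) UU (2 * m) →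
      (J (x w'), z) ∈ Dynamics.dynEntourage (F c) UU (2 * m) → False := by
    intro w w' hne z h1 h2
    obtain ⟨t, ht⟩ := Function.ne_iff.1 hne
    rw [Dynamics.mem_dynEntourage] at h1 h2
    have ht2 : 2 * (t : ℕ) < 2 * m := by have := t.2; omega
    have a1 := h1 _ ht2
    have a2 := h2 _ ht2
    simp only [UU, mem_ofPred_eq] at a1 a2
    have b1 := hsep w t
    have b2 := hsep w' t
    have e1 : (F c)^[2 * (t : ℕ)] (J (x w)) = R (it c (2 * t) (x w)) := F_iter_R _ _ _
    have e2 : (F c)^[2 * (t : ℕ)] (J (x w')) = R (it c (2 * t) (x w')) := F_iter_R _ _ _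
    rw [e1, sepf_R] at a1
    rw [e2, sepf_R] at a2
    have m1 : it c (2 * t) (x w) ∈ Icc (-2 : ℝ) 2 := by
      rw [← (h.Tn_K0 (hx w) _).2]; exact ((T c)^[2 * (t : ℕ)] (x w)).2
    have m2 : it c (2 * t) (x w') ∈ Icc (-2 : ℝ) 2 := by
      rw [← (h.Tn_K0 (hx w') _).2]; exact ((T c)^[2 * (t : ℕ)] (x w')).2
    have c1 := sep_bound m1 b1
    have c2 := sep_bound m2 b2
    have hs : sg (w t) = - sg (w' t) := by
      revert ht
      cases w t <;> cases w' t <;> simp [sg]
    have hs2 : sg (w' t) = 1 ∨ sg (w' t) = -1 := by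
      cases w' t <;> simp [sg]
    rw [abs_lt] at a1 a2
    rcases hs2 with e | e
    · rw [hs, e] at c1
      rw [e] at c2
      linarith [a1.1, a1.2, a2.1, a2.2]
    · rw [hs, e] at c1
      rw [e] at c2
      linarith [a1.1, a1.2, a2.1, a2.2]
  have hrefl : ∀ w, (J (x w), J (x w)) ∈ Dynamics.dynEntourage (F c) UU (2 * m) := by
    intro w
    rw [Dynamics.mem_dynEntourage]
    intro k _
    simp [UU]
  have hinj : Function.Injective fun w => J (x w) := by
    intro w w' e
    by_contra hne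
    refine hkey w w' hne (J (x w)) (hrefl w) ?_
    have e' : J (x w) = J (x w') := e
    rw [← e']; exact hrefl w
  set s : Finset (OnePoint ℂ) := Finset.image (fun w => J (x w)) Finset.univ with hs
  have hcard : s.card = 2 ^ m := by
    rw [hs, Finset.card_image_of_injective _ hinj, Finset.card_univ]
    simp
  have hnet : Dynamics.IsDynNetIn (F c) (J '' K0 μ) UU (2 * m) s := by
    constructor
    · intro z hz
      rw [hs, Finset.mem_coe, Finset.mem_image] at hz
      obtain ⟨w, -, rfl⟩ := hz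
      exact ⟨x w, hx w, rfl⟩
    · intro a ha b hb hab
      rw [hs, Finset.mem_coe, Finset.mem_image] at ha hb
      obtain ⟨w, -, rfl⟩ := ha
      obtain ⟨w', -, rfl⟩ := hb
      rw [Function.onFun, Set.disjoint_left]
      intro z hz1 hz2
      have hne : w ≠ w' := fun e => hab (by rw [e])
      exact hkey w w' hne z hz1 hz2
  have := hnet.card_le_netMaxcard
  rw [hcard] at this
  exact this

theorem log2_le (h : Gen c μ) : ENNReal.log 2 ≤
    (2 : ℕ) * Dynamics.netEntropyEntourage (F c) (J '' K0 μ) UU := by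
  unfold Dynamics.netEntropyEntourage
  have hmono : Monotone fun n : ℕ => ((Dynamics.netMaxcard (F c) (J '' K0 μ) UU n : ℕ∞) : ENNReal) :=
    fun a b hab => ENat.toENNReal_le.2 (Dynamics.netMaxcard_monotone_time _ _ _ hab)
  rw [← hmono.expGrowthSup_comp_mul (by norm_num : 2 ≠ 0), ← expGrowthSup_pow]
  apply expGrowthSup_monotone
  intro m
  have := netMax h m
  have h2 := ENat.toENNReal_le.2 this
  refine le_trans (le_of_eq ?_) h2
  simp

theorem topEntropy_pos (h : Gen c μ) : 0 < topEntropy (F c) (J '' K0 μ) := by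
  have h1 := log2_le h
  have h2 : (0 : EReal) < ENNReal.log 2 := by
    rw [← ENNReal.log_one]
    exact ENNReal.log_strictMono (by norm_num)
  have h3 : 0 < Dynamics.netEntropyEntourage (F c) (J '' K0 μ) UU := by
    by_contra hcon
    push Not at hcon
    have h4 : ((2 : ℕ) : EReal) * Dynamics.netEntropyEntourage (F c) (J '' K0 μ) UU ≤ 0 :=
      mul_nonpos_of_nonneg_of_nonpos (by norm_num) hcon
    exact absurd (h2.trans_le (h1.trans h4)) (lt_irrefl _)
  refine h3.trans_le ?_
  unfold topEntropy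
  let : UniformSpace (OnePoint ℂ) := uniformSpaceOfCompactR1
  exact Dynamics.netEntropyEntourage_le_coverEntropy _ _ UU_mem

end Pool.Agent.W748.NM.Sph
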